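import Pool.Agent.Lib.MP_994fee_co.Spec

/-!
# Hat guessing on graphs of treewidth at most two: assembly of the modules
-/

namespace Pool.Agent.Lib.MP_994fee_co

theorem real_nil {V : Type} {q : ℕ} (T : SimpleGraph V) (s : V → (V → Fin q) → Fin q) (m : ℕ)
    (a b : V) (hab : a ≠ b) : Real T s m a b ∅ := by
  classical
  intro o S _
  refine ⟨fun A i _ => Function.update (Function.update (fun _ => o i) b A.x) a (o i), ?_, ?_, ?_⟩
  · intro A _ i κ
    refine ⟨by simp, ?_, by simp⟩
    show Function.update (Function.update (fun _ => o i) b A.x) a (o i) b = A.x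
    rw [Function.update_of_ne hab.symm]
    simp
  · intro A _ i κ i' κ' v hv
    simp at hv
  · intro A A' _ _ i κ κ' _ v hv
    simp at hv

theorem real_of_hangs (hstep : StStep) {q m : ℕ}
    (hcore : ∀ (I : Type) (_ : Finite I) (dI : DecidableEq I), Nat.card I ≤ m →
      ∀ g : Fin 2 → I → I → Finset (Fin q) → Finset (Fin q) → Finset (Fin q) → Fin q → Prop,
      (∀ i x y X Y L e e', g i x y X Y L e → g i x y X Y L e' → e = e') →
      Ext (Fin q) inferInstance m I dI g)
    {V : Type} [DecidableEq V] (T : SimpleGraph V) (s : V → (V → Fin q) → Fin q)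
    (hs : ∀ (v : V) (c c' : V → Fin q), (∀ w, T.Adj v w → c w = c' w) → s v c = s v c')
    (a b : V) (D : Finset V) (h : Hangs T a b D) :
    a ≠ b → (∀ v ∈ D, ∀ w, T.Adj v w → w ∈ D ∨ w = a ∨ w = b) →
    Real T s m a b D := by
  induction h with
  | nil a b => intro hab _; exact real_nil T s m a b hab
  | cons a b z D₁ D₂ D₃ hza hzb hz1 hz2 hz3 ha1 ha2 ha3 hb1 hb2 hb3 h12 h13 h23 n1 n2 n3 n12 n13 n23
      _ _ _ ih1 ih2 ih3 =>
    intro hab hcl
    have c1 : ∀ v ∈ D₁, ∀ w, T.Adj v w → w ∈ D₁ ∨ w = a ∨ w = z := by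
      intro v hv w hw
      rcases hcl v (by simp [hv]) w hw with h | h | h
      · simp only [Finset.mem_insert, Finset.mem_union] at h
        rcases h with h | (h | h) | h
        · exact Or.inr (Or.inr h)
        · exact Or.inl h
        · exact absurd hw (n12 v hv w h)
        · exact absurd hw (n13 v hv w h)
      · exact Or.inr (Or.inl h)
      · exact absurd (h ▸ hw) (n1 v hv)
    have c2 : ∀ v ∈ D₂, ∀ w, T.Adj v w → w ∈ D₂ ∨ w = b ∨ w = z := by
      intro v hv w hw
      rcases hcl v (by simp [hv]) w hw with h | h | h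
      · simp only [Finset.mem_insert, Finset.mem_union] at h
        rcases h with h | (h | h) | h
        · exact Or.inr (Or.inr h)
        · exact absurd hw.symm (n12 w h v hv)
        · exact Or.inl h
        · exact absurd hw (n23 v hv w h)
      · exact absurd (h ▸ hw) (n2 v hv)
      · exact Or.inr (Or.inl h)
    have c3 : ∀ v ∈ D₃, ∀ w, T.Adj v w → w ∈ D₃ ∨ w = a ∨ w = b := by
      intro v hv w hw
      rcases hcl v (by simp [hv]) w hw with h | h | h
      · simp only [Finset.mem_insert, Finset.mem_union] at h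
        rcases h with h | (h | h) | h
        · exact absurd (h ▸ hw) (n3 v hv)
        · exact absurd hw.symm (n13 w h v hv)
        · exact absurd hw.symm (n23 w h v hv)
        · exact Or.inl h
      · exact Or.inr (Or.inl h)
      · exact Or.inr (Or.inr h)
    have cz : ∀ w, T.Adj z w → w ∈ D₁ ∨ w ∈ D₂ ∨ w = a ∨ w = b := by
      intro w hw
      rcases hcl z (by simp) w hw with h | h | h
      · simp only [Finset.mem_insert, Finset.mem_union] at h
        rcases h with h | (h | h) | h
        · exact absurd h hw.ne'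
        · exact Or.inl h
        · exact Or.inr (Or.inl h)
        · exact absurd hw.symm (n3 w h)
      · exact Or.inr (Or.inr (Or.inl h))
      · exact Or.inr (Or.inr (Or.inr h))
    exact hstep q m hcore V inferInstance T s hs a b z D₁ D₂ D₃ hza hzb hz1 hz2 hz3 ha1 ha2 ha3
      hb1 hb2 hb3 h12 h13 h23 hab c1 c2 c3 cz (ih1 hza.symm c1) (ih2 hzb.symm c2) (ih3 hab c3)

theorem stFinal (hcore : StCore) (hhangs : StHangs) (hstep : StStep) (hroot : StRoot) :
    StFinal := by
  classical
  obtain ⟨m, q₀, hm, hq₀, hcore⟩ := hcore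
  refine ⟨q₀, fun V _ G hG q ⟨s, hs, hwin⟩ => ?_⟩
  by_contra hlt
  push Not at hlt
  obtain ⟨T, rk, hGT, hrk, hT⟩ := hG
  have hadj : ∀ (v : V) (c c' : V → Fin q), (∀ w, T.Adj v w → c w = c' w) → s v c = s v c' :=
    fun v c c' h => hs v c c' fun w hw => h w (hGT hw)
  by_cases hV : 1 < Fintype.card V
  · obtain ⟨a, b, hab, hH⟩ := hhangs V inferInstance inferInstance T rk hrk hT hV
    have hle : q₀ ≤ q := hlt.le
    let cl : Fin q → Fin q₀ := fun e => if h : e.val < q₀ then ⟨e, h⟩ else ⟨0, by omega⟩
    let s' : V → (V → Fin q₀) → Fin q₀ := fun v c => cl (s v fun w => Fin.castLE hle (c w))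
    have hs' : ∀ (v : V) (c c' : V → Fin q₀), (∀ w, T.Adj v w → c w = c' w) → s' v c = s' v c' := by
      intro v c c' h
      show cl _ = cl _
      congr 1
      exact hadj v _ _ fun w hw => by rw [h w hw]
    have hR := real_of_hangs hstep (q := q₀) (m := m) hcore T s' hs' a b _ hH hab (by
      intro v _ w _
      by_cases h1 : w = a
      · exact Or.inr (Or.inl h1)
      · by_cases h2 : w = b
        · exact Or.inr (Or.inr h2)
        · exact Or.inl (by simp [h1, h2]))
    obtain ⟨c, hc⟩ := hroot q₀ m hq₀ hm V inferInstance inferInstance T s' hs' a b hab hR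
    obtain ⟨v, hv⟩ := hwin fun w => Fin.castLE hle (c w)
    apply hc v
    show cl (s v fun w => Fin.castLE hle (c w)) = c v
    rw [hv]
    show (if h : (Fin.castLE hle (c v)).val < q₀ then (⟨(Fin.castLE hle (c v)).val, h⟩ : Fin q₀)
      else ⟨0, by omega⟩) = c v
    rw [dif_pos (by simp)]
    rfl
  · -- at most one vertex
    have hsub : Subsingleton V := by
      rw [← Fintype.card_le_one_iff_subsingleton]; omega
    have hq : 0 < q := by omega
    have hconst : ∀ v (c c' : V → Fin q), s v c = s v c' := by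
      intro v c c'
      apply hs
      intro w hw
      exact absurd (Subsingleton.elim v w) hw.ne
    let e0 : Fin q := ⟨0, hq⟩
    let c : V → Fin q := fun v => if s v (fun _ => e0) = e0 then ⟨1, by omega⟩ else e0
    obtain ⟨v, hv⟩ := hwin c
    rw [hconst v c fun _ => e0] at hv
    simp only [c] at hv
    split_ifs at hv with h
    · rw [h] at hv
      simp [e0, Fin.ext_iff] at hv
    · exact h hv

end Pool.Agent.Lib.MP_994fee_co
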