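import Pool.Agent.Lib.MP_994fee_co.Spec

/-!
# The extension lemma for a finite palette, from the infinite palette by an ultrafilter
-/

namespace Pool.Agent.Lib.MP_994fee_co

open Filter

namespace CoreAux

/-- Image of a class. -/
def mapCls {C D : Type} (f : C → D) (A : Cls C) : Cls D := ⟨f A.x, fun i κ => f (A.y i κ)⟩

theorem mapCls_ok {C D : Type} {f : C → D} (hf : Function.Injective f) {A : Cls C} (h : A.Ok) :
    (mapCls f A).Ok :=
  ⟨fun i κ he => h.1 i κ (hf he), fun i he => h.2 i (hf he)⟩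

/-- Transport of the extension property along an equivalence. -/
theorem ext_equiv {C : Type} {dC : DecidableEq C} {m : ℕ} {I J : Type} {dI : DecidableEq I}
    {dJ : DecidableEq J} (e : J ≃ I)
    {g : Fin 2 → I → I → Finset C → Finset C → Finset C → C → Prop}
    (h : Ext C dC m J dJ fun i x y => g i (e x) (e y)) : Ext C dC m I dI g := by
  obtain ⟨c, S1, S2, d, sg, h1, h2, h3⟩ := h
  have hpair : ∀ x y : I, Finset.image e.symm {x, y} = ({e.symm x, e.symm y} : Finset J) := by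
    intro x y
    rw [Finset.image_insert, Finset.image_singleton]
  refine ⟨c, fun A => S1 (mapCls e.symm A), fun i B => S2 i (B.image e.symm),
    fun i B => d i (B.image e.symm), fun A => sg (mapCls e.symm A), ?_, ?_, ?_⟩
  · intro A hA
    exact h1 _ (mapCls_ok e.symm.injective hA)
  · intro i B
    exact h2 i _
  · intro A hA
    obtain ⟨g1, g2⟩ := h3 _ (mapCls_ok e.symm.injective hA)
    refine ⟨fun i => ?_, fun i κ => ?_⟩
    · simp only [hpair]
      exact g1 i
    · simp only [hpair]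
      obtain ⟨g3, g4⟩ := g2 i κ
      refine ⟨g3, fun g5 => g4 ?_⟩
      show g i (e (e.symm A.x)) (e (e.symm (A.y i κ))) _ _ _ _
      rw [e.apply_symm_apply, e.apply_symm_apply]
      exact g5

/-- Reduction of a natural number to the palette. -/
def tau (k : ℕ) (z : ℕ) : Fin (k + 3) := Fin.ofNat (k + 3) z

theorem tau_inj {k z z' : ℕ} (hz : z < k) (hz' : z' < k) (h : tau k z = tau k z') : z = z' := by
  have h1 := congrArg Fin.val h
  simp only [tau, Fin.ofNat] at h1
  rw [Nat.mod_eq_of_lt (by omega), Nat.mod_eq_of_lt (by omega)] at h1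
  exact h1

theorem finite_cls (n : ℕ) : Finite (Cls (Fin n)) := by
  refine Finite.of_injective (β := Fin n × (Fin 2 → Fin 2 → Fin n)) (fun A => (A.x, A.y)) ?_
  rintro ⟨x, y⟩ ⟨x', y'⟩ h
  simp only [Prod.mk.injEq] at h
  obtain ⟨rfl, rfl⟩ := h
  rfl

theorem exists_bound {α : Type} [Finite α] (S : α → Finset ℕ) : ∃ K, ∀ a, ∀ z ∈ S a, z < K := by
  have : Fintype α := Fintype.ofFinite α
  classical
  refine ⟨(Finset.univ.biUnion S).sup id + 1, fun a z hz => ?_⟩
  have h1 : z ∈ Finset.univ.biUnion S := Finset.mem_biUnion.2 ⟨a, Finset.mem_univ a, hz⟩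
  have h2 : id z ≤ (Finset.univ.biUnion S).sup id := Finset.le_sup h1
  exact Nat.lt_succ_of_le h2

end CoreAux

open CoreAux in
theorem stCore (h : StCoreInf) : StCore := by
  classical
  obtain ⟨m0, hm0⟩ := h
  set m := max 3 m0 with hm
  by_contra hcon
  -- bad relations on `Fin n` for all palettes
  have hbad : ∀ k : ℕ, ∃ n ≤ m, ∃ g : Fin 2 → Fin n → Fin n → Finset (Fin (k + 3)) →
      Finset (Fin (k + 3)) → Finset (Fin (k + 3)) → Fin (k + 3) → Prop,
      (∀ i x y X Y L e e', g i x y X Y L e → g i x y X Y L e' → e = e') ∧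
      ¬ Ext (Fin (k + 3)) inferInstance m (Fin n) inferInstance g := by
    intro k
    by_contra hno
    refine hcon ⟨m, k + 3, le_max_left _ _, by omega, ?_⟩
    intro I hI dI hcard g hg
    by_contra hext
    refine hno ⟨Nat.card I, hcard, fun i x y => g i ((Finite.equivFin I).symm x)
      ((Finite.equivFin I).symm y), fun i x y X Y L e e' h1 h2 => hg _ _ _ _ _ _ _ _ h1 h2,
      fun h1 => hext (ext_equiv (Finite.equivFin I).symm h1)⟩
  choose n hn g0 hg0 hext0 using hbad
  -- the size of the index set is constant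
  obtain ⟨n0, hn0⟩ : ∃ n0, ∀ᶠ k in (hyperfilter ℕ : Filter ℕ), n k = n0 := by
    obtain ⟨c, hc⟩ := ((hyperfilter ℕ).map fun k =>
      (⟨n k, Nat.lt_succ_of_le (hn k)⟩ : Fin (m + 1))).eq_pure_of_finite
    refine ⟨c.1, ?_⟩
    have : ({c} : Set (Fin (m + 1))) ∈ (hyperfilter ℕ).map fun k =>
        (⟨n k, Nat.lt_succ_of_le (hn k)⟩ : Fin (m + 1)) := by
      rw [hc]
      exact rfl
    have h2 : ∀ᶠ k in (hyperfilter ℕ : Filter ℕ),
        (⟨n k, Nat.lt_succ_of_le (hn k)⟩ : Fin (m + 1)) = c := this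
    exact h2.mono fun k hk => congrArg Fin.val hk
  have hall : ∀ k, ∃ g : Fin 2 → Fin n0 → Fin n0 → Finset (Fin (k + 3)) →
      Finset (Fin (k + 3)) → Finset (Fin (k + 3)) → Fin (k + 3) → Prop, n k = n0 →
      (∀ i x y X Y L e e', g i x y X Y L e → g i x y X Y L e' → e = e') ∧
      ¬ Ext (Fin (k + 3)) inferInstance m (Fin n0) inferInstance g := by
    intro k
    by_cases hk : n k = n0
    · rw [← hk]
      exact ⟨g0 k, fun _ => ⟨hg0 k, hext0 k⟩⟩
    · exact ⟨fun _ _ _ _ _ _ _ => False, fun h1 => absurd h1 hk⟩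
  choose g1 hg1 using hall
  have hatTop : (hyperfilter ℕ : Filter ℕ) ≤ atTop := by
    rw [← Nat.cofinite_eq_atTop]
    exact hyperfilter_le_cofinite
  -- the limit relation
  let g : Fin 2 → Fin n0 → Fin n0 → Finset ℕ → Finset ℕ → Finset ℕ → ℕ → Prop :=
    fun i x y X Y L e => ∀ᶠ k in (hyperfilter ℕ : Filter ℕ),
      g1 k i x y (X.image (tau k)) (Y.image (tau k)) (L.image (tau k)) (tau k e)
  have hguniq : ∀ i x y X Y L e e', g i x y X Y L e → g i x y X Y L e' → e = e' := by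
    intro i x y X Y L e e' h1 h2
    obtain ⟨k, ⟨⟨h3, h4⟩, h5⟩, h6⟩ := (((h1.and h2).and hn0).and
      (hatTop (eventually_gt_atTop (max e e')))).exists
    have h7 := (hg1 k h5).1 _ _ _ _ _ _ _ _ h3 h4
    exact tau_inj (lt_of_le_of_lt (le_max_left _ _) h6) (lt_of_le_of_lt (le_max_right _ _) h6) h7
  obtain ⟨c, S1, S2, d, sg, h1, h2, h3⟩ := hm0 (Fin n0) inferInstance inferInstance g hguniq
  have := finite_cls n0
  obtain ⟨K1, hK1⟩ := exists_bound S1
  obtain ⟨K2, hK2⟩ := exists_bound fun z : Fin 2 × Finset (Fin n0) => S2 z.1 z.2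
  have hev : ∀ᶠ k in (hyperfilter ℕ : Filter ℕ), ∀ z : Cls (Fin n0) × Fin 2 × Fin 2, z.1.Ok →
      ¬ g1 k z.2.1 z.1.x (z.1.y z.2.1 z.2.2) ((S1 z.1).image (tau k))
        ((S2 z.2.1 {z.1.x, z.1.y z.2.1 z.2.2}).image (tau k))
        (({c, d z.2.1 {z.1.x, z.1.y z.2.1 z.2.2} (sg z.1 z.2.1 z.2.2)} : Finset ℕ).image (tau k))
        (tau k c) := by
    rw [eventually_all]
    rintro ⟨A, i, κ⟩
    by_cases hA : A.Ok
    · have h4 := ((h3 A hA).2 i κ).2
      have h5 : ∀ᶠ k in (hyperfilter ℕ : Filter ℕ),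
          ¬ g1 k i A.x (A.y i κ) ((S1 A).image (tau k))
          ((S2 i {A.x, A.y i κ}).image (tau k))
          (({c, d i {A.x, A.y i κ} (sg A i κ)} : Finset ℕ).image (tau k)) (tau k c) :=
        Ultrafilter.eventually_not.2 h4
      exact h5.mono fun k hk _ => hk
    · exact Eventually.of_forall fun k h5 => absurd h5 hA
  obtain ⟨k, ⟨h5, h6⟩, h7⟩ := ((hev.and hn0).and
    (hatTop (eventually_gt_atTop (max K1 K2)))).exists
  have hk1 : K1 < k := lt_of_le_of_lt (le_max_left _ _) h7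
  have hk2 : K2 < k := lt_of_le_of_lt (le_max_right _ _) h7
  have hcK : c < K2 := hK2 (0, ∅) c (h2 0 ∅).1
  have hdK : ∀ i B κ, d i B κ < K2 := fun i B κ => hK2 (i, B) _ ((h2 i B).2.2.2 κ).1
  refine (hg1 k h6).2 ⟨tau k c, fun A => (S1 A).image (tau k), fun i B => (S2 i B).image (tau k),
    fun i B κ => tau k (d i B κ), sg, ?_, ?_, ?_⟩
  · intro A hA
    exact ⟨Finset.mem_image_of_mem _ (h1 A hA).1,
      Finset.card_image_le.trans ((h1 A hA).2.trans (le_max_right _ _))⟩
  · intro i B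
    obtain ⟨a1, a2, a3, a4⟩ := h2 i B
    refine ⟨Finset.mem_image_of_mem _ a1, Finset.card_image_le.trans (a2.trans (le_max_right _ _)),
      fun he => a3 (tau_inj ((hdK i B 0).trans hk2) ((hdK i B 1).trans hk2) he), fun κ => ?_⟩
    exact ⟨Finset.mem_image_of_mem _ (a4 κ).1,
      fun he => (a4 κ).2 (tau_inj ((hdK i B κ).trans hk2) (hcK.trans hk2) he)⟩
  · intro A hA
    obtain ⟨b1, b2⟩ := h3 A hA
    refine ⟨fun i he => b1 i (tau_inj ((hdK i _ _).trans hk2) ((hdK i _ _).trans hk2) he),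
      fun i κ => ⟨Finset.mem_image_of_mem _ (b2 i κ).1, ?_⟩⟩
    have h8 := h5 (A, i, κ) hA
    simp only [Finset.image_insert, Finset.image_singleton] at h8
    exact h8

end Pool.Agent.Lib.MP_994fee_co
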