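import Pool.Agent.Lib.MP_994fee_co.Spec

/-!
# The extension lemma for the infinite palette
-/

namespace Pool.Agent.Lib.MP_994fee_co

namespace CoreInf

theorem chain_fst {R : ℕ} {p p' : Fin 5} (h : p < p') (j j' : Fin R) :
    chain p p' j j' p = row j := by
  unfold chain row
  simp [h]

theorem chain_snd {R : ℕ} {p p' : Fin 5} (h : p < p') (j j' : Fin R) :
    chain p p' j j' p' = row j' := by
  unfold chain
  simp [not_lt.2 h.le]

theorem chain_mono {R : ℕ} {p p' : Fin 5} (h : p < p') {j j' : Fin R} (hj : j < j') :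
    StrictMono (chain p p' j j') := by
  intro s s' hs
  have h1 := j'.2
  have h2 := p'.2
  have h3 := s'.2
  rw [Fin.lt_def] at h hj hs ⊢
  unfold chain row
  split_ifs <;> simp only [Fin.lt_def, Fin.ext_iff] at * <;> omega

theorem row_inj {R : ℕ} {j j' : Fin R} (h : row j = row j') : j = j' := by
  unfold row at h
  rw [Fin.ext_iff] at h ⊢
  simp only at h
  omega

theorem upd_eq {N M : ℕ} {c c' : Fin N → Fin M} {β : Fin 4 → Fin N} {g : Fin 4 → Fin M}
    (h1 : ∀ l, c' (β l) = g l) (h2 : ∀ n, (∀ l, β l ≠ n) → c' n = c n) : upd c β g = c' := by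
  funext n
  unfold upd
  split_ifs with h
  · rw [← h1, h.choose_spec]
  · push Not at h
    exact (h2 n h).symm

theorem pair_ex {I : Type} [DecidableEq I] {f : I → ℕ} (hf : Function.Injective f) {x y : I}
    (hxy : x ≠ y) (P : I → I → Prop) :
    (∃ x' y', ({x, y} : Finset I) = {x', y'} ∧
      (if (if f x < f y then (0 : Fin 2) else 1) = 0 then f x' < f y' else f y' < f x') ∧
        P x' y') ↔ P x y := by
  have hne : f x ≠ f y := fun h => hxy (hf h)
  constructor
  · rintro ⟨x', y', h1, h2, h3⟩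
    have hx : x ∈ ({x', y'} : Finset I) := by rw [← h1]; simp
    have hy : y ∈ ({x', y'} : Finset I) := by rw [← h1]; simp
    simp only [Finset.mem_insert, Finset.mem_singleton] at hx hy
    by_cases h : f x < f y
    · simp only [h, if_true] at h2
      rcases hx with rfl | rfl <;> rcases hy with rfl | rfl
      · exact absurd rfl hxy
      · exact h3
      · omega
      · exact absurd rfl hxy
    · simp only [h, if_false] at h2
      rcases hx with rfl | rfl <;> rcases hy with rfl | rfl
      · exact absurd rfl hxy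
      · exact h3
      · simp at h2
        omega
      · exact absurd rfl hxy
  · intro h
    refine ⟨x, y, rfl, ?_, h⟩
    by_cases h' : f x < f y
    · simp [h']
    · simp only [h', if_false]
      simp
      omega

/-- One class: the palette of the class and the choices of partners. -/
theorem one_class (h3 : StCount) {I : Type} [DecidableEq I] {R N : ℕ}
    (g : Fin 2 → I → I → Finset ℕ → Finset ℕ → Finset ℕ → ℕ → Prop)
    (hg : ∀ i x y X Y L e e', g i x y X Y L e → g i x y X Y L e' → e = e')
    (lab : (Fin N → Fin (4 * R + 8)) → ℕ) (hlab : Function.Injective lab)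
    (ψ : Fin 2 × I × I → Fin 4 → (Fin 4 → Fin 5) → Fin 5 → Fin 5 → Fin R → Fin R → Prop)
    (hψ1 : ∀ t a r r', (∀ l, l ≠ a → r l = r' l) → ψ t a r = ψ t a r')
    (hψ2 : ∀ (t : Fin 2 × I × I) (a : Fin 4) (β : Fin 4 → Fin N)
        (E : Fin 4 → Fin 5 → Fin (4 * R + 8))
        (c : Fin N → Fin (4 * R + 8)) (r : Fin 4 → Fin 5) (p p' : Fin 5) (j j' : Fin R),
        StrictMono β → (∀ l, StrictMono (E l)) → (∀ l, l ≠ a → c (β l) = E l (r l)) →
        p < p' → j < j' → E a = chain p p' j j' →
        (g t.1 t.2.1 t.2.2 (box lab c β E) (line lab c (β a))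
          {lab (Function.update c (β a) (row j)), lab (Function.update c (β a) (row j'))}
          (lab (Function.update c (β a) (row j))) ↔ ψ t a r p p' j j'))
    (en : Fin 2 × Finset I ≃ Fin N) (vm vj vp : Fin 2 × Finset I → Fin R)
    (hvm : ∀ b, vm b < vj b) (hvp : ∀ b, vj b < vp b)
    (hcol : ∀ (i : Fin 2) (x y : I), x ≠ y → ∀ l r p p',
      (ψ (i, x, y) l r p p' (vm (i, {x, y})) (vj (i, {x, y})) ↔
        ψ (i, x, y) l r p p' (vj (i, {x, y})) (vp (i, {x, y}))))
    (c0 : Fin N → Fin (4 * R + 8)) (hc0 : ∀ b, c0 (en b) = row (vj b))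
    (dd : Fin 2 → Finset I → Fin 2 → ℕ)
    (hdd : ∀ i B κ, dd i B κ = lab (Function.update c0 (en (i, B))
      (row (if κ = 0 then vm (i, B) else vp (i, B)))))
    (A : Cls I) (hA : A.Ok) :
    ∃ (S : Finset ℕ) (sg : Fin 2 → Fin 2 → Fin 2), lab c0 ∈ S ∧ S.card ≤ 625 ∧
      ∀ i κ, dd i {A.x, A.y i κ} (sg i κ) ∈ S ∧
        ¬ g i A.x (A.y i κ) S (line lab c0 (en (i, {A.x, A.y i κ})))
          {lab c0, dd i {A.x, A.y i κ} (sg i κ)} (lab c0) := by
  classical
  obtain ⟨hA1, hA2⟩ := hA
  -- the four directions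
  let D : Fin 2 × Fin 2 → Fin N := fun q => en (q.1, {A.x, A.y q.1 q.2})
  have hD : Function.Injective D := by
    rintro ⟨i, κ⟩ ⟨i', κ'⟩ h
    have h4 := en.injective h
    rw [Prod.mk.injEq] at h4
    obtain ⟨h5, h6⟩ := h4
    simp only at h5 h6
    subst h5
    have h7 : A.y i κ ∈ ({A.x, A.y i κ'} : Finset I) := by rw [← h6]; simp
    simp only [Finset.mem_insert, Finset.mem_singleton] at h7
    rcases h7 with h7 | h7
    · exact absurd h7 (hA1 i κ)
    · have h8 := hA2 i
      have h9 : κ = κ' := by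
        fin_cases κ <;> fin_cases κ' <;> simp_all
      rw [h9]
  let Ds : Finset (Fin N) := Finset.univ.image D
  have hDs : Ds.card = 4 := by
    rw [Finset.card_image_of_injective _ hD]
    rfl
  let β : Fin 4 → Fin N := Ds.orderEmbOfFin hDs
  have hβ : StrictMono β := (Ds.orderEmbOfFin hDs).strictMono
  have hσ : ∀ l, ∃ q, D q = β l := by
    intro l
    rcases Finset.mem_image.1 (Ds.orderEmbOfFin_mem hDs l) with ⟨q, _, hq⟩
    exact ⟨q, hq⟩
  choose σ hσ using hσ
  have hτ : ∀ q, ∃ l, β l = D q := by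
    intro q
    have h4 : D q ∈ Set.range (Ds.orderEmbOfFin hDs) := by
      rw [Finset.range_orderEmbOfFin]
      simp [Ds]
    exact h4
  choose τ hτ using hτ
  have hστ : ∀ q, σ (τ q) = q := fun q => hD ((hσ (τ q)).trans (hτ q))
  -- the direction and the context of `l`
  let b : Fin 4 → Fin 2 × Finset I := fun l => ((σ l).1, {A.x, A.y (σ l).1 (σ l).2})
  let t : Fin 4 → Fin 2 × I × I := fun l => ((σ l).1, A.x, A.y (σ l).1 (σ l).2)
  have hb : ∀ l, β l = en (b l) := fun l => (hσ l).symm
  obtain ⟨r, u, hru⟩ := h3 (fun l r p p' => ψ (t l) l r p p' (vj (b l)) (vp (b l)))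
    (fun a r r' h => by
      funext p p'
      show ψ (t a) a r p p' _ _ = ψ (t a) a r' p p' _ _
      rw [hψ1 (t a) a r r' h])
  let E : Fin 4 → Fin 5 → Fin (4 * R + 8) := fun l =>
    if r l < u l then chain (r l) (u l) (vj (b l)) (vp (b l))
    else chain (u l) (r l) (vm (b l)) (vj (b l))
  have hlt : ∀ l, ¬ r l < u l → u l < r l := by
    intro l h
    rcases hru l with h4 | h4
    · exact absurd h4.1 h
    · exact h4.1
  have hE1 : ∀ l, StrictMono (E l) := by
    intro l
    by_cases h : r l < u l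
    · simp only [E, h, if_true]
      exact chain_mono h (hvp _)
    · simp only [E, h, if_false]
      exact chain_mono (hlt l h) (hvm _)
  have hE2 : ∀ l, E l (r l) = row (vj (b l)) := by
    intro l
    by_cases h : r l < u l
    · simp only [E, h, if_true]
      exact chain_fst h _ _
    · simp only [E, h, if_false]
      exact chain_snd (hlt l h) _ _
  have hE3 : ∀ l, E l (u l) = row (if r l < u l then vp (b l) else vm (b l)) := by
    intro l
    by_cases h : r l < u l
    · simp only [E, h, if_true]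
      exact chain_snd h _ _
    · simp only [E, h, if_false]
      exact chain_fst (hlt l h) _ _
  have hcE : ∀ l, c0 (β l) = E l (r l) := by
    intro l
    rw [hE2, hb, hc0]
  have hbox : ∀ w : Fin 4 → Fin 5, ∀ c' : Fin N → Fin (4 * R + 8),
      (∀ l, c' (β l) = E l (w l)) → (∀ n, (∀ l, β l ≠ n) → c' n = c0 n) →
      lab c' ∈ box lab c0 β E := by
    intro w c' h4 h5
    unfold box
    rw [Finset.mem_image]
    exact ⟨w, Finset.mem_univ _, by rw [upd_eq h4 h5]⟩
  let sg : Fin 2 → Fin 2 → Fin 2 := fun i κ => if r (τ (i, κ)) < u (τ (i, κ)) then 1 else 0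
  refine ⟨box lab c0 β E, sg, hbox r c0 hcE fun _ _ => rfl, ?_, ?_⟩
  · unfold box
    refine Finset.card_image_le.trans ?_
    simp
  intro i κ
  set l := τ (i, κ) with hl
  have hbl : b l = (i, {A.x, A.y i κ}) := by
    simp only [b, hl, hστ]
  have htl : t l = (i, A.x, A.y i κ) := by
    simp only [t, hl, hστ]
  have hβl : β l = en (i, {A.x, A.y i κ}) := by rw [hb, hbl]
  have hdl : dd i {A.x, A.y i κ} (sg i κ) =
      lab (Function.update c0 (β l) (row (if r l < u l then vp (b l) else vm (b l)))) := by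
    rw [hdd, ← hβl, hbl]
    by_cases h : r l < u l
    · simp only [sg, ← hl, h, if_true]
      simp
    · simp only [sg, ← hl, h, if_false]
      simp
  have hself : Function.update c0 (β l) (row (vj (b l))) = c0 := by
    rw [hb, ← hc0, Function.update_eq_self]
  constructor
  · rw [hdl]
    refine hbox (Function.update r l (u l)) _ ?_ ?_
    · intro l'
      by_cases h : l' = l
      · subst h
        rw [Function.update_self, Function.update_self, hE3]
      · rw [Function.update_of_ne (fun h' => h (hβ.injective h')), Function.update_of_ne h, hcE]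
    · intro n hn
      rw [Function.update_of_ne (fun h' => hn l h'.symm)]
  · rw [hdl, ← hβl]
    by_cases h : r l < u l
    · simp only [h, if_true]
      have h5 := hψ2 (t l) l β E c0 r (r l) (u l) (vj (b l)) (vp (b l)) hβ hE1
        (fun l' _ => hcE l') h (hvp _) (by simp only [E, h, if_true])
      rw [hself, htl] at h5
      rw [h5, ← htl]
      rcases hru l with h6 | h6
      · exact h6.2
      · exact absurd h6.1 (not_lt.2 h.le)
    · simp only [h, if_false]
      have h5 := hψ2 (t l) l β E c0 r (u l) (r l) (vm (b l)) (vj (b l)) hβ hE1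
        (fun l' _ => hcE l') (hlt l h) (hvm _) (by simp only [E, h, if_false])
      rw [hself, htl, hbl, hcol i A.x (A.y i κ) (fun h' => hA1 i κ h'.symm), ← hbl, ← htl] at h5
      have h7 : ψ (t l) l r (u l) (r l) (vj (b l)) (vp (b l)) := by
        rcases hru l with h6 | h6
        · exact absurd h6.1 h
        · exact h6.2
      have h8 := h5.2 h7
      rw [htl] at h8
      intro h9
      rw [Finset.pair_comm] at h9
      have h10 := hg _ _ _ _ _ _ _ _ h8 h9
      have h11 := hlab h10
      have h12 := congrFun h11 (β l)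
      rw [Function.update_self, hb, hc0] at h12
      exact (hvm (b l)).ne (row_inj h12)

end CoreInf

theorem CoreInf.fin_col :
    Finite (Fin 2 → Fin 4 → (Fin 4 → Fin 5) → Fin 5 → Fin 5 → Prop) := by
  have h1 : Finite (Fin 5 → Fin 5 → Prop) := inferInstance
  have h2 : Finite ((Fin 4 → Fin 5) → Fin 5 → Fin 5 → Prop) := Pi.finite
  have h3 : Finite (Fin 4 → (Fin 4 → Fin 5) → Fin 5 → Fin 5 → Prop) := Pi.finite
  exact Pi.finite

open CoreInf in
theorem stCoreInf (h1 : StKey) (h2 : StPath) (h3 : StCount) : StCoreInf := by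
  classical
  obtain ⟨R, hR⟩ := h2 (Fin 2 → Fin 4 → (Fin 4 → Fin 5) → Fin 5 → Fin 5 → Prop) fin_col
  refine ⟨max 625 R, ?_⟩
  intro I hI dI g hg
  have hF : Fintype I := Fintype.ofFinite I
  obtain ⟨f, hf⟩ := Countable.exists_injective_nat I
  let en : Fin 2 × Finset I ≃ Fin (Fintype.card (Fin 2 × Finset I)) := Fintype.equivFin _
  obtain ⟨lab, hlab, ψ, hψ1, hψ2⟩ := h1 (Fin 2 × I × I) inferInstance R
    (Fintype.card (Fin 2 × Finset I)) (fun t X Y e1 e2 => g t.1 t.2.1 t.2.2 X Y {e1, e2} e1)
  let col : Fin 2 × Finset I → Fin R → Fin R →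
      (Fin 2 → Fin 4 → (Fin 4 → Fin 5) → Fin 5 → Fin 5 → Prop) := fun b j j' s l r p p' =>
    ∃ x y, b.2 = {x, y} ∧ (if s = 0 then f x < f y else f y < f x) ∧ ψ (b.1, x, y) l r p p' j j'
  have hpath : ∀ b, ∃ u v w : Fin R, u < v ∧ v < w ∧ col b u v = col b v w := fun b =>
    hR R le_rfl (col b)
  choose vm vj vp hvm hvp hcol using hpath
  have hcol' : ∀ (i : Fin 2) (x y : I), x ≠ y → ∀ l r p p',
      (ψ (i, x, y) l r p p' (vm (i, {x, y})) (vj (i, {x, y})) ↔
        ψ (i, x, y) l r p p' (vj (i, {x, y})) (vp (i, {x, y}))) := by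
    intro i x y hxy l r p p'
    have h4 := congrFun (congrFun (congrFun (congrFun (congrFun (hcol (i, {x, y}))
      (if f x < f y then 0 else 1)) l) r) p) p'
    have h5 := pair_ex hf hxy (fun x' y' => ψ (i, x', y') l r p p'
      (vm (i, {x, y})) (vj (i, {x, y})))
    have h6 := pair_ex hf hxy (fun x' y' => ψ (i, x', y') l r p p'
      (vj (i, {x, y})) (vp (i, {x, y})))
    rw [← h5, ← h6]
    exact iff_of_eq h4
  let c0 : Fin (Fintype.card (Fin 2 × Finset I)) → Fin (4 * R + 8) :=
    fun n => row (vj (en.symm n))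
  have hc0 : ∀ b, c0 (en b) = row (vj b) := fun b => by simp [c0]
  let dd : Fin 2 → Finset I → Fin 2 → ℕ := fun i B κ => lab (Function.update c0 (en (i, B))
      (row (if κ = 0 then vm (i, B) else vp (i, B))))
  have hmain : ∀ A : Cls I, ∃ (S : Finset ℕ) (sg : Fin 2 → Fin 2 → Fin 2), A.Ok →
      lab c0 ∈ S ∧ S.card ≤ 625 ∧
      ∀ i κ, dd i {A.x, A.y i κ} (sg i κ) ∈ S ∧
        ¬ g i A.x (A.y i κ) S (line lab c0 (en (i, {A.x, A.y i κ})))
          {lab c0, dd i {A.x, A.y i κ} (sg i κ)} (lab c0) := by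
    intro A
    by_cases hA : A.Ok
    · obtain ⟨S, sg, h⟩ := one_class h3 g hg lab hlab ψ hψ1 hψ2 en vm vj vp hvm hvp hcol' c0 hc0
        dd (fun _ _ _ => rfl) A hA
      exact ⟨S, sg, fun _ => h⟩
    · exact ⟨∅, fun _ _ => 0, fun h => absurd h hA⟩
  choose S1 sg hS1 using hmain
  have hne : ∀ i B κ, row (if κ = (0 : Fin 2) then vm (i, B) else vp (i, B)) ≠ c0 (en (i, B)) := by
    intro i B κ h
    rw [hc0] at h
    have h4 := row_inj h
    split_ifs at h4
    · exact (hvm (i, B)).ne h4
    · exact (hvp (i, B)).ne h4.symm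
  refine ⟨lab c0, S1, fun i B => line lab c0 (en (i, B)), dd, sg, ?_, ?_, ?_⟩
  · intro A hA
    exact ⟨(hS1 A hA).1, (hS1 A hA).2.1.trans (le_max_left _ _)⟩
  · intro i B
    refine ⟨?_, ?_, ?_, ?_⟩
    · unfold line
      rw [Finset.mem_image]
      refine ⟨vj (i, B), Finset.mem_univ _, ?_⟩
      rw [← hc0, Function.update_eq_self]
    · unfold line
      refine Finset.card_image_le.trans ?_
      simp
    · intro h
      have h4 := congrFun (hlab h) (en (i, B))
      rw [Function.update_self, Function.update_self] at h4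
      have h5 := row_inj h4
      simp at h5
      exact ((hvm (i, B)).trans (hvp (i, B))).ne h5
    · intro κ
      constructor
      · unfold line
        rw [Finset.mem_image]
        exact ⟨_, Finset.mem_univ _, rfl⟩
      · intro h
        have h4 := congrFun (hlab h) (en (i, B))
        rw [Function.update_self] at h4
        exact hne i B κ h4
  · intro A hA
    refine ⟨?_, (hS1 A hA).2.2⟩
    intro i h
    have h4 := hlab h
    have h5 : en (i, {A.x, A.y i 0}) ≠ en (i, {A.x, A.y i 1}) := by
      intro h6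
      have h7 := (Prod.mk.injEq _ _ _ _).mp (en.injective h6) |>.2
      have h8 : A.y i 0 ∈ ({A.x, A.y i 1} : Finset I) := by rw [← h7]; simp
      simp only [Finset.mem_insert, Finset.mem_singleton] at h8
      rcases h8 with h8 | h8
      · exact hA.1 i 0 h8
      · exact hA.2 i h8
    have h9 := congrFun h4 (en (i, {A.x, A.y i 0}))
    rw [Function.update_self, Function.update_of_ne h5] at h9
    exact hne _ _ _ h9

end Pool.Agent.Lib.MP_994fee_co
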