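import Pool.Agent.Lib.MP_994fee_co.Spec

/-!
# Hat guessing on graphs of treewidth at most two: the two counting lemmas
-/

namespace Pool.Agent.Lib.MP_994fee_co

theorem stPath : StPath := by
  classical
  intro κ hκ
  have : Fintype κ := Fintype.ofFinite κ
  refine ⟨Fintype.card (Finset κ) + 1, fun R hR col => ?_⟩
  by_contra hno
  push Not at hno
  let F : Fin R → Finset κ := fun j => (Finset.univ.filter (· < j)).image fun i => col i j
  have hlt : ∀ j j' : Fin R, j < j' → F j ≠ F j' := by
    intro j j' hjj' hF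
    have h1 : col j j' ∈ F j' :=
      Finset.mem_image.2 ⟨j, by simpa using hjj', rfl⟩
    rw [← hF] at h1
    obtain ⟨i, hi, hi'⟩ := Finset.mem_image.1 h1
    exact hno i j j' (by simpa using hi) hjj' hi'
  have hinj : Function.Injective F := by
    intro j j' h
    rcases lt_trichotomy j j' with h1 | h1 | h1
    · exact absurd h (hlt _ _ h1)
    · exact h1
    · exact absurd h.symm (hlt _ _ h1)
  have := Fintype.card_le_of_injective F hinj
  rw [Fintype.card_fin] at this
  omega

theorem stCount : StCount := by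
  classical
  intro φ hφ
  let dead : Fin 4 → (Fin 4 → Fin 5) → Prop := fun a r =>
    ∀ u : Fin 5, ¬ ((r a < u ∧ ¬ φ a r (r a) u) ∨ (u < r a ∧ φ a r u (r a)))
  have key : ∀ (a : Fin 4) (r r' : Fin 4 → Fin 5), dead a r → dead a r' →
      (∀ l, l ≠ a → r l = r' l) → ¬ r a < r' a := by
    intro a r r' h1 h2 h3 h4
    have e1 := h1 (r' a)
    have e2 := h2 (r a)
    rw [hφ a r r' h3] at e1
    tauto
  have hinj : ∀ a : Fin 4, Function.Injective
      (fun (r : {r : Fin 4 → Fin 5 // dead a r}) (l : {l : Fin 4 // l ≠ a}) => r.1 l.1) := by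
    intro a r r' h
    have h3 : ∀ l, l ≠ a → r.1 l = r'.1 l := fun l hl => congrFun h ⟨l, hl⟩
    have h4 : r.1 a = r'.1 a := by
      rcases lt_trichotomy (r.1 a) (r'.1 a) with h5 | h5 | h5
      · exact absurd h5 (key a _ _ r.2 r'.2 h3)
      · exact h5
      · exact absurd h5 (key a _ _ r'.2 r.2 fun l hl => (h3 l hl).symm)
    refine Subtype.ext (funext fun l => ?_)
    by_cases hl : l = a
    · rw [hl]; exact h4
    · exact h3 l hl
  have hcard : ∀ a : Fin 4,
      (Finset.univ.filter fun r : Fin 4 → Fin 5 => dead a r).card ≤ 125 := by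
    intro a
    have h1 := Fintype.card_le_of_injective _ (hinj a)
    rw [Fintype.card_subtype] at h1
    refine h1.trans ?_
    rw [Fintype.card_fun]
    have h2 : Fintype.card {l : Fin 4 // l ≠ a} = 3 := by
      rw [Fintype.card_subtype_compl]; simp
    rw [h2]; simp
  have hunion : (Finset.univ.filter fun r : Fin 4 → Fin 5 => ∃ a, dead a r).card ≤ 500 := by
    have h1 : (Finset.univ.filter fun r : Fin 4 → Fin 5 => ∃ a, dead a r) =
        Finset.univ.biUnion fun a : Fin 4 =>
          Finset.univ.filter fun r : Fin 4 → Fin 5 => dead a r := by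
      ext r; simp
    rw [h1]
    refine Finset.card_biUnion_le.trans ?_
    refine (Finset.sum_le_sum fun a _ => hcard a).trans ?_
    simp
  have hex : ∃ r : Fin 4 → Fin 5, ∀ a, ¬ dead a r := by
    by_contra hno
    push Not at hno
    have h1 : (Finset.univ.filter fun r : Fin 4 → Fin 5 => ∃ a, dead a r) = Finset.univ := by
      ext r; simpa using hno r
    rw [h1, Finset.card_univ, Fintype.card_fun] at hunion
    simp at hunion
  obtain ⟨r, hr⟩ := hex
  have h2 : ∀ a, ∃ u : Fin 5, (r a < u ∧ ¬ φ a r (r a) u) ∨ (u < r a ∧ φ a r u (r a)) := by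
    intro a
    have := hr a
    simp only [dead, not_forall, not_not] at this
    exact this
  choose u hu using h2
  exact ⟨r, u, hu⟩

end Pool.Agent.Lib.MP_994fee_co
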