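import Mathlib

/-!
# Hat guessing on graphs of treewidth at most two: the definitions of the statement
-/

namespace Pool.Agent.Lib.MP_994fee_co

/-- `s` is a winning strategy for the hat guessing game on `G` with `q` colours: the guess of every
vertex depends only on the colours of its neighbours, and for every colouring some vertex guesses
its own colour. -/
def IsWinning {V : Type} (G : SimpleGraph V) (q : ℕ) (s : V → (V → Fin q) → Fin q) : Prop :=
  (∀ (v : V) (c c' : V → Fin q), (∀ w, G.Adj v w → c w = c' w) → s v c = s v c') ∧
    ∀ c : V → Fin q, ∃ v, s v c = c v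

/-- The treewidth of `G` is at most `k`: `G` is a subgraph of a graph `T` that has a perfect
elimination ordering of width `k`, that is, the vertices can be ordered so that for every vertex `v`
the neighbours of `v` in `T` that come before `v` are pairwise adjacent in `T`, and there are at most
`k` of them. -/
def TreewidthLE {V : Type} (k : ℕ) (G : SimpleGraph V) : Prop :=
  ∃ (T : SimpleGraph V) (rk : V → ℕ), G ≤ T ∧ Function.Injective rk ∧ ∀ v,
    {w | T.Adj v w ∧ rk w < rk v}.ncard ≤ k ∧
      ∀ w w', T.Adj v w → rk w < rk v → T.Adj v w' → rk w' < rk v → w ≠ w' → T.Adj w w'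

end Pool.Agent.Lib.MP_994fee_co
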