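import Mathlib

/-!
# Covers of a graph on fibres that is locally covered by functions

`E` is a symmetric relation on `K × Fin q`. If any `8 g` edges are covered by one function
`K → Fin q` (one vertex in every fibre) and `|K| q < c ^ (2 g - 1)`, then all edges are covered by at
most `c + 1` vertices in every fibre.
-/

set_option autoImplicit false

namespace Pool.Agent.Lib.MP_994fee_co.LemmaM75

open Finset

variable {K : Type} {q : ℕ}

/-- The function `φ` covers every edge of `S`. -/
def Hits (φ : K → Fin q) (S : Finset ((K × Fin q) × (K × Fin q))) : Prop :=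
  ∀ e ∈ S, φ e.1.1 = e.1.2 ∨ φ e.2.1 = e.2.2

/-- The vertex `x` belongs to every functional cover of some `t` edges. -/
def Forced (E : K × Fin q → K × Fin q → Prop) (t : ℕ) (x : K × Fin q) : Prop :=
  ∃ S : Finset ((K × Fin q) × (K × Fin q)), S.card ≤ t ∧ (∀ e ∈ S, E e.1 e.2) ∧
    ∀ φ : K → Fin q, Hits φ S → φ x.1 = x.2

lemma Forced.mono {E : K × Fin q → K × Fin q → Prop} {s t : ℕ} (h : s ≤ t) {x : K × Fin q}
    (hx : Forced E s x) : Forced E t x := by
  obtain ⟨S, h1, h2, h3⟩ := hx
  exact ⟨S, h1.trans h, h2, h3⟩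

/-- Every edge without an end forced by `t + 1` edges has no vertex forced by `t` edges in the fibre
of its first end. -/
lemma not_forced {E : K × Fin q → K × Fin q → Prop} {t : ℕ} {x y : K × Fin q} (h : E x y)
    (hx : ¬ Forced E (t + 1) x) (hy : ¬ Forced E (t + 1) y) (a : Fin q) :
    ¬ Forced E t (x.1, a) := by
  classical
  intro hF
  by_cases hxa : x.2 = a
  · apply hx
    have : (x.1, a) = x := by rw [← hxa]
    rw [this] at hF
    exact hF.mono (Nat.le_succ t)
  · obtain ⟨S, h1, h2, h3⟩ := hF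
    apply hy
    refine ⟨insert (x, y) S, (card_insert_le _ _).trans (by omega), ?_, ?_⟩
    · intro e he
      rcases mem_insert.1 he with rfl | he
      · exact h
      · exact h2 e he
    · intro φ hφ
      have hS : φ x.1 = a := h3 φ (fun e he => hφ e (mem_insert_of_mem he))
      rcases hφ (x, y) (mem_insert_self _ _) with h' | h'
      · exact absurd (h'.symm.trans hS) hxa
      · exact h'

/-! ## Walks -/

section walk

variable {c : ℕ} (nb : K × Fin q → Fin c → Fin q) (τ : K × Fin q → K × Fin q)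

/-- One step: leave the fibre of `x` through the letter `nb x i`. -/
def nxt (x : K × Fin q) (i : Fin c) : K × Fin q := τ (x.1, nb x i)

/-- The end of the walk from `x` with the choices `l`. -/
def wk : K × Fin q → List (Fin c) → K × Fin q
  | x, [] => x
  | x, i :: l => wk (nxt nb τ x i) l

/-- The edges of the walk. -/
def ed [DecidableEq K] : K × Fin q → List (Fin c) → Finset ((K × Fin q) × (K × Fin q))
  | _, [] => ∅
  | x, i :: l => insert ((x.1, nb x i), nxt nb τ x i) (ed (nxt nb τ x i) l)

lemma card_ed [DecidableEq K] (l : List (Fin c)) : ∀ x, (ed nb τ x l).card ≤ l.length := by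
  induction l with
  | nil => intro x; simp [ed]
  | cons i l ih =>
    intro x
    simp only [ed, List.length_cons]
    exact (card_insert_le _ _).trans (Nat.succ_le_succ (ih _))

lemma ed_edge [DecidableEq K] {E : K × Fin q → K × Fin q → Prop} {Y : Set K}
    (hY : ∀ x i, x.1 ∈ Y → (nxt nb τ x i).1 ∈ Y)
    (hE : ∀ x i, x.1 ∈ Y → E (x.1, nb x i) (nxt nb τ x i)) (l : List (Fin c)) :
    ∀ x, x.1 ∈ Y → ∀ e ∈ ed nb τ x l, E e.1 e.2 := by
  induction l with
  | nil => intro x _ e he; simp [ed] at he
  | cons i l ih =>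
    intro x hx e he
    rcases mem_insert.1 he with rfl | he
    · exact hE x i hx
    · exact ih _ (hY x i hx) e he

lemma wk_mem {Y : Set K} (hY : ∀ x i, x.1 ∈ Y → (nxt nb τ x i).1 ∈ Y) (l : List (Fin c)) :
    ∀ x, x.1 ∈ Y → (wk nb τ x l).1 ∈ Y := by
  induction l with
  | nil => intro x hx; exact hx
  | cons i l ih => intro x hx; exact ih _ (hY x i hx)

/-- A functional cover of the walk that contains the start contains the end. -/
lemma wk_hits [DecidableEq K] {Y : Set K} (hY : ∀ x i, x.1 ∈ Y → (nxt nb τ x i).1 ∈ Y)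
    (hne : ∀ x i, x.1 ∈ Y → nb x i ≠ x.2) (l : List (Fin c)) :
    ∀ x, x.1 ∈ Y → ∀ φ : K → Fin q, Hits φ (ed nb τ x l) → φ x.1 = x.2 →
      φ (wk nb τ x l).1 = (wk nb τ x l).2 := by
  induction l with
  | nil => intro x _ φ _ h; exact h
  | cons i l ih =>
    intro x hx φ hφ h
    refine ih _ (hY x i hx) φ (fun e he => hφ e (mem_insert_of_mem he)) ?_
    rcases hφ _ (mem_insert_self _ _) with h' | h'
    · exact absurd (h'.symm.trans h) (hne x i hx)
    · exact h'

/-- Two different walks of the same length with the same end force the end. -/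
lemma wk_inj [DecidableEq K] {E : K × Fin q → K × Fin q → Prop} {Y : Set K}
    (hY : ∀ x i, x.1 ∈ Y → (nxt nb τ x i).1 ∈ Y)
    (hE : ∀ x i, x.1 ∈ Y → E (x.1, nb x i) (nxt nb τ x i))
    (hne : ∀ x i, x.1 ∈ Y → nb x i ≠ x.2)
    (hinj : ∀ x i j, x.1 ∈ Y → nb x i = nb x j → i = j) {t : ℕ}
    (hF : ∀ z : K × Fin q, z.1 ∈ Y → ¬ Forced E t z) (l : List (Fin c)) :
    ∀ (l' : List (Fin c)) (x : K × Fin q), x.1 ∈ Y → l'.length = l.length →
      l.length + l.length ≤ t → wk nb τ x l = wk nb τ x l' → l' = l := by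
  induction l with
  | nil =>
    intro l' x _ hl _ _
    exact List.length_eq_zero_iff.1 hl
  | cons i l ih =>
    intro l' x hx hl ht heq
    cases l' with
    | nil => simp at hl
    | cons j l' =>
      simp only [List.length_cons, Nat.add_right_cancel_iff] at hl
      by_cases hij : i = j
      · subst hij
        rw [ih l' (nxt nb τ x i) (hY x i hx) hl (by simp only [List.length_cons] at ht; omega) heq]
      · exfalso
        refine hF (wk nb τ x (i :: l)) (wk_mem nb τ hY _ x hx)
          ⟨ed nb τ x (i :: l) ∪ ed nb τ x (j :: l'), ?_, ?_, ?_⟩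
        · refine (card_union_le _ _).trans ?_
          have h1 := card_ed nb τ (i :: l) x
          have h2 := card_ed nb τ (j :: l') x
          simp only [List.length_cons] at h1 h2 ht
          omega
        · intro e he
          rcases mem_union.1 he with he | he
          · exact ed_edge nb τ hY hE _ x hx e he
          · exact ed_edge nb τ hY hE _ x hx e he
        · intro φ hφ
          have hφ1 : Hits φ (ed nb τ x (i :: l)) := fun e he => hφ e (mem_union_left _ he)
          have hφ2 : Hits φ (ed nb τ x (j :: l')) := fun e he => hφ e (mem_union_right _ he)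
          by_cases hi : φ x.1 = nb x i
          · have hj : φ x.1 ≠ nb x j := fun h => hij (hinj x i j hx (hi.symm.trans h))
            have h' : φ (nxt nb τ x j).1 = (nxt nb τ x j).2 := by
              rcases hφ2 _ (mem_insert_self _ _) with h | h
              · exact absurd h hj
              · exact h
            have := wk_hits nb τ hY hne l' _ (hY x j hx) φ
              (fun e he => hφ2 e (mem_insert_of_mem he)) h'
            rw [heq]
            exact this
          · have h' : φ (nxt nb τ x i).1 = (nxt nb τ x i).2 := by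
              rcases hφ1 _ (mem_insert_self _ _) with h | h
              · exact absurd h hi
              · exact h
            exact wk_hits nb τ hY hne l _ (hY x i hx) φ
              (fun e he => hφ1 e (mem_insert_of_mem he)) h'

end walk

/-- In a nonempty set of fibres some fibre has at most `c` letters on edges inside the set. -/
lemma exists_small [Fintype K] {c t : ℕ} (E E' : K × Fin q → K × Fin q → Prop)
    (hEE : ∀ x y, E' x y → E x y)
    (hF : ∀ x y, E' x y → ∀ a, ¬ Forced E t (x.1, a)) (h : ℕ) (hh : h + h ≤ t)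
    (hc : Fintype.card K * q < c ^ h) (Y : Finset K) (hYne : Y.Nonempty) :
    ∃ k ∈ Y, ∃ A : Finset (Fin q), A.card ≤ c ∧ ∀ a y, y.1 ∈ Y → E' (k, a) y → a ∈ A := by
  classical
  by_contra hcon
  push Not at hcon
  set Act : K → Finset (Fin q) := fun k => univ.filter fun a => ∃ y, y.1 ∈ Y ∧ E' (k, a) y
    with hAct
  have hbig : ∀ k ∈ Y, c < (Act k).card := by
    intro k hk
    by_contra hle
    push Not at hle
    obtain ⟨a, y, hy, hay, ha⟩ := hcon k hk (Act k) hle
    exact ha (mem_filter.2 ⟨mem_univ _, y, hy, hay⟩)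
  have hτ : ∀ x : K × Fin q, ∃ y : K × Fin q, x.2 ∈ Act x.1 → y.1 ∈ Y ∧ E' x y := by
    intro x
    by_cases hx : x.2 ∈ Act x.1
    · obtain ⟨y, hy, hxy⟩ := (mem_filter.1 hx).2
      exact ⟨y, fun _ => ⟨hy, hxy⟩⟩
    · exact ⟨x, fun h => absurd h hx⟩
  choose τ hτ using hτ
  have hnb : ∀ x : K × Fin q, ∃ f : Fin c → Fin q, x.1 ∈ Y →
      (∀ i, f i ∈ (Act x.1).erase x.2) ∧ Function.Injective f := by
    intro x
    by_cases hx : x.1 ∈ Y
    · have hcard : c ≤ ((Act x.1).erase x.2).card := by
        have h1 := hbig x.1 hx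
        have h2 := pred_card_le_card_erase (s := Act x.1) (a := x.2)
        omega
      refine ⟨fun i => ((Act x.1).erase x.2).orderEmbOfCardLe hcard i, fun _ => ⟨fun i => ?_, ?_⟩⟩
      · exact orderEmbOfCardLe_mem _ hcard i
      · exact (((Act x.1).erase x.2).orderEmbOfCardLe hcard).injective
    · exact ⟨fun _ => x.2, fun h => absurd h hx⟩
  choose nb hnb using hnb
  have hmemAct : ∀ x i, x.1 ∈ (Y : Set K) → nb x i ∈ Act x.1 := fun x i hx =>
    mem_of_mem_erase ((hnb x hx).1 i)
  have hY : ∀ x i, x.1 ∈ (Y : Set K) → (nxt nb τ x i).1 ∈ (Y : Set K) := fun x i hx =>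
    (hτ (x.1, nb x i) (hmemAct x i hx)).1
  have hE : ∀ x i, x.1 ∈ (Y : Set K) → E (x.1, nb x i) (nxt nb τ x i) := fun x i hx =>
    hEE _ _ (hτ (x.1, nb x i) (hmemAct x i hx)).2
  have hne : ∀ x i, x.1 ∈ (Y : Set K) → nb x i ≠ x.2 := fun x i hx =>
    ne_of_mem_erase ((hnb x hx).1 i)
  have hinj : ∀ x i j, x.1 ∈ (Y : Set K) → nb x i = nb x j → i = j := fun x i j hx hij =>
    (hnb x hx).2 hij
  obtain ⟨k₀, hk₀⟩ := hYne
  have hFY : ∀ z : K × Fin q, z.1 ∈ (Y : Set K) → ¬ Forced E t z := by
    intro z hz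
    have h0 : 0 < (Act z.1).card := lt_of_le_of_lt (Nat.zero_le _) (hbig z.1 hz)
    obtain ⟨a, ha⟩ := card_pos.1 h0
    obtain ⟨y, _, hay⟩ := (mem_filter.1 ha).2
    exact hF _ _ hay z.2
  have h0 : 0 < (Act k₀).card := lt_of_le_of_lt (Nat.zero_le _) (hbig k₀ hk₀)
  obtain ⟨a₀, _⟩ := card_pos.1 h0
  have hcard : Fintype.card (List.Vector (Fin c) h) ≤ Fintype.card (K × Fin q) := by
    refine Fintype.card_le_of_injective (fun l => wk nb τ (k₀, a₀) l.1) ?_
    intro l l' hll
    apply Subtype.ext
    exact (wk_inj nb τ hY hE hne hinj hFY l.1 l'.1 (k₀, a₀) hk₀ (by rw [l.2, l'.2])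
      (by rw [l.2]; exact hh) hll).symm
  rw [card_vector, Fintype.card_fin, Fintype.card_prod, Fintype.card_fin] at hcard
  omega

/-- **Lemma M.** If any `8 g` edges have a functional cover and `|K| q < c ^ (2 g - 1)`, then there
is a cover with at most `c + 1` vertices in every fibre. -/
theorem lemmaM' [Fintype K] {c g : ℕ} (E : K × Fin q → K × Fin q → Prop)
    (hsymm : ∀ x y, E x y → E y x)
    (hloc : ∀ S : Finset ((K × Fin q) × (K × Fin q)), S.card ≤ 8 * g →
      (∀ e ∈ S, E e.1 e.2) → ∃ φ : K → Fin q, ∀ e ∈ S, φ e.1.1 = e.1.2 ∨ φ e.2.1 = e.2.2)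
    (hc : Fintype.card K * q < c ^ (2 * g - 1)) :
    ∃ C : K → Finset (Fin q), (∀ k, (C k).card ≤ c + 1) ∧
      ∀ x y, E x y → x.2 ∈ C x.1 ∨ y.2 ∈ C y.1 := by
  classical
  -- the case `g = 0`: there are no fibres or no letters
  rcases Nat.eq_zero_or_pos g with hg | hg
  · subst hg
    have h0 : Fintype.card K * q = 0 := by simpa using hc
    refine ⟨fun _ => ∅, fun k => by simp, fun x y _ => ?_⟩
    exfalso
    rcases Nat.mul_eq_zero.1 h0 with h | h
    · exact (Fintype.card_eq_zero_iff.1 h).false x.1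
    · subst h
      exact x.2.elim0
  obtain ⟨t, ht⟩ : ∃ t, 4 * g = t + 1 := ⟨4 * g - 1, by omega⟩
  have huniq : ∀ k a b, Forced E (4 * g) (k, a) → Forced E (4 * g) (k, b) → a = b := by
    intro k a b ha hb
    obtain ⟨S, h1, h2, h3⟩ := ha
    obtain ⟨S', h1', h2', h3'⟩ := hb
    obtain ⟨φ, hφ⟩ := hloc (S ∪ S') ((card_union_le _ _).trans (by omega)) (by
      intro e he
      rcases mem_union.1 he with he | he
      · exact h2 e he
      · exact h2' e he)
    have e1 : φ k = a := h3 φ (fun e he => hφ e (mem_union_left _ he))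
    have e2 : φ k = b := h3' φ (fun e he => hφ e (mem_union_right _ he))
    exact e1.symm.trans e2
  set E' : K × Fin q → K × Fin q → Prop := fun x y =>
    E x y ∧ ¬ Forced E (4 * g) x ∧ ¬ Forced E (4 * g) y with hE'
  have hF : ∀ x y, E' x y → ∀ a, ¬ Forced E t (x.1, a) := by
    intro x y hxy a
    exact not_forced hxy.1 (by rw [← ht]; exact hxy.2.1) (by rw [← ht]; exact hxy.2.2) a
  -- peeling
  have hpeel : ∀ n : ℕ, ∀ Y : Finset K, Y.card = n → ∃ C : K → Finset (Fin q),
      (∀ k, (C k).card ≤ c) ∧ ∀ x y, x.1 ∈ Y → y.1 ∈ Y → E' x y → x.2 ∈ C x.1 ∨ y.2 ∈ C y.1 := by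
    intro n
    induction n with
    | zero =>
      intro Y hY
      rw [card_eq_zero] at hY
      subst hY
      exact ⟨fun _ => ∅, fun k => by simp, fun x y hx => absurd hx (notMem_empty _)⟩
    | succ n ih =>
      intro Y hY
      have hYne : Y.Nonempty := card_pos.1 (by omega)
      obtain ⟨k, hk, A, hA, hAct⟩ := exists_small E E' (fun x y h => h.1) hF (2 * g - 1)
        (by omega) hc Y hYne
      obtain ⟨C, hC1, hC2⟩ := ih (Y.erase k) (by rw [card_erase_of_mem hk, hY]; rfl)
      refine ⟨fun l => if l = k then A else C l, fun l => ?_, fun x y hx hy hxy => ?_⟩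
      · dsimp only
        split_ifs
        · exact hA
        · exact hC1 l
      · dsimp only
        by_cases hxk : x.1 = k
        · left
          rw [if_pos hxk]
          apply hAct x.2 y hy
          rw [← hxk]
          exact hxy
        · by_cases hyk : y.1 = k
          · right
            rw [if_pos hyk]
            apply hAct y.2 x hx
            rw [← hyk]
            exact ⟨hsymm _ _ hxy.1, hxy.2.2, hxy.2.1⟩
          · rw [if_neg hxk, if_neg hyk]
            exact hC2 x y (mem_erase.2 ⟨hxk, hx⟩) (mem_erase.2 ⟨hyk, hy⟩) hxy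
  obtain ⟨C, hC1, hC2⟩ := hpeel _ univ rfl
  refine ⟨fun k => C k ∪ univ.filter fun a => Forced E (4 * g) (k, a), fun k => ?_,
    fun x y hxy => ?_⟩
  · refine (card_union_le _ _).trans (Nat.add_le_add (hC1 k) ?_)
    rw [card_le_one]
    intro a ha b hb
    exact huniq k a b (mem_filter.1 ha).2 (mem_filter.1 hb).2
  · by_cases hx : Forced E (4 * g) x
    · left
      exact mem_union_right _ (mem_filter.2 ⟨mem_univ _, hx⟩)
    · by_cases hy : Forced E (4 * g) y
      · right
        exact mem_union_right _ (mem_filter.2 ⟨mem_univ _, hy⟩)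
      · rcases hC2 x y (mem_univ _) (mem_univ _) ⟨hxy, hx, hy⟩ with h | h
        · exact Or.inl (mem_union_left _ h)
        · exact Or.inr (mem_union_left _ h)

end Pool.Agent.Lib.MP_994fee_co.LemmaM75
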