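import Mathlib
import Pool.Agent.Lib.MP_994fee_co.Defs

/-!
# The hat guessing number is bounded on graphs of bounded pathwidth
-/

set_option autoImplicit false

namespace Pool.Agent.Lib.MP_994fee_co

open Finset

/-- The pathwidth of `G` is at most `p`: every vertex `v` occupies a nonempty interval
`[l v, r v]` of positions on a path, adjacent vertices share a position, and no position is
occupied by more than `p + 1` vertices. -/
def PathwidthLE {V : Type} (p : ℕ) (G : SimpleGraph V) : Prop :=
  ∃ l r : V → ℕ, (∀ v, l v ≤ r v) ∧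
    (∀ v w, G.Adj v w → ∃ t, l v ≤ t ∧ t ≤ r v ∧ l w ≤ t ∧ t ≤ r w) ∧
    ∀ t, {v | l v ≤ t ∧ t ≤ r v}.ncard ≤ p + 1

namespace PW

section LLL

variable {V : Type} [Fintype V] [DecidableEq V]

/-- the colourings for which all vertices of `S` guess wrong -/
def wrong (k : ℕ) (h : V → (V → Fin k) → Finset (Fin k)) (S : Finset V) :
    Finset (V → Fin k) :=
  univ.filter (fun c => ∀ v ∈ S, c v ∉ h v c)

lemma mem_wrong {k : ℕ} {h : V → (V → Fin k) → Finset (Fin k)} {S : Finset V}
    {c : V → Fin k} : c ∈ wrong k h S ↔ ∀ v ∈ S, c v ∉ h v c := by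
  simp [wrong]

omit [Fintype V] in
/-- Fibre count: a set of colourings that does not depend on the colour of `v`; those for which
`c v` lies in a set of size at most `t` (not depending on `c v`) are at most a fraction `t/k`. -/
lemma fibre {k t : ℕ} (v : V) (T : Finset (V → Fin k)) (g : (V → Fin k) → Finset (Fin k))
    (hT : ∀ c a, c ∈ T → Function.update c v a ∈ T)
    (hg : ∀ c a, g (Function.update c v a) = g c) (ht : ∀ c, (g c).card ≤ t) :
    k * (T.filter (fun c => c v ∈ g c)).card ≤ t * T.card := by
  classical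
  -- count pairs (c, a) with c in the filtered set, a arbitrary
  have h1 : ((T.filter (fun c => c v ∈ g c)) ×ˢ (univ : Finset (Fin k))).card
      ≤ (T.sigma (fun c => g c)).card := by
    refine Finset.card_le_card_of_injOn
      (fun x => (⟨Function.update x.1 v x.2, x.1 v⟩ : Σ _ : V → Fin k, Fin k)) ?_ ?_
    · rintro ⟨c, a⟩ hx
      have hx' : c ∈ T.filter (fun c => c v ∈ g c) := by
        have := Finset.mem_coe.1 hx
        exact (Finset.mem_product.1 this).1
      obtain ⟨hc, hcg⟩ := Finset.mem_filter.1 hx'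
      have : (⟨Function.update c v a, c v⟩ : Σ _ : V → Fin k, Fin k) ∈ T.sigma (fun c => g c) := by
        rw [Finset.mem_sigma]
        exact ⟨hT c a hc, by simpa [hg] using hcg⟩
      exact Finset.mem_coe.2 this
    · rintro ⟨c, a⟩ _ ⟨c', a'⟩ _ he
      simp only [Sigma.mk.injEq, heq_eq_eq] at he
      obtain ⟨h1, h2⟩ := he
      have ha : a = a' := by
        have := congrFun h1 v
        simpa using this
      have hc : c = c' := by
        funext u
        by_cases hu : u = v
        · subst hu; exact h2
        · have := congrFun h1 u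
          simpa [Function.update_of_ne hu] using this
      rw [ha, hc]
  rw [Finset.card_product, Finset.card_univ, Fintype.card_fin, Finset.card_sigma] at h1
  calc k * (T.filter (fun c => c v ∈ g c)).card
      = (T.filter (fun c => c v ∈ g c)).card * k := by ring
    _ ≤ ∑ c ∈ T, (g c).card := h1
    _ ≤ ∑ _c ∈ T, t := Finset.sum_le_sum (fun c _ => ht c)
    _ = t * T.card := by rw [Finset.sum_const, smul_eq_mul]; ring

/-- Local lemma by counting: with dependency degree at most two and lists that are at least seven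
times the number of guesses, adding one more vertex loses at most a third of the colourings. -/
lemma lll_step {k t : ℕ} (hk : 0 < k) (hkt : 27 * t ≤ 4 * k) (S0 : Finset V) (N : V → Finset V)
    (h : V → (V → Fin k) → Finset (Fin k))
    (hdep : ∀ v ∈ S0, ∀ c c' : V → Fin k, (∀ u ∈ N v, c u = c' u) → h v c = h v c')
    (hself : ∀ v, v ∉ N v) (hsymm : ∀ u ∈ S0, ∀ v ∈ S0, v ∈ N u → u ∈ N v)
    (hcard : ∀ v ∈ S0, (N v).card ≤ 2) (ht : ∀ v ∈ S0, ∀ c, (h v c).card ≤ t) :
    ∀ n : ℕ, ∀ S : Finset V, S.card = n → S ⊆ S0 → ∀ v ∈ S0, v ∉ S →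
      2 * (wrong k h S).card ≤ 3 * (wrong k h (insert v S)).card := by
  intro n
  induction n using Nat.strong_induction_on with
  | _ n ih =>
    intro S hSn hSS v hv hvS
    set S' := S \ N v with hS'
    have hS'S : S' ⊆ S := Finset.sdiff_subset
    -- going back from S' to S
    have hback : 4 * (wrong k h S').card ≤ 9 * (wrong k h S).card := by
      have hd : (S \ S').card ≤ 2 := by
        refine le_trans (Finset.card_le_card ?_) (hcard v hv)
        intro x hx
        rw [Finset.mem_sdiff] at hx
        by_contra hxN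
        exact hx.2 (by rw [hS', Finset.mem_sdiff]; exact ⟨hx.1, hxN⟩)
      have hSeq : S' ∪ (S \ S') = S := Finset.union_sdiff_of_subset hS'S
      have hcardS : S'.card + (S \ S').card = S.card := by
        rw [← Finset.card_union_of_disjoint Finset.disjoint_sdiff, hSeq]
      interval_cases hdc : (S \ S').card
      · have : S \ S' = ∅ := Finset.card_eq_zero.1 hdc
        have hSS' : S' = S := by rw [← hSeq, this, Finset.union_empty]
        rw [hSS']; omega
      · obtain ⟨a, ha⟩ := Finset.card_eq_one.1 hdc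
        have haS : a ∈ S \ S' := by rw [ha]; exact Finset.mem_singleton_self a
        have haS1 := (Finset.mem_sdiff.1 haS).1
        have haS2 := (Finset.mem_sdiff.1 haS).2
        have h1 := ih S'.card (by omega) S' rfl (hS'S.trans hSS) a (hSS haS1) haS2
        have h2 : insert a S' = S := by
          rw [← hSeq, ha, Finset.union_comm, Finset.singleton_union]
        rw [h2] at h1
        omega
      · obtain ⟨a, b, hab, hd2⟩ := Finset.card_eq_two.1 hdc
        have haS : a ∈ S \ S' := by rw [hd2]; simp
        have hbS : b ∈ S \ S' := by rw [hd2]; simp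
        have haS1 := (Finset.mem_sdiff.1 haS).1
        have haS2 := (Finset.mem_sdiff.1 haS).2
        have hbS1 := (Finset.mem_sdiff.1 hbS).1
        have hbS2 := (Finset.mem_sdiff.1 hbS).2
        have h1 := ih S'.card (by omega) S' rfl (hS'S.trans hSS) a (hSS haS1) haS2
        have hins : insert a S' ⊆ S := Finset.insert_subset haS1 hS'S
        have hci : (insert a S').card = S'.card + 1 := Finset.card_insert_of_notMem haS2
        have h3 := ih (insert a S').card (by omega) (insert a S') rfl (hins.trans hSS) b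
          (hSS hbS1) (by
            rw [Finset.mem_insert]
            rintro (h | h)
            · exact hab h.symm
            · exact hbS2 h)
        have h2 : insert b (insert a S') = S := by
          rw [← hSeq, hd2]
          ext x
          simp only [Finset.mem_insert, Finset.mem_union, Finset.mem_singleton]
          tauto
        rw [h2] at h3
        omega
    -- the colourings lost
    have hlost : (wrong k h S).card ≤ (wrong k h (insert v S)).card +
        ((wrong k h S').filter (fun c => c v ∈ h v c)).card := by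
      refine le_trans (Finset.card_le_card ?_) (Finset.card_union_le _ _)
      intro c hc
      rw [Finset.mem_union, Finset.mem_filter, mem_wrong, mem_wrong]
      rw [mem_wrong] at hc
      by_cases hcv : c v ∈ h v c
      · exact Or.inr ⟨fun u hu => hc u (hS'S hu), hcv⟩
      · refine Or.inl (fun u hu => ?_)
        rcases Finset.mem_insert.1 hu with rfl | hu
        · exact hcv
        · exact hc u hu
    have hfib := fibre (t := t) v (wrong k h S') (h v) (by
        intro c a hc
        rw [mem_wrong] at hc ⊢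
        intro u hu
        have huS : u ∈ S0 := hSS (hS'S hu)
        have huv : u ≠ v := by
          rintro rfl
          exact hvS (hS'S hu)
        have hvu : v ∉ N u := by
          intro hh
          have := hsymm u huS v hv hh
          rw [hS', Finset.mem_sdiff] at hu
          exact hu.2 this
        rw [Function.update_of_ne huv, hdep u huS (Function.update c v a) c]
        · exact hc u hu
        · intro w hw
          rw [Function.update_of_ne]
          rintro rfl
          exact hvu hw) (by
        intro c a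
        apply hdep v hv
        intro w hw
        rw [Function.update_of_ne]
        rintro rfl
        exact hself _ hw) (ht v hv)
    set b := ((wrong k h S').filter (fun c => c v ∈ h v c)).card
    set A := (wrong k h S).card
    set B := (wrong k h S').card
    have h3 : 3 * b ≤ A := by
      have e1 : 4 * (k * b) ≤ t * (9 * A) := by
        calc 4 * (k * b) ≤ 4 * (t * B) := Nat.mul_le_mul_left _ hfib
          _ = t * (4 * B) := by ring
          _ ≤ t * (9 * A) := Nat.mul_le_mul_left _ hback
      have e2 : (4 * k) * (3 * b) ≤ (4 * k) * A := by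
        calc (4 * k) * (3 * b) = 3 * (4 * (k * b)) := by ring
          _ ≤ 3 * (t * (9 * A)) := Nat.mul_le_mul_left _ e1
          _ = (27 * t) * A := by ring
          _ ≤ (4 * k) * A := Nat.mul_le_mul_right _ hkt
      exact Nat.le_of_mul_le_mul_left e2 (by omega)
    omega

lemma lll {k t : ℕ} (hk : 0 < k) (hkt : 27 * t ≤ 4 * k) (S0 : Finset V) (N : V → Finset V)
    (h : V → (V → Fin k) → Finset (Fin k))
    (hdep : ∀ v ∈ S0, ∀ c c' : V → Fin k, (∀ u ∈ N v, c u = c' u) → h v c = h v c')
    (hself : ∀ v, v ∉ N v) (hsymm : ∀ u ∈ S0, ∀ v ∈ S0, v ∈ N u → u ∈ N v)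
    (hcard : ∀ v ∈ S0, (N v).card ≤ 2) (ht : ∀ v ∈ S0, ∀ c, (h v c).card ≤ t) :
    ∃ c : V → Fin k, ∀ v ∈ S0, c v ∉ h v c := by
  have key : ∀ S : Finset V, S ⊆ S0 → 0 < (wrong k h S).card := by
    intro S
    induction S using Finset.induction_on with
    | empty =>
      intro _
      have : wrong k h ∅ = univ := by
        ext c
        simp [wrong]
      rw [this, Finset.card_univ, Fintype.card_fun, Fintype.card_fin]
      exact pow_pos hk _
    | insert v S hv ih =>
      intro hS
      have h1 := ih ((Finset.subset_insert v S).trans hS)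
      have h2 := lll_step hk hkt S0 N h hdep hself hsymm hcard ht S.card S rfl
        ((Finset.subset_insert v S).trans hS) v (hS (Finset.mem_insert_self v S)) hv
      omega
  obtain ⟨c, hc⟩ := Finset.card_pos.1 (key S0 (Finset.Subset.refl S0))
  exact ⟨c, mem_wrong.1 hc⟩

end LLL

section Cover

variable {V : Type} [DecidableEq V]

/-- In a family `X` of intervals there is a subfamily `Y` with the same union such that every
member of `X` meets at most three members of `Y`. -/
lemma exists_cover (l r : V → ℕ) (X : Finset V) :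
    ∃ Y : Finset V, Y ⊆ X ∧
      (∀ t, (∃ x ∈ X, l x ≤ t ∧ t ≤ r x) → ∃ y ∈ Y, l y ≤ t ∧ t ≤ r y) ∧
      ∀ x ∈ X, (Y.filter (fun y => l x ≤ r y ∧ l y ≤ r x)).card ≤ 3 := by
  classical
  set P : Finset V → Prop := fun Y =>
    ∀ t, (∃ x ∈ X, l x ≤ t ∧ t ≤ r x) → ∃ y ∈ Y, l y ≤ t ∧ t ≤ r y with hP
  have hne : (X.powerset.filter P).Nonempty :=
    ⟨X, by rw [Finset.mem_filter]; exact ⟨Finset.mem_powerset_self X, fun t ht => ht⟩⟩
  obtain ⟨Y, hY, hmin⟩ := Finset.exists_min_image (X.powerset.filter P) Finset.card hne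
  rw [Finset.mem_filter, Finset.mem_powerset] at hY
  obtain ⟨hYX, hYP⟩ := hY
  refine ⟨Y, hYX, hYP, ?_⟩
  intro x hx
  by_contra hcon
  rw [not_le] at hcon
  set M := Y.filter (fun y => l x ≤ r y ∧ l y ≤ r x) with hM
  have hMne : M.Nonempty := Finset.card_pos.1 (by omega)
  obtain ⟨a, ha, hamin⟩ := Finset.exists_min_image M l hMne
  obtain ⟨b, hb, hbmax⟩ := Finset.exists_max_image M r hMne
  have ha' := Finset.mem_filter.1 ha
  have hb' := Finset.mem_filter.1 hb
  set Z := (Y \ M) ∪ {a, x, b} with hZ
  have hMY : M ⊆ Y := Finset.filter_subset _ _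
  have hZX : Z ⊆ X := by
    intro z hz
    rw [hZ, Finset.mem_union, Finset.mem_sdiff] at hz
    rcases hz with hz | hz
    · exact hYX hz.1
    · simp only [Finset.mem_insert, Finset.mem_singleton] at hz
      rcases hz with rfl | rfl | rfl
      · exact hYX ha'.1
      · exact hx
      · exact hYX hb'.1
  have hZP : P Z := by
    intro t ht
    obtain ⟨y, hy, hyt⟩ := hYP t ht
    by_cases hyM : y ∈ M
    · have h1 := hamin y hyM
      have h2 := hbmax y hyM
      by_cases hta : t ≤ r a
      · exact ⟨a, by rw [hZ]; simp, by omega, hta⟩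
      · by_cases htx : t ≤ r x
        · exact ⟨x, by rw [hZ]; simp, by omega, htx⟩
        · exact ⟨b, by rw [hZ]; simp, by omega, by omega⟩
    · exact ⟨y, by rw [hZ, Finset.mem_union, Finset.mem_sdiff]; exact Or.inl ⟨hy, hyM⟩, hyt⟩
  have h1 := hmin Z (by rw [Finset.mem_filter, Finset.mem_powerset]; exact ⟨hZX, hZP⟩)
  have h2 : Z.card ≤ (Y \ M).card + 3 :=
    le_trans (Finset.card_union_le _ _) (Nat.add_le_add_left Finset.card_le_three _)
  have h3 : (Y \ M).card + M.card = Y.card := Finset.card_sdiff_add_card_eq_card hMY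
  omega

end Cover

section Induct

variable {V : Type} [Fintype V] [DecidableEq V]

/-- The players in `X` lose the game with palette size `K` and `s` guesses each, when every player
sees the players of `X` whose interval meets his own. -/
def Loses (l r : V → ℕ) (X : Finset V) (s K : ℕ) : Prop :=
  ∀ g : V → (V → ℕ) → Finset ℕ,
    (∀ v ∈ X, ∀ c c' : V → ℕ,
      (∀ u ∈ X, u ≠ v → (l v ≤ r u ∧ l u ≤ r v) → c u = c' u) → g v c = g v c') →
    (∀ v ∈ X, ∀ c, (g v c).card ≤ s) →
    ∃ c : V → ℕ, (∀ v, c v < K) ∧ ∀ v ∈ X, c v ∉ g v c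

omit [Fintype V] [DecidableEq V] in
lemma Loses.mono {l r : V → ℕ} {X : Finset V} {s K K' : ℕ} (h : Loses l r X s K) (hK : K ≤ K') :
    Loses l r X s K' := by
  intro g hg hs
  obtain ⟨c, hc, hc'⟩ := h g hg hs
  exact ⟨c, fun v => lt_of_lt_of_le (hc v) hK, hc'⟩

omit [Fintype V] [DecidableEq V] in
lemma Loses.empty (l r : V → ℕ) (s : ℕ) : Loses l r (∅ : Finset V) s 1 := by
  intro g _ _
  exact ⟨fun _ => 0, fun _ => Nat.zero_lt_one, fun v hv => absurd hv (Finset.notMem_empty v)⟩

lemma Loses.step {l r : V → ℕ} (hlr : ∀ v, l v ≤ r v) {X Y : Finset V} (hYX : Y ⊆ X)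
    (hY : ∀ x ∈ X, (Y.filter (fun y => l x ≤ r y ∧ l y ≤ r x)).card ≤ 3) {s K : ℕ} (hs : 1 ≤ s)
    (hA : Loses l r (X \ Y) (s * (7 * s) ^ 3) K) : Loses l r X s (max (7 * s) K) := by
  intro g hg hgs
  -- the colours of the members of `Y` that `v` sees
  set F : V → Finset (V → ℕ) := fun v => Fintype.piFinset (fun u =>
    if u ∈ Y.filter (fun y => l v ≤ r y ∧ l y ≤ r v) then Finset.range (7 * s) else {0}) with hF
  set mg : (V → ℕ) → (V → ℕ) → (V → ℕ) := fun a b u => if u ∈ Y then b u else a u with hmg
  have hFcard : ∀ v ∈ X, (F v).card ≤ (7 * s) ^ 3 := by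
    intro v hv
    rw [hF, Fintype.card_piFinset]
    have : ∀ u : V, (if u ∈ Y.filter (fun y => l v ≤ r y ∧ l y ≤ r v) then
        Finset.range (7 * s) else ({0} : Finset ℕ)).card =
        if u ∈ Y.filter (fun y => l v ≤ r y ∧ l y ≤ r v) then 7 * s else 1 := by
      intro u
      split_ifs
      · exact Finset.card_range _
      · exact Finset.card_singleton _
    simp_rw [this]
    rw [Finset.prod_ite, Finset.prod_const, Finset.prod_const_one, mul_one]
    refine Nat.pow_le_pow_right (by omega) (le_trans (Finset.card_le_card ?_) (hY v hv))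
    intro u hu
    exact (Finset.mem_filter.1 hu).2
  obtain ⟨a, haK, ha⟩ := hA (fun v a => (F v).biUnion (fun b => g v (mg a b)))
    (by
      intro v hv c c' hcc
      rw [Finset.mem_sdiff] at hv
      refine Finset.biUnion_congr rfl (fun b _ => hg v hv.1 _ _ ?_)
      intro u hu huv hmeet
      simp only [hmg]
      split_ifs with huY
      · rfl
      · exact hcc u (Finset.mem_sdiff.2 ⟨hu, huY⟩) huv hmeet)
    (by
      intro v hv c
      rw [Finset.mem_sdiff] at hv
      calc ((F v).biUnion (fun b => g v (mg c b))).card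
          ≤ ∑ b ∈ F v, (g v (mg c b)).card := Finset.card_biUnion_le
        _ ≤ ∑ _b ∈ F v, s := Finset.sum_le_sum (fun b _ => hgs v hv.1 _)
        _ = (F v).card * s := by rw [Finset.sum_const, smul_eq_mul]
        _ ≤ (7 * s) ^ 3 * s := Nat.mul_le_mul_right _ (hFcard v hv.1)
        _ = s * (7 * s) ^ 3 := by ring)
  obtain ⟨c, hc⟩ := lll (k := 7 * s) (t := s) (by omega) (by omega) Y
    (fun v => Y.filter (fun y => y ≠ v ∧ l v ≤ r y ∧ l y ≤ r v))
    (fun v c => Finset.univ.filter (fun i : Fin (7 * s) =>
      (i : ℕ) ∈ g v (mg a (fun u => (c u : ℕ)))))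
    (by
      intro v hv c c' hcc
      have : g v (mg a (fun u => (c u : ℕ))) = g v (mg a (fun u => (c' u : ℕ))) := by
        refine hg v (hYX hv) _ _ ?_
        intro u hu huv hmeet
        simp only [hmg]
        split_ifs with huY
        · rw [hcc u (Finset.mem_filter.2 ⟨huY, huv, hmeet⟩)]
        · rfl
      simp only [this])
    (by
      intro v hv
      exact (Finset.mem_filter.1 hv).2.1 rfl)
    (by
      intro u hu v hv hvu
      have := (Finset.mem_filter.1 hvu).2
      exact Finset.mem_filter.2 ⟨hu, fun h => this.1 h.symm, this.2.2, this.2.1⟩)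
    (by
      intro v hv
      have h1 : (Y.filter (fun y => y ≠ v ∧ l v ≤ r y ∧ l y ≤ r v)) ⊆
          (Y.filter (fun y => l v ≤ r y ∧ l y ≤ r v)).erase v := by
        intro u hu
        have := Finset.mem_filter.1 hu
        exact Finset.mem_erase.2 ⟨this.2.1, Finset.mem_filter.2 ⟨this.1, this.2.2⟩⟩
      have h2 := Finset.card_le_card h1
      have h3 : v ∈ Y.filter (fun y => l v ≤ r y ∧ l y ≤ r v) :=
        Finset.mem_filter.2 ⟨hv, hlr v, hlr v⟩
      rw [Finset.card_erase_of_mem h3] at h2
      have h4 := hY v (hYX hv)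
      show (Y.filter (fun y => y ≠ v ∧ l v ≤ r y ∧ l y ≤ r v)).card ≤ 2
      omega)
    (by
      intro v hv c
      refine le_trans ?_ (hgs v (hYX hv) (mg a (fun u => (c u : ℕ))))
      refine Finset.card_le_card_of_injOn (fun i : Fin (7 * s) => (i : ℕ)) ?_ ?_
      · intro i hi
        exact Finset.mem_coe.2 (Finset.mem_filter.1 (Finset.mem_coe.1 hi)).2
      · intro i _ j _ hij
        exact Fin.ext hij)
  refine ⟨mg a (fun u => (c u : ℕ)), ?_, ?_⟩
  · intro v
    simp only [hmg]
    split_ifs
    · exact lt_of_lt_of_le (c v).2 (le_max_left _ _)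
    · exact lt_of_lt_of_le (haK v) (le_max_right _ _)
  · intro v hv
    by_cases hvY : v ∈ Y
    · have h1 := hc v hvY
      intro h2
      apply h1
      rw [Finset.mem_filter]
      refine ⟨Finset.mem_univ _, ?_⟩
      have h3 : mg a (fun u => (c u : ℕ)) v = (c v : ℕ) := by
        simp only [hmg]
        rw [if_pos hvY]
      rw [h3] at h2
      exact h2
    · have h1 := ha v (Finset.mem_sdiff.2 ⟨hv, hvY⟩)
      intro h2
      apply h1
      rw [Finset.mem_biUnion]
      refine ⟨fun u => if u ∈ Y.filter (fun y => l v ≤ r y ∧ l y ≤ r v) then (c u : ℕ) else 0,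
        ?_, ?_⟩
      · rw [hF, Fintype.mem_piFinset]
        intro u
        split_ifs
        · exact Finset.mem_range.2 (c u).2
        · exact Finset.mem_singleton_self 0
      · have h3 : mg a (fun u => (c u : ℕ)) v = a v := by
          simp only [hmg]
          rw [if_neg hvY]
        rw [h3] at h2
        have h4 : g v (mg a (fun u => if u ∈ Y.filter (fun y => l v ≤ r y ∧ l y ≤ r v) then
            (c u : ℕ) else 0)) = g v (mg a (fun u => (c u : ℕ))) := by
          refine hg v hv _ _ ?_
          intro u hu huv hmeet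
          simp only [hmg]
          by_cases huY : u ∈ Y
          · rw [if_pos huY, if_pos huY, if_pos (Finset.mem_filter.2 ⟨huY, hmeet⟩)]
          · rw [if_neg huY, if_neg huY]
        rw [h4]
        exact h2

/-- The induction on the multiplicity of the family of intervals. -/
lemma loses_of_mult {l r : V → ℕ} (hlr : ∀ v, l v ≤ r v) :
    ∀ (m : ℕ) (X : Finset V), (∀ t, (X.filter (fun x => l x ≤ t ∧ t ≤ r x)).card ≤ m + 1) →
      ∀ s, 1 ≤ s → Loses l r X s ((7 * s) ^ (4 ^ m)) := by
  have hdrop : ∀ (m : ℕ) (X Y : Finset V), Y ⊆ X →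
      (∀ t, (∃ x ∈ X, l x ≤ t ∧ t ≤ r x) → ∃ y ∈ Y, l y ≤ t ∧ t ≤ r y) →
      (∀ t, (X.filter (fun x => l x ≤ t ∧ t ≤ r x)).card ≤ m + 1) →
      ∀ t, ((X \ Y).filter (fun x => l x ≤ t ∧ t ≤ r x)).card ≤ m := by
    intro m X Y hYX hcov hX t
    rcases ((X \ Y).filter (fun x => l x ≤ t ∧ t ≤ r x)).eq_empty_or_nonempty with h | h
    · rw [h, Finset.card_empty]
      exact Nat.zero_le _
    · obtain ⟨x, hx⟩ := h
      obtain ⟨hx1, hx2⟩ := Finset.mem_filter.1 hx
      obtain ⟨y, hy, hy2⟩ := hcov t ⟨x, (Finset.mem_sdiff.1 hx1).1, hx2⟩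
      have hynot : y ∉ (X \ Y).filter (fun x => l x ≤ t ∧ t ≤ r x) := by
        intro hh
        exact (Finset.mem_sdiff.1 (Finset.mem_filter.1 hh).1).2 hy
      have hsub : insert y ((X \ Y).filter (fun x => l x ≤ t ∧ t ≤ r x)) ⊆
          X.filter (fun x => l x ≤ t ∧ t ≤ r x) := by
        intro z hz
        rcases Finset.mem_insert.1 hz with rfl | hz
        · exact Finset.mem_filter.2 ⟨hYX hy, hy2⟩
        · obtain ⟨hz1, hz2⟩ := Finset.mem_filter.1 hz
          exact Finset.mem_filter.2 ⟨(Finset.mem_sdiff.1 hz1).1, hz2⟩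
      have h1 := Finset.card_le_card hsub
      rw [Finset.card_insert_of_notMem hynot] at h1
      have h2 := hX t
      omega
  intro m
  induction m with
  | zero =>
    intro X hX s hs
    obtain ⟨Y, hYX, hcov, h3⟩ := exists_cover l r X
    have hd := hdrop 0 X Y hYX hcov hX
    have hempty : X \ Y = ∅ := by
      rw [Finset.eq_empty_iff_forall_notMem]
      intro x hx
      have h1 := hd (l x)
      have h2 : x ∈ (X \ Y).filter (fun y => l y ≤ l x ∧ l x ≤ r y) :=
        Finset.mem_filter.2 ⟨hx, le_refl _, hlr x⟩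
      have h4 := Finset.card_pos.2 ⟨x, h2⟩
      omega
    have := Loses.step (K := 1) hlr hYX h3 hs (by rw [hempty]; exact Loses.empty l r _)
    refine this.mono ?_
    rw [pow_zero, pow_one]
    exact max_le (le_refl _) (by omega)
  | succ m ih =>
    intro X hX s hs
    obtain ⟨Y, hYX, hcov, h3⟩ := exists_cover l r X
    have hd := hdrop (m + 1) X Y hYX hcov hX
    have h1 := ih (X \ Y) hd (s * (7 * s) ^ 3) (by
      have : 1 ≤ (7 * s) ^ 3 := Nat.one_le_pow _ _ (by omega)
      nlinarith)
    have := Loses.step hlr hYX h3 hs h1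
    refine this.mono (max_le ?_ ?_)
    · calc 7 * s = (7 * s) ^ 1 := (pow_one _).symm
        _ ≤ (7 * s) ^ (4 ^ (m + 1)) :=
          Nat.pow_le_pow_right (by omega) (Nat.one_le_pow _ _ (by norm_num))
    · apply le_of_eq
      have : 7 * (s * (7 * s) ^ 3) = (7 * s) ^ 4 := by ring
      rw [this, ← pow_mul, pow_succ' 4 m]

end Induct

/-- The hat guessing number of a graph of pathwidth at most `p` is less than `7 ^ (4 ^ p)`. -/
theorem hat_lt (p : ℕ) {V : Type} [Fintype V] (G : SimpleGraph V) (hG : PathwidthLE p G)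
    (q : ℕ) (s : V → (V → Fin q) → Fin q) (hs : IsWinning G q s) : q < 7 ^ (4 ^ p) := by
  classical
  obtain ⟨l, r, hlr, hadj, hcard⟩ := hG
  by_contra hq
  rw [not_lt] at hq
  have hq0 : 0 < q := lt_of_lt_of_le (pow_pos (by norm_num) _) hq
  have hmult : ∀ t, ((Finset.univ : Finset V).filter (fun x => l x ≤ t ∧ t ≤ r x)).card ≤ p + 1 := by
    intro t
    have := hcard t
    rwa [Set.ncard_eq_toFinset_card', Set.toFinset_ofPred] at this
  have hL := loses_of_mult hlr p Finset.univ hmult 1 (le_refl 1)
  obtain ⟨c, hc, hc'⟩ := hL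
    (fun v c => {((s v (fun u => ⟨c u % q, Nat.mod_lt _ hq0⟩) : Fin q) : ℕ)})
    (by
      intro v _ c c' hcc
      have : s v (fun u => ⟨c u % q, Nat.mod_lt _ hq0⟩) =
          s v (fun u => ⟨c' u % q, Nat.mod_lt _ hq0⟩) := by
        apply hs.1
        intro w hw
        obtain ⟨t, h1, h2, h3, h4⟩ := hadj v w hw
        have hwv : w ≠ v := fun h => G.ne_of_adj hw h.symm
        have := hcc w (Finset.mem_univ w) hwv ⟨by omega, by omega⟩
        simp only [this]
      simp only [this])
    (by
      intro v _ c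
      exact le_of_eq (Finset.card_singleton _))
  have hcq : ∀ u, c u < q := fun u => lt_of_lt_of_le (hc u) (by simpa using hq)
  obtain ⟨v, hv⟩ := hs.2 (fun u => ⟨c u % q, Nat.mod_lt _ hq0⟩)
  apply hc' v (Finset.mem_univ v)
  rw [Finset.mem_singleton, hv]
  exact (Nat.mod_eq_of_lt (hcq v)).symm

end PW

end Pool.Agent.Lib.MP_994fee_co
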