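import Mathlib
import Pool.Agent.Lib.MP_994fee_co.Defs
import Pool.Agent.Lib.MP_994fee_co.Pathwidth

/-!
# The hat guessing number is bounded on tree-like graphs
-/

set_option autoImplicit false

namespace Pool.Agent.Lib.MP_994fee_co

open Finset

/-- `G` is tree-like with parameter `n`: the vertices are distributed to blocks `1, 2, 3, ...` of
at most `n` vertices each (`β v` is the block of `v`), every block `i` has a parent `π i < i`
(`π i = 0` for a block without parent), every block has a rank `ρ i < n`, every edge joins two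
vertices of the same block, or of a block and its parent, or of two blocks with the same parent
and different ranks, and every block has at most `n` neighbouring blocks with the same parent and
smaller rank. -/
def TreeLike {V : Type} (n : ℕ) (G : SimpleGraph V) : Prop :=
  ∃ (β : V → ℕ) (π ρ : ℕ → ℕ),
    (∀ v, 0 < β v) ∧ (∀ i, 0 < i → π i < i) ∧ (∀ i, ρ i < n) ∧
    (∀ i, {v | β v = i}.ncard ≤ n) ∧
    (∀ v w, G.Adj v w → β v = β w ∨ π (β v) = β w ∨ π (β w) = β v ∨
      (π (β v) = π (β w) ∧ ρ (β v) ≠ ρ (β w))) ∧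
    ∀ i, {j | π j = π i ∧ ρ j < ρ i ∧ ∃ v w, G.Adj v w ∧ β v = i ∧ β w = j}.ncard ≤ n

/-- `G` is layered with parameter `n`: the vertices have levels below `n`, every vertex has at most
`n` neighbours of smaller level, and every level induces a tree-like graph with parameter `n`. -/
def Layered {V : Type} (n : ℕ) (G : SimpleGraph V) : Prop :=
  ∃ lev : V → ℕ, (∀ v, lev v < n) ∧ (∀ v, {w | G.Adj v w ∧ lev w < lev v}.ncard ≤ n) ∧
    ∀ i, TreeLike n (G.induce {v | lev v = i})

namespace TL

/-! ### Ramsey theorem for boxes -/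

lemma boxRamsey (M L : ℕ) (hL : 1 ≤ L) : ∀ t : ℕ, ∃ L' : ℕ, 1 ≤ L' ∧
    ∀ {V : Type} [DecidableEq V] (B : Finset V), B.card ≤ t →
    ∀ {ι : Type} [Fintype ι], Fintype.card ι ≤ M → ∀ χ : (V → Fin L') → ι,
      (∀ y y' : V → Fin L', (∀ v ∈ B, y v = y' v) → χ y = χ y') →
      ∃ (η : V → Fin L → Fin L') (k : ι), (∀ v, Function.Injective (η v)) ∧
        ∀ x : V → Fin L, χ (fun v => η v (x v)) = k := by
  intro t
  induction t with
  | zero =>
    refine ⟨L, hL, ?_⟩
    intro V _ B hB ι _ _ χ hχ
    have hB' : B = ∅ := Finset.card_eq_zero.1 (Nat.le_zero.1 hB)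
    refine ⟨fun _ j => j, χ (fun _ => ⟨0, hL⟩), fun _ => Function.injective_id, ?_⟩
    intro x
    apply hχ
    intro v hv
    rw [hB'] at hv
    exact absurd hv (Finset.notMem_empty v)
  | succ t ih =>
    obtain ⟨L₁, hL₁, ih⟩ := ih
    set L' := max L (max L₁ (L * M ^ (L₁ ^ t))) with hL'
    have h0 : L ≤ L' := le_max_left _ _
    have h1 : L₁ ≤ L' := le_trans (le_max_left _ _) (le_max_right _ _)
    have h2 : L * M ^ (L₁ ^ t) ≤ L' := le_trans (le_max_right _ _) (le_max_right _ _)
    have hL'1 : 1 ≤ L' := le_trans hL₁ h1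
    refine ⟨L', hL'1, ?_⟩
    intro V _ B hB ι _ hι χ hχ
    classical
    by_cases hBe : B = ∅
    · refine ⟨fun _ j => Fin.castLE h0 j, χ (fun _ => ⟨0, hL'1⟩), fun _ =>
        Fin.castLE_injective h0, ?_⟩
      intro x
      apply hχ
      intro v hv
      rw [hBe] at hv
      exact absurd hv (Finset.notMem_empty v)
    · obtain ⟨a, ha⟩ := Finset.nonempty_iff_ne_empty.2 hBe
      set B' := B.erase a with hB'
      have hB'c : B'.card ≤ t := by
        rw [hB', Finset.card_erase_of_mem ha]
        omega
      have haB' : a ∉ B' := Finset.notMem_erase a B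
      -- the colourings of the other coordinates
      let Φ : Fin L' → ((B' → Fin L₁) → ι) := fun y z =>
        χ (fun v => if v = a then y else if h : v ∈ B' then Fin.castLE h1 (z ⟨v, h⟩)
          else ⟨0, hL'1⟩)
      have hM : 1 ≤ M := le_trans (Fintype.card_pos_iff.2 ⟨χ (fun _ => ⟨0, hL'1⟩)⟩) hι
      have hcard : Fintype.card ((B' → Fin L₁) → ι) ≤ M ^ (L₁ ^ t) := by
        rw [Fintype.card_fun, Fintype.card_fun, Fintype.card_fin, Fintype.card_coe]
        calc Fintype.card ι ^ L₁ ^ B'.card ≤ M ^ L₁ ^ B'.card := Nat.pow_le_pow_left hι _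
          _ ≤ M ^ L₁ ^ t := Nat.pow_le_pow_right hM (Nat.pow_le_pow_right hL₁ hB'c)
      have : Nonempty ((B' → Fin L₁) → ι) := ⟨Φ ⟨0, hL'1⟩⟩
      obtain ⟨Φ0, hΦ0⟩ := Fintype.exists_le_card_fiber_of_mul_le_card (f := Φ) (n := L) (by
        rw [Fintype.card_fin]
        calc Fintype.card ((B' → Fin L₁) → ι) * L ≤ M ^ (L₁ ^ t) * L :=
              Nat.mul_le_mul_right _ hcard
          _ = L * M ^ (L₁ ^ t) := mul_comm _ _
          _ ≤ L' := h2)
      obtain ⟨Y, hYsub, hYcard⟩ := Finset.exists_subset_card_eq hΦ0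
      let ηa : Fin L → Fin L' := fun j => Y.orderEmbOfFin hYcard j
      have hηa : Function.Injective ηa := (Y.orderEmbOfFin hYcard).injective
      have hηΦ : ∀ j, Φ (ηa j) = Φ0 := by
        intro j
        have h3 : ηa j ∈ Y := Finset.orderEmbOfFin_mem Y hYcard j
        exact (Finset.mem_filter.1 (hYsub h3)).2
      let χ' : (V → Fin L₁) → ι := fun y =>
        χ (fun v => if v = a then ηa ⟨0, hL⟩ else Fin.castLE h1 (y v))
      obtain ⟨η', k, hη', hk⟩ := ih B' hB'c hι χ' (by
        intro y y' hyy
        apply hχ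
        intro v hv
        by_cases hva : v = a
        · simp only [hva, if_true]
        · simp only [hva, if_false]
          rw [hyy v (Finset.mem_erase.2 ⟨hva, hv⟩)])
      refine ⟨fun v j => if v = a then ηa j else Fin.castLE h1 (η' v j), k, ?_, ?_⟩
      · intro v j j' hjj
        by_cases hva : v = a
        · simp only [hva, if_true] at hjj
          exact hηa hjj
        · simp only [hva, if_false] at hjj
          exact hη' v (Fin.castLE_injective h1 hjj)
      · intro x
        have e1 : χ (fun v => if v = a then ηa (x v) else Fin.castLE h1 (η' v (x v))) =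
            Φ (ηa (x a)) (fun v => η' v (x v)) := by
          apply hχ
          intro v hv
          by_cases hva : v = a
          · simp only [hva, if_true]
          · have hvB : v ∈ B' := Finset.mem_erase.2 ⟨hva, hv⟩
            simp only [hva, if_false, hvB, dif_pos]
        have e2 : χ' (fun v => η' v (x v)) = Φ (ηa ⟨0, hL⟩) (fun v => η' v (x v)) := by
          apply hχ
          intro v hv
          by_cases hva : v = a
          · simp only [hva, if_true]
          · have hvB : v ∈ B' := Finset.mem_erase.2 ⟨hva, hv⟩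
            simp only [hva, if_false, hvB, dif_pos]
        rw [e1, hηΦ, ← hηΦ ⟨0, hL⟩, ← e2]
        exact hk x

/-- `P` contains no box with sides of length `L` and entries below `q`. -/
def BoxFree {V : Type} (q L : ℕ) (P : (V → ℕ) → Prop) : Prop :=
  ∀ σ : V → Fin L → ℕ, (∀ v, Function.Injective (σ v)) → (∀ v j, σ v j < q) →
    ∃ x : V → Fin L, ¬ P (fun v => σ v (x v))

/-- A bounded union of box-free properties is box-free for longer boxes. -/
lemma boxFree_union (t M L : ℕ) (hL : 1 ≤ L) : ∃ L' : ℕ, 1 ≤ L' ∧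
    ∀ {V : Type} [DecidableEq V] (q : ℕ) (B : Finset V), B.card ≤ t →
    ∀ {ι : Type} [Fintype ι], Fintype.card ι ≤ M → ∀ P : ι → (V → ℕ) → Prop,
      (∀ k a a', (∀ v ∈ B, a v = a' v) → P k a → P k a') →
      (∀ k, BoxFree q L (P k)) → BoxFree q L' (fun a => ∃ k, P k a) := by
  obtain ⟨L', hL', hR⟩ := boxRamsey M L hL t
  refine ⟨L', hL', ?_⟩
  intro V _ q B hB ι _ hι P hdep hfree τ hτ hτq
  by_contra hcon
  push Not at hcon
  classical
  let z : (V → Fin L') → (V → Fin L') := fun y v => if v ∈ B then y v else ⟨0, hL'⟩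
  let χ : (V → Fin L') → ι := fun y => Classical.choose (hcon (z y))
  have hχ : ∀ y, P (χ y) (fun v => τ v (y v)) := by
    intro y
    refine hdep _ _ _ ?_ (Classical.choose_spec (hcon (z y)))
    intro v hv
    simp only [z, if_pos hv]
  obtain ⟨η, k, hη, hk⟩ := hR B hB hι χ (by
    intro y y' hyy
    have : z y = z y' := by
      funext v
      simp only [z]
      split_ifs with h
      · exact hyy v h
      · rfl
    simp only [χ, this])
  obtain ⟨x, hx⟩ := hfree k (fun v j => τ v (η v j)) (fun v j j' h => hη v (hτ v h))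
    (fun v j => hτq v _)
  apply hx
  have := hχ (fun v => η v (x v))
  rw [hk x] at this
  exact this

/-! ### The game of the siblings -/

/-- Change the colouring `κ` on the set `W` to the values given by `k`. -/
def ovr {V : Type} [DecidableEq V] {L : ℕ} (W : Finset V) (κ : V → ℕ) (k : W → Fin L) : V → ℕ :=
  fun v => if h : v ∈ W then (k ⟨v, h⟩ : ℕ) else κ v

/-- Blocks with ranks below `m`, where a block has at most `b` neighbours of smaller rank and none
of the same rank, and where the forbidden colourings `F z κ` of the block `z` are box-free: there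
is a colouring `κ` which is forbidden at no block. -/
lemma siblings (t b : ℕ) : ∀ m L : ℕ, 1 ≤ L → ∃ Q : ℕ, ∀ q : ℕ, Q ≤ q →
    ∀ {V : Type} [Fintype V] [DecidableEq V] (β : V → ℕ) (C : Finset ℕ) (ρ : ℕ → ℕ)
      (R : ℕ → ℕ → Prop) (F : ℕ → (V → ℕ) → (V → ℕ) → Prop),
      (∀ z ∈ C, ρ z < m) → (∀ z ∈ C, ∀ z' ∈ C, R z z' → ρ z ≠ ρ z') →
      (∀ z ∈ C, ∀ S : Finset ℕ, S ⊆ C → (∀ z' ∈ S, R z z' ∧ ρ z' < ρ z) → S.card ≤ b) →
      (∀ z, ((Finset.univ : Finset V).filter (fun v => β v = z)).card ≤ t) →
      (∀ z ∈ C, ∀ κ κ' a, (∀ v, β v ∈ C → R z (β v) → κ v = κ' v) → F z κ a → F z κ' a) →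
      (∀ z ∈ C, ∀ κ a a', (∀ v, β v = z → a v = a' v) → F z κ a → F z κ a') →
      (∀ z ∈ C, ∀ κ, BoxFree q L (F z κ)) →
      ∃ κ : V → ℕ, ∀ z ∈ C, ¬ F z κ κ := by
  intro m
  induction m with
  | zero =>
    intro L _
    refine ⟨0, ?_⟩
    intro q _ V _ _ β C ρ R F h1 _ _ _ _ _ _
    exact ⟨fun _ => 0, fun z hz => absurd (h1 z hz) (Nat.not_lt_zero _)⟩
  | succ m ih =>
    intro L hL
    obtain ⟨L', hL', hU⟩ := boxFree_union t (L ^ (b * t)) L hL
    obtain ⟨Q, hQ⟩ := ih L' hL'
    refine ⟨max L Q, ?_⟩
    intro q hq V _ _ β C ρ R F h1 h2 h3 h4 h5 h6 h7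
    classical
    have hLq : L ≤ q := le_trans (le_max_left _ _) hq
    have hQq : Q ≤ q := le_trans (le_max_right _ _) hq
    -- the neighbours of rank zero
    let Z : ℕ → Finset ℕ := fun z => C.filter (fun z' => R z z' ∧ ρ z' = 0)
    let W : ℕ → Finset V := fun z => Finset.univ.filter (fun v => β v ∈ Z z)
    have hW : ∀ z ∈ C, ρ z ≠ 0 → (W z).card ≤ b * t := by
      intro z hz hρ
      have hZ : (Z z).card ≤ b := by
        apply h3 z hz
        · exact Finset.filter_subset _ _
        · intro z' hz'
          have := (Finset.mem_filter.1 hz').2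
          exact ⟨this.1, by omega⟩
      have hsub : W z ⊆ (Z z).biUnion (fun z' => Finset.univ.filter (fun v => β v = z')) := by
        intro v hv
        rw [Finset.mem_biUnion]
        exact ⟨β v, (Finset.mem_filter.1 hv).2, Finset.mem_filter.2 ⟨Finset.mem_univ _, rfl⟩⟩
      calc (W z).card ≤ ((Z z).biUnion (fun z' => Finset.univ.filter (fun v => β v = z'))).card :=
            Finset.card_le_card hsub
        _ ≤ ∑ z' ∈ Z z, (Finset.univ.filter (fun v => β v = z')).card := Finset.card_biUnion_le
        _ ≤ ∑ _z' ∈ Z z, t := Finset.sum_le_sum (fun z' _ => h4 z')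
        _ = (Z z).card * t := by rw [Finset.sum_const, smul_eq_mul]
        _ ≤ b * t := Nat.mul_le_mul_right _ hZ
    let A : Finset ℕ := C.filter (fun z => ρ z ≠ 0)
    have hAC : A ⊆ C := Finset.filter_subset _ _
    let F' : ℕ → (V → ℕ) → (V → ℕ) → Prop := fun z κ a =>
      ∃ k : W z → Fin L, F z (ovr (W z) κ k) a
    obtain ⟨κA, hκA⟩ := hQ q hQq β A (fun z => ρ z - 1) R F'
      (by
        intro z hz
        have := h1 z (hAC hz)
        have h0 := (Finset.mem_filter.1 hz).2
        show ρ z - 1 < m
        omega)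
      (by
        intro z hz z' hz' hR
        have := h2 z (hAC hz) z' (hAC hz') hR
        have h0 := (Finset.mem_filter.1 hz).2
        have h0' := (Finset.mem_filter.1 hz').2
        show ρ z - 1 ≠ ρ z' - 1
        omega)
      (by
        intro z hz S hS hSr
        apply h3 z (hAC hz) S (hS.trans hAC)
        intro z' hz'
        have := hSr z' hz'
        exact ⟨this.1, by omega⟩)
      h4
      (by
        intro z hz κ κ' a hκ hF
        obtain ⟨k, hk⟩ := hF
        refine ⟨k, h5 z (hAC hz) _ _ _ ?_ hk⟩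
        intro v hvC hR
        unfold ovr
        split_ifs with hvW
        · rfl
        · apply hκ v _ hR
          refine Finset.mem_filter.2 ⟨hvC, ?_⟩
          intro h0
          apply hvW
          exact Finset.mem_filter.2 ⟨Finset.mem_univ _, Finset.mem_filter.2 ⟨hvC, hR, h0⟩⟩)
      (by
        intro z hz κ a a' ha hF
        obtain ⟨k, hk⟩ := hF
        exact ⟨k, h6 z (hAC hz) _ _ _ ha hk⟩)
      (by
        intro z hz κ
        apply hU q (Finset.univ.filter (fun v => β v = z)) (h4 z)
        · rw [Fintype.card_fun, Fintype.card_fin, Fintype.card_coe]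
          exact Nat.pow_le_pow_right hL (hW z (hAC hz) (Finset.mem_filter.1 hz).2)
        · intro k a a' ha
          exact h6 z (hAC hz) _ a a' (fun v hv => ha v (Finset.mem_filter.2 ⟨Finset.mem_univ _, hv⟩))
        · intro k
          exact h7 z (hAC hz) _)
    -- the blocks of rank zero
    have hB : ∀ z, ∃ a : V → Fin L, z ∈ C → ¬ F z κA (fun v => (a v : ℕ)) := by
      intro z
      by_cases hz : z ∈ C
      · obtain ⟨x, hx⟩ := h7 z hz κA (fun _ j => (j : ℕ)) (fun _ j j' h => Fin.ext h)
          (fun _ j => lt_of_lt_of_le j.2 hLq)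
        exact ⟨x, fun _ => hx⟩
      · exact ⟨fun _ => ⟨0, hL⟩, fun h => absurd h hz⟩
    choose a ha using hB
    refine ⟨fun v => if β v ∈ C ∧ ρ (β v) = 0 then (a (β v) v : ℕ) else κA v, ?_⟩
    intro z hz hF
    by_cases hρ : ρ z = 0
    · apply ha z hz
      refine h6 z hz _ _ _ ?_ (h5 z hz _ _ _ ?_ hF)
      · intro v hv
        simp only [hv, hz, hρ, and_self, if_true]
      · intro v hvC hR
        have : ρ z ≠ ρ (β v) := h2 z hz _ hvC hR
        have h0 : ¬ (β v ∈ C ∧ ρ (β v) = 0) := by
          rintro ⟨_, h0⟩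
          omega
        simp only [h0, if_false]
    · have hzA : z ∈ A := Finset.mem_filter.2 ⟨hz, hρ⟩
      apply hκA z hzA
      refine ⟨fun v => a (β v) v, ?_⟩
      refine h6 z hz _ _ _ ?_ (h5 z hz _ _ _ ?_ hF)
      · intro v hv
        have h0 : ¬ (β v ∈ C ∧ ρ (β v) = 0) := by
          rintro ⟨_, h0⟩
          rw [hv] at h0
          exact hρ h0
        simp only [h0, if_false]
      · intro v hvC hR
        unfold ovr
        by_cases h0 : ρ (β v) = 0
        · have hvW : v ∈ W z :=
            Finset.mem_filter.2 ⟨Finset.mem_univ _, Finset.mem_filter.2 ⟨hvC, hR, h0⟩⟩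
          rw [dif_pos hvW, if_pos ⟨hvC, h0⟩]
        · have hvW : v ∉ W z := by
            intro hh
            exact h0 (Finset.mem_filter.1 (Finset.mem_filter.1 hh).2).2.2
          rw [dif_neg hvW, if_neg (fun hh => h0 hh.2)]

/-! ### Descendants -/

/-- `j` is a descendant of `i` (or `i` itself). -/
def Desc (π : ℕ → ℕ) (i j : ℕ) : Prop := ∃ k : ℕ, π^[k] j = i

lemma Desc.refl (π : ℕ → ℕ) (i : ℕ) : Desc π i i := ⟨0, rfl⟩

lemma Desc.of_parent {π : ℕ → ℕ} {i j : ℕ} (h : Desc π i (π j)) : Desc π i j := by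
  obtain ⟨k, hk⟩ := h
  exact ⟨k + 1, by rw [Function.iterate_succ_apply]; exact hk⟩

lemma Desc.parent {π : ℕ → ℕ} {i j : ℕ} (h : Desc π i j) (hij : j ≠ i) : Desc π i (π j) := by
  obtain ⟨k, hk⟩ := h
  cases k with
  | zero => exact absurd hk hij
  | succ k => exact ⟨k, by rw [Function.iterate_succ_apply] at hk; exact hk⟩

lemma Desc.up {π : ℕ → ℕ} {z j : ℕ} (h : Desc π z j) : Desc π (π z) j := by
  obtain ⟨k, hk⟩ := h
  exact ⟨k + 1, by rw [Function.iterate_succ_apply', hk]⟩

lemma Desc.le {π : ℕ → ℕ} (hπ : ∀ i, π i ≤ i) {i j : ℕ} (h : Desc π i j) : i ≤ j := by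
  obtain ⟨k, hk⟩ := h
  induction k generalizing j with
  | zero =>
    rw [Function.iterate_zero_apply] at hk
    omega
  | succ k ih =>
    rw [Function.iterate_succ_apply] at hk
    exact le_trans (ih hk) (hπ j)

lemma Desc.exists_child {π : ℕ → ℕ} (hπ : ∀ i, 0 < i → π i < i) (h0 : π 0 = 0) {i : ℕ} :
    ∀ j : ℕ, Desc π i j → j ≠ i → ∃ z, 0 < z ∧ π z = i ∧ Desc π z j := by
  intro j
  induction j using Nat.strong_induction_on with
  | _ j ih =>
    intro h hji
    have hj0 : 0 < j := by
      rcases Nat.eq_zero_or_pos j with hj | hj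
      · exfalso
        obtain ⟨k, hk⟩ := h
        rw [hj] at hk
        have : ∀ k : ℕ, π^[k] 0 = 0 := by
          intro k
          induction k with
          | zero => rfl
          | succ k ih => rw [Function.iterate_succ_apply, h0, ih]
        rw [this] at hk
        exact hji (by rw [hj, hk])
      · exact hj
    have h1 := h.parent hji
    by_cases h2 : π j = i
    · exact ⟨j, hj0, h2, Desc.refl π j⟩
    · obtain ⟨z, hz0, hz1, hz2⟩ := ih (π j) (hπ j hj0) h1 h2
      exact ⟨z, hz0, hz1, hz2.of_parent⟩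

lemma Desc.child_unique {π : ℕ → ℕ} (hπ : ∀ i, 0 < i → π i < i) (hπ' : ∀ i, π i ≤ i) {i j z z' : ℕ}
    (hz0 : 0 < z) (hz0' : 0 < z') (hz : π z = i) (hz' : π z' = i) (h : Desc π z j)
    (h' : Desc π z' j) : z = z' := by
  have key : ∀ {z z' : ℕ}, 0 < z → 0 < z' → π z = i → π z' = i → ∀ k k' : ℕ, k ≤ k' →
      π^[k] j = z → π^[k'] j = z' → z = z' := by
    intro z z' hz0 hz0' hz hz' k k' hkk hk hk'
    obtain ⟨e, rfl⟩ := Nat.exists_eq_add_of_le hkk
    rw [add_comm, Function.iterate_add_apply, hk] at hk'
    cases e with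
    | zero => exact hk'
    | succ e =>
      exfalso
      rw [Function.iterate_succ_apply, hz] at hk'
      have h1 : Desc π z' i := ⟨e, hk'⟩
      have h2 := h1.le hπ'
      have h3 := hπ z' hz0'
      omega
  obtain ⟨k, hk⟩ := h
  obtain ⟨k', hk'⟩ := h'
  rcases le_total k k' with hkk | hkk
  · exact key hz0 hz0' hz hz' k k' hkk hk hk'
  · exact (key hz0' hz0 hz' hz k' k hkk hk' hk).symm

/-! ### The recursion over the forest -/

section Main

variable {V : Type}

/-- With the colours `e` outside the descendants of the block `i` and the colours `a` on the block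
`i` itself, all descendants can be coloured so that they guess wrong. -/
def Good (π : ℕ → ℕ) (β : V → ℕ) (g : V → (V → ℕ) → Finset ℕ) (q i : ℕ) (e a : V → ℕ) : Prop :=
  ∃ c : V → ℕ, (∀ v, Desc π i (β v) → c v < q) ∧ (∀ v, β v = i → c v = a v) ∧
    (∀ v, ¬ Desc π i (β v) → c v = e v) ∧ ∀ v, Desc π i (β v) → c v ∉ g v c

lemma neighbour_out {G : SimpleGraph V} {π ρ : ℕ → ℕ} {β : V → ℕ}
    (hadj : ∀ v w, G.Adj v w → β v = β w ∨ π (β v) = β w ∨ π (β w) = β v ∨
      (π (β v) = π (β w) ∧ ρ (β v) ≠ ρ (β w))) {z : ℕ} {v u : V} (hv : Desc π z (β v))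
    (hu : ¬ Desc π z (β u)) (huv : G.Adj v u) :
    β v = z ∧ (β u = π z ∨ (π (β u) = π z ∧ ρ (β v) ≠ ρ (β u))) := by
  rcases hadj v u huv with h | h | h | ⟨h, h'⟩
  · rw [h] at hv
    exact absurd hv hu
  · by_cases hvz : β v = z
    · exact ⟨hvz, Or.inl (by rw [← h, hvz])⟩
    · have := hv.parent hvz
      rw [h] at this
      exact absurd this hu
  · exfalso
    apply hu
    apply Desc.of_parent
    rw [h]
    exact hv
  · by_cases hvz : β v = z
    · exact ⟨hvz, Or.inr ⟨by rw [← h, hvz], h'⟩⟩
    · have := hv.parent hvz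
      rw [h] at this
      exact absurd this.of_parent hu

lemma Good.congr {G : SimpleGraph V} {π : ℕ → ℕ} {β : V → ℕ} {g : V → (V → ℕ) → Finset ℕ}
    (hg : ∀ v c c', (∀ u, G.Adj v u → c u = c' u) → g v c = g v c') {q z : ℕ} {e e' a a' : V → ℕ}
    (he : ∀ v u, Desc π z (β v) → ¬ Desc π z (β u) → G.Adj v u → e u = e' u)
    (ha : ∀ v, β v = z → a v = a' v) (h : Good π β g q z e a) : Good π β g q z e' a' := by
  classical
  obtain ⟨c, h1, h2, h3, h4⟩ := h
  refine ⟨fun v => if Desc π z (β v) then c v else e' v, ?_, ?_, ?_, ?_⟩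
  · intro v hv
    simp only [hv, if_true]
    exact h1 v hv
  · intro v hv
    have : Desc π z (β v) := by rw [hv]; exact Desc.refl π z
    simp only [this, if_true]
    rw [h2 v hv, ha v hv]
  · intro v hv
    simp only [hv, if_false]
  · intro v hv
    have : g v (fun v => if Desc π z (β v) then c v else e' v) = g v c := by
      apply hg
      intro u hu
      by_cases hzu : Desc π z (β u)
      · simp only [hzu, if_true]
      · simp only [hzu, if_false]
        rw [h3 u hzu, he v u hv hzu hu]
    rw [this]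
    simp only [hv, if_true]
    exact h4 v hv

theorem main (t m b s : ℕ) : ∃ Q : ℕ, ∀ q : ℕ, Q ≤ q →
    ∀ {V : Type} [Fintype V] [DecidableEq V] (G : SimpleGraph V) (β : V → ℕ) (π ρ : ℕ → ℕ),
      (∀ v, 0 < β v) → (∀ i, 0 < i → π i < i) → π 0 = 0 → (∀ i, ρ i < m) →
      (∀ i, ((Finset.univ : Finset V).filter (fun v => β v = i)).card ≤ t) →
      (∀ v w, G.Adj v w → β v = β w ∨ π (β v) = β w ∨ π (β w) = β v ∨
        (π (β v) = π (β w) ∧ ρ (β v) ≠ ρ (β w))) →
      (∀ i, ∀ S : Finset ℕ, (∀ j ∈ S, π j = π i ∧ ρ j < ρ i ∧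
        ∃ v w, G.Adj v w ∧ β v = i ∧ β w = j) → S.card ≤ b) →
      ∀ g : V → (V → ℕ) → Finset ℕ,
        (∀ v c c', (∀ u, G.Adj v u → c u = c' u) → g v c = g v c') →
        (∀ v c, (g v c).card ≤ s) →
        ∃ c : V → ℕ, (∀ v, c v < q) ∧ ∀ v, c v ∉ g v c := by
  classical
  set L0 := t * s + 1 with hL0
  have hL0' : 1 ≤ L0 := by omega
  obtain ⟨L1, hL1, hU⟩ := boxFree_union t (L0 ^ t) L0 hL0'
  obtain ⟨Q, hQ⟩ := siblings t b m L1 hL1
  refine ⟨max L0 Q, ?_⟩
  intro q hq V _ _ G β π ρ hβ hπ hπ0 hρ ht hadj hb g hg hgs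
  have hLq : L0 ≤ q := le_trans (le_max_left _ _) hq
  have hQq : Q ≤ q := le_trans (le_max_right _ _) hq
  have hπ' : ∀ i, π i ≤ i := by
    intro i
    rcases Nat.eq_zero_or_pos i with h | h
    · rw [h, hπ0]
    · exact (hπ i h).le
  set N := Finset.univ.sup β with hN
  have hβN : ∀ v, β v ≤ N := fun v => Finset.le_sup (Finset.mem_univ v)
  have claim : ∀ k i : ℕ, N < i + k → ∀ (e : V → ℕ) (σ : V → Fin L0 → ℕ),
      (∀ v, Function.Injective (σ v)) → (∀ v j, σ v j < q) →
      ∃ x : V → Fin L0, Good π β g q i e (fun v => σ v (x v)) := by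
    intro k
    induction k with
    | zero =>
      intro i hi e σ _ _
      have hno : ∀ v, ¬ Desc π i (β v) := by
        intro v hv
        have h1 := hv.le hπ'
        have h2 := hβN v
        omega
      refine ⟨fun _ => ⟨0, hL0'⟩, e, fun v hv => absurd hv (hno v), ?_, fun v _ => rfl,
        fun v hv => absurd hv (hno v)⟩
      intro v hv
      have h2 := hβN v
      omega
    | succ k ih =>
      intro i hi e σ hσ hσq
      let Bi : Finset V := Finset.univ.filter (fun v => β v = i)
      let C : Finset ℕ := (Finset.range (N + 1)).filter (fun z => 0 < z ∧ π z = i)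
      have hC : ∀ z, z ∈ C ↔ z ≤ N ∧ 0 < z ∧ π z = i := by
        intro z
        rw [Finset.mem_filter, Finset.mem_range, Nat.lt_succ_iff]
      have hCi : ∀ z ∈ C, i < z := by
        intro z hz
        have h1 := ((hC z).1 hz).2
        have h2 := hπ z h1.1
        rw [h1.2] at h2
        exact h2
      let w : (Bi → Fin L0) → (V → ℕ) → V → ℕ := fun k κ v =>
        if h : v ∈ Bi then σ v (k ⟨v, h⟩) else if π (β v) = i then κ v else e v
      let F : ℕ → (V → ℕ) → (V → ℕ) → Prop := fun z κ a =>
        ∃ k : Bi → Fin L0, ¬ Good π β g q z (w k κ) a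
      let R : ℕ → ℕ → Prop := fun z z' => z ≠ z' ∧ ∃ v u, G.Adj v u ∧ β v = z ∧ β u = z'
      obtain ⟨κ, hκ⟩ := hQ q hQq β C ρ R F (fun z _ => hρ z)
        (by
          rintro z hz z' hz' ⟨hne, v, u, hvu, hv, hu⟩
          have h1 := hCi z hz
          have h2 := hCi z' hz'
          have h3 := ((hC z).1 hz).2.2
          have h4 := ((hC z').1 hz').2.2
          rcases hadj v u hvu with h | h | h | h
          · exact absurd (by rw [← hv, ← hu, h]) hne
          · rw [hv, hu, h3] at h
            omega
          · rw [hv, hu, h4] at h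
            omega
          · rw [hv, hu] at h
            exact h.2)
        (by
          intro z hz S hS hSr
          apply hb z S
          intro z' hz'
          obtain ⟨⟨_, hr⟩, hlt⟩ := hSr z' hz'
          refine ⟨?_, hlt, hr⟩
          rw [((hC z).1 hz).2.2, ((hC z').1 (hS hz')).2.2])
        ht
        (by
          rintro z hz κ κ' a hκκ ⟨k, hk⟩
          refine ⟨k, fun hgood => hk (Good.congr hg ?_ (fun _ _ => rfl) hgood)⟩
          intro v u hv hu hvu
          obtain ⟨hvz, hcase⟩ := neighbour_out hadj hv hu hvu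
          have hzi := ((hC z).1 hz).2.2
          show w k κ' u = w k κ u
          simp only [w]
          by_cases huB : u ∈ Bi
          · rw [dif_pos huB, dif_pos huB]
          · rw [dif_neg huB, dif_neg huB]
            rcases hcase with h | ⟨h, _⟩
            · exfalso
              apply huB
              exact Finset.mem_filter.2 ⟨Finset.mem_univ _, by rw [h, hzi]⟩
            · rw [hzi] at h
              rw [if_pos h, if_pos h]
              refine (hκκ u ?_ ?_).symm
              · exact (hC _).2 ⟨hβN u, hβ u, h⟩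
              · refine ⟨?_, v, u, hvu, hvz, rfl⟩
                intro hzu
                apply hu
                rw [← hzu]
                exact Desc.refl π z)
        (by
          rintro z hz κ a a' haa ⟨k, hk⟩
          exact ⟨k, fun hgood => hk (Good.congr hg (fun _ _ _ _ _ => rfl)
            (fun v hv => (haa v hv).symm) hgood)⟩)
        (by
          intro z hz κ
          apply hU q (Finset.univ.filter (fun v => β v = z)) (ht z)
          · rw [Fintype.card_fun, Fintype.card_fin, Fintype.card_coe]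
            exact Nat.pow_le_pow_right hL0' (ht i)
          · intro k a a' haa hk hgood
            exact hk (Good.congr hg (fun _ _ _ _ _ => rfl) (fun v hv =>
              (haa v (Finset.mem_filter.2 ⟨Finset.mem_univ _, hv⟩)).symm) hgood)
          · intro k σ' hσ' hσq'
            have hzk := hCi z hz
            obtain ⟨x, hx⟩ := ih z (by omega) (w k κ) σ' hσ' hσq'
            exact ⟨x, fun h => h hx⟩)
      have hκG : ∀ z ∈ C, ∀ k : Bi → Fin L0, Good π β g q z (w k κ) κ := by
        intro z hz k
        by_contra hcon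
        exact hκ z hz ⟨k, hcon⟩
      -- the colours of the block `i`
      let wx : (V → Fin L0) → V → ℕ := fun x => w (fun v => x v) κ
      have hwxB : ∀ x v, β v = i → wx x v = σ v (x v) := by
        intro x v hv
        have : v ∈ Bi := Finset.mem_filter.2 ⟨Finset.mem_univ _, hv⟩
        simp only [wx, w, this, dif_pos]
      have hwxK : ∀ x v, β v ≠ i → π (β v) = i → wx x v = κ v := by
        intro x v hv hv'
        have : v ∉ Bi := fun h => hv (Finset.mem_filter.1 h).2
        simp only [wx, w, this, dif_neg, not_false_eq_true, hv', if_true]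
      have hwxE : ∀ x v, β v ≠ i → π (β v) ≠ i → wx x v = e v := by
        intro x v hv hv'
        have : v ∉ Bi := fun h => hv (Finset.mem_filter.1 h).2
        simp only [wx, w, this, dif_neg, not_false_eq_true, hv', if_false]
      let h : V → (V → Fin L0) → Finset (Fin L0) := fun v x =>
        Finset.univ.filter (fun j : Fin L0 => σ v j ∈ g v (wx x))
      obtain ⟨x, hx⟩ : ∃ x : V → Fin L0, ∀ v ∈ Bi, x v ∉ h v x := by
        by_contra hcon
        push Not at hcon
        have h1 : (Finset.univ : Finset (V → Fin L0)) ⊆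
            Bi.biUnion (fun v => Finset.univ.filter (fun x => x v ∈ h v x)) := by
          intro x _
          obtain ⟨v, hv, hvx⟩ := hcon x
          exact Finset.mem_biUnion.2 ⟨v, hv, Finset.mem_filter.2 ⟨Finset.mem_univ _, hvx⟩⟩
        have h2 : ∀ v ∈ Bi, L0 * ((Finset.univ : Finset (V → Fin L0)).filter
            (fun x => x v ∈ h v x)).card ≤ s * (Finset.univ : Finset (V → Fin L0)).card := by
          intro v hv
          apply PW.fibre v Finset.univ (h v)
          · intro c a _
            exact Finset.mem_univ _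
          · intro c a
            have : g v (wx (Function.update c v a)) = g v (wx c) := by
              apply hg
              intro u hu
              have huv : u ≠ v := fun h => G.ne_of_adj hu h.symm
              by_cases hui : β u = i
              · rw [hwxB _ u hui, hwxB _ u hui, Function.update_of_ne huv]
              · by_cases hpi : π (β u) = i
                · rw [hwxK _ u hui hpi, hwxK _ u hui hpi]
                · rw [hwxE _ u hui hpi, hwxE _ u hui hpi]
            simp only [h, this]
          · intro c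
            refine le_trans ?_ (hgs v (wx c))
            refine Finset.card_le_card_of_injOn (fun j => σ v j) ?_ ?_
            · intro j hj
              exact Finset.mem_coe.2 (Finset.mem_filter.1 (Finset.mem_coe.1 hj)).2
            · intro j _ j' _ hjj
              exact hσ v hjj
        have h3 : L0 * (Finset.univ : Finset (V → Fin L0)).card ≤
            t * s * (Finset.univ : Finset (V → Fin L0)).card := by
          calc L0 * (Finset.univ : Finset (V → Fin L0)).card
              ≤ L0 * (Bi.biUnion (fun v => Finset.univ.filter (fun x => x v ∈ h v x))).card :=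
                Nat.mul_le_mul_left _ (Finset.card_le_card h1)
            _ ≤ L0 * ∑ v ∈ Bi, ((Finset.univ : Finset (V → Fin L0)).filter
                (fun x => x v ∈ h v x)).card := Nat.mul_le_mul_left _ Finset.card_biUnion_le
            _ = ∑ v ∈ Bi, L0 * ((Finset.univ : Finset (V → Fin L0)).filter
                (fun x => x v ∈ h v x)).card := Finset.mul_sum _ _ _
            _ ≤ ∑ _v ∈ Bi, s * (Finset.univ : Finset (V → Fin L0)).card :=
                Finset.sum_le_sum h2
            _ = Bi.card * (s * (Finset.univ : Finset (V → Fin L0)).card) := by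
                rw [Finset.sum_const, smul_eq_mul]
            _ ≤ t * (s * (Finset.univ : Finset (V → Fin L0)).card) :=
                Nat.mul_le_mul_right _ (ht i)
            _ = t * s * (Finset.univ : Finset (V → Fin L0)).card := by ring
        have h4 : 0 < (Finset.univ : Finset (V → Fin L0)).card :=
          Finset.card_pos.2 ⟨fun _ => ⟨0, hL0'⟩, Finset.mem_univ _⟩
        have h5 := Nat.le_of_mul_le_mul_right h3 h4
        omega
      have hx' : ∀ v, β v = i → σ v (x v) ∉ g v (wx x) := by
        intro v hv hmem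
        exact hx v (Finset.mem_filter.2 ⟨Finset.mem_univ _, hv⟩)
          (Finset.mem_filter.2 ⟨Finset.mem_univ _, hmem⟩)
      -- put the colourings together
      have hG : ∀ z, ∃ c : V → ℕ, z ∈ C → (∀ v, Desc π z (β v) → c v < q) ∧
          (∀ v, β v = z → c v = κ v) ∧ (∀ v, ¬ Desc π z (β v) → c v = wx x v) ∧
          ∀ v, Desc π z (β v) → c v ∉ g v c := by
        intro z
        by_cases hz : z ∈ C
        · obtain ⟨c, hc⟩ := hκG z hz (fun v => x v)
          exact ⟨c, fun _ => hc⟩
        · exact ⟨fun _ => 0, fun h => absurd h hz⟩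
      choose cz hcz using hG
      let c : V → ℕ := fun v => if h : ∃ z, z ∈ C ∧ Desc π z (β v) then cz h.choose v else wx x v
      have hcin : ∀ z ∈ C, ∀ v, Desc π z (β v) → c v = cz z v := by
        intro z hz v hv
        have hex : ∃ z, z ∈ C ∧ Desc π z (β v) := ⟨z, hz, hv⟩
        have h1 := hex.choose_spec
        have h2 : hex.choose = z :=
          Desc.child_unique hπ hπ' ((hC _).1 h1.1).2.1 ((hC z).1 hz).2.1 ((hC _).1 h1.1).2.2
            ((hC z).1 hz).2.2 h1.2 hv
        simp only [c]
        rw [dif_pos hex, h2]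
      have hcout : ∀ v, (¬ ∃ z, z ∈ C ∧ Desc π z (β v)) → c v = wx x v := by
        intro v hv
        simp only [c]
        rw [dif_neg hv]
      have hcblock : ∀ v, β v ∈ C → c v = κ v := by
        intro v hv
        rw [hcin _ hv v (Desc.refl π _)]
        exact (hcz _ hv).2.1 v rfl
      have hnoi : ∀ v, β v = i → ¬ ∃ z, z ∈ C ∧ Desc π z (β v) := by
        rintro v hv ⟨z, hz, hzv⟩
        have h1 := hzv.le hπ'
        have h2 := hCi z hz
        omega
      refine ⟨x, c, ?_, ?_, ?_, ?_⟩
      · intro v hv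
        by_cases hvi : β v = i
        · rw [hcout v (hnoi v hvi), hwxB x v hvi]
          exact hσq v _
        · obtain ⟨z, hz0, hz1, hz2⟩ := Desc.exists_child hπ hπ0 (β v) hv hvi
          have hzC : z ∈ C := (hC z).2 ⟨le_trans (hz2.le hπ') (hβN v), hz0, hz1⟩
          rw [hcin z hzC v hz2]
          exact (hcz z hzC).1 v hz2
      · intro v hvi
        rw [hcout v (hnoi v hvi), hwxB x v hvi]
      · intro v hv
        have h1 : ¬ ∃ z, z ∈ C ∧ Desc π z (β v) := by
          rintro ⟨z, hz, hzv⟩
          apply hv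
          have := hzv.up
          rw [((hC z).1 hz).2.2] at this
          exact this
        have h2 : β v ≠ i := by
          intro h
          apply hv
          rw [h]
          exact Desc.refl π i
        have h3 : π (β v) ≠ i := by
          intro h
          apply hv
          apply Desc.of_parent
          rw [h]
          exact Desc.refl π i
        rw [hcout v h1, hwxE x v h2 h3]
      · intro v hv
        by_cases hvi : β v = i
        · rw [hcout v (hnoi v hvi), hwxB x v hvi]
          have : g v c = g v (wx x) := by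
            apply hg
            intro u hu
            by_cases hex : ∃ z, z ∈ C ∧ Desc π z (β u)
            · obtain ⟨z, hz, hzu⟩ := hex
              have hzi : i < z := hCi z hz
              have hnv : ¬ Desc π z (β v) := by
                intro h
                have := h.le hπ'
                omega
              obtain ⟨huz, _⟩ := neighbour_out hadj hzu hnv hu.symm
              have huC : β u ∈ C := by rw [huz]; exact hz
              rw [hcblock u huC, hwxK x u (by omega) (by rw [huz]; exact ((hC z).1 hz).2.2)]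
            · exact hcout u hex
          rw [this]
          exact hx' v hvi
        · obtain ⟨z, hz0, hz1, hz2⟩ := Desc.exists_child hπ hπ0 (β v) hv hvi
          have hzC : z ∈ C := (hC z).2 ⟨le_trans (hz2.le hπ') (hβN v), hz0, hz1⟩
          have : g v c = g v (cz z) := by
            apply hg
            intro u hu
            by_cases hzu : Desc π z (β u)
            · exact hcin z hzC u hzu
            · rw [(hcz z hzC).2.2.1 u hzu]
              obtain ⟨hvz, hcase⟩ := neighbour_out hadj hz2 hzu hu
              rcases hcase with h | ⟨h, _⟩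
              · rw [hz1] at h
                exact hcout u (hnoi u h)
              · rw [hz1] at h
                have huC : β u ∈ C := (hC _).2 ⟨hβN u, hβ u, h⟩
                have hui := hCi _ huC
                rw [hcblock u huC, hwxK x u (by omega) h]
          rw [this, hcin z hzC v hz2]
          exact (hcz z hzC).2.2.2 v hz2
  obtain ⟨x, c, h1, _, _, h4⟩ := claim (N + 1) 0 (by omega) (fun _ => 0)
    (fun _ j => (j : ℕ)) (fun _ j j' h => Fin.ext h) (fun _ j => lt_of_lt_of_le j.2 hLq)
  have hall : ∀ v, Desc π 0 (β v) := by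
    have : ∀ j, Desc π 0 j := by
      intro j
      induction j using Nat.strong_induction_on with
      | _ j ih =>
        rcases Nat.eq_zero_or_pos j with h | h
        · rw [h]
          exact Desc.refl π 0
        · exact (ih (π j) (hπ j h)).of_parent
    exact fun v => this _
  exact ⟨c, fun v => h1 v (hall v), fun v => h4 v (hall v)⟩

end Main

/-! ### Levels -/

section Levels

/-- The players of `X` lose with `s` guesses each and the palette of size `q`, when they only see
each other. -/
def LosesOn {V : Type} (G : SimpleGraph V) (X : Finset V) (s q : ℕ) : Prop :=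
  ∀ g : V → (V → ℕ) → Finset ℕ,
    (∀ v ∈ X, ∀ c c' : V → ℕ, (∀ u ∈ X, G.Adj v u → c u = c' u) → g v c = g v c') →
    (∀ v ∈ X, ∀ c, (g v c).card ≤ s) →
    ∃ c : V → ℕ, (∀ v, c v < q) ∧ ∀ v ∈ X, c v ∉ g v c

/-- The tree-like structure on a set of vertices. -/
def TreeOn {V : Type} (n : ℕ) (G : SimpleGraph V) (S : Finset V) : Prop :=
  ∃ (β : V → ℕ) (π ρ : ℕ → ℕ),
    (∀ v ∈ S, 0 < β v) ∧ (∀ i, 0 < i → π i < i) ∧ (∀ i, ρ i < n) ∧
    (∀ i, (S.filter (fun v => β v = i)).card ≤ n) ∧
    (∀ v ∈ S, ∀ w ∈ S, G.Adj v w → β v = β w ∨ π (β v) = β w ∨ π (β w) = β v ∨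
      (π (β v) = π (β w) ∧ ρ (β v) ≠ ρ (β w))) ∧
    ∀ i, ∀ T : Finset ℕ, (∀ j ∈ T, π j = π i ∧ ρ j < ρ i ∧
      ∃ v ∈ S, ∃ w ∈ S, G.Adj v w ∧ β v = i ∧ β w = j) → T.card ≤ n

lemma treeOn_loses (n s : ℕ) : ∃ q : ℕ, 0 < q ∧ ∀ {V : Type} (G : SimpleGraph V) (S : Finset V),
    TreeOn n G S → LosesOn G S s q := by
  classical
  obtain ⟨Q, hQ⟩ := main n n n s
  refine ⟨Q + 1, Nat.succ_pos Q, ?_⟩
  rintro V G S ⟨β, π, ρ, hβ, hπ, hρ, ht, hadj, hb⟩ g hg hgs
  let ext : (S → ℕ) → V → ℕ := fun c v => if h : v ∈ S then c ⟨v, h⟩ else 0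
  have hext : ∀ (c : S → ℕ) (v : S), ext c v = c v := by
    intro c v
    simp only [ext, v.2, dif_pos]
  let π' : ℕ → ℕ := fun i => if i = 0 then 0 else π i
  have hπ'1 : ∀ i, 0 < i → π' i = π i := fun i hi => if_neg (by omega)
  obtain ⟨c, hc1, hc2⟩ := hQ (Q + 1) (Nat.le_succ Q) (V := S)
    (G.comap (fun v : S => (v : V))) (fun v => β v) π' ρ
    (fun v => hβ v v.2)
    (by
      intro i hi
      rw [hπ'1 i hi]
      exact hπ i hi)
    (if_pos rfl) hρ
    (by
      intro i
      refine le_trans ?_ (ht i)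
      refine Finset.card_le_card_of_injOn (fun v : S => (v : V)) ?_ ?_
      · intro v hv
        have := (Finset.mem_filter.1 (Finset.mem_coe.1 hv)).2
        exact Finset.mem_coe.2 (Finset.mem_filter.2 ⟨v.2, this⟩)
      · intro v _ w _ hvw
        exact Subtype.ext hvw)
    (by
      intro v w hvw
      rw [hπ'1 _ (hβ v v.2), hπ'1 _ (hβ w w.2)]
      exact hadj v v.2 w w.2 hvw)
    (by
      intro i T hT
      apply hb i T
      intro j hj
      obtain ⟨h1, h2, v, w, hvw, hv, hw⟩ := hT j hj
      have hi0 : 0 < i := by rw [← hv]; exact hβ v v.2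
      have hj0 : 0 < j := by rw [← hw]; exact hβ w w.2
      rw [hπ'1 i hi0, hπ'1 j hj0] at h1
      exact ⟨h1, h2, v, v.2, w, w.2, hvw, hv, hw⟩)
    (fun v c => g v (ext c))
    (by
      intro v c c' hcc
      apply hg v v.2
      intro u hu hvu
      have := hcc ⟨u, hu⟩ hvu
      simp only [ext, hu, dif_pos]
      exact this)
    (fun v c => hgs v v.2 _)
  refine ⟨ext c, ?_, ?_⟩
  · intro v
    simp only [ext]
    split_ifs
    · exact hc1 _
    · exact Nat.succ_pos Q
  · intro v hv
    have := hc2 ⟨v, hv⟩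
    rw [hext c ⟨v, hv⟩]
    exact this

lemma LosesOn.step {V : Type} [Fintype V] {G : SimpleGraph V} [DecidableEq V] {X Y : Finset V}
    (hYX : Y ⊆ X) {B : ℕ} (hY : ∀ x ∈ X \ Y, {w | w ∈ Y ∧ G.Adj x w}.ncard ≤ B)
    {s K₁ K₂ : ℕ} (hK₁ : 0 < K₁) (h₁ : LosesOn G Y s K₁) (h₂ : LosesOn G (X \ Y) (s * K₁ ^ B) K₂) :
    LosesOn G X s (max K₁ K₂) := by
  classical
  intro g hg hgs
  let N : V → Finset V := fun v => Y.filter (fun w => G.Adj v w)
  have hN : ∀ v ∈ X \ Y, (N v).card ≤ B := by
    intro v hv
    have h1 : ({w | w ∈ Y ∧ G.Adj v w} : Set V) = (N v : Set V) := by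
      ext w
      simp only [N, Finset.coe_filter]
    have := hY v hv
    rw [h1, Set.ncard_coe_finset] at this
    exact this
  let F : V → Finset (V → ℕ) := fun v => Fintype.piFinset (fun u =>
    if u ∈ N v then Finset.range K₁ else {0})
  let mg : (V → ℕ) → (V → ℕ) → (V → ℕ) := fun a b u => if u ∈ Y then b u else a u
  have hFcard : ∀ v ∈ X \ Y, (F v).card ≤ K₁ ^ B := by
    intro v hv
    have h1 : (F v).card = K₁ ^ (N v).card := by
      simp only [F]
      rw [Fintype.card_piFinset]
      have : ∀ u : V, (if u ∈ N v then Finset.range K₁ else ({0} : Finset ℕ)).card =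
          if u ∈ N v then K₁ else 1 := by
        intro u
        split_ifs
        · exact Finset.card_range _
        · exact Finset.card_singleton _
      simp_rw [this]
      rw [Finset.prod_ite, Finset.prod_const, Finset.prod_const_one, mul_one,
        Finset.filter_mem_eq_inter, Finset.univ_inter]
    rw [h1]
    exact Nat.pow_le_pow_right hK₁ (hN v hv)
  obtain ⟨a, haK, ha⟩ := h₂ (fun v a => (F v).biUnion (fun b => g v (mg a b)))
    (by
      intro v hv c c' hcc
      refine Finset.biUnion_congr rfl (fun b _ => hg v (Finset.mem_sdiff.1 hv).1 _ _ ?_)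
      intro u hu hvu
      simp only [mg]
      split_ifs with huY
      · rfl
      · exact hcc u (Finset.mem_sdiff.2 ⟨hu, huY⟩) hvu)
    (by
      intro v hv c
      have hvX := (Finset.mem_sdiff.1 hv).1
      calc ((F v).biUnion (fun b => g v (mg c b))).card
          ≤ ∑ b ∈ F v, (g v (mg c b)).card := Finset.card_biUnion_le
        _ ≤ ∑ _b ∈ F v, s := Finset.sum_le_sum (fun b _ => hgs v hvX _)
        _ = (F v).card * s := by rw [Finset.sum_const, smul_eq_mul]
        _ ≤ K₁ ^ B * s := Nat.mul_le_mul_right _ (hFcard v hv)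
        _ = s * K₁ ^ B := mul_comm _ _)
  obtain ⟨b, hbK, hb⟩ := h₁ (fun v b => g v (mg a b))
    (by
      intro v hv c c' hcc
      refine hg v (hYX hv) _ _ ?_
      intro u _ hvu
      simp only [mg]
      split_ifs with huY
      · exact hcc u huY hvu
      · rfl)
    (fun v hv c => hgs v (hYX hv) _)
  refine ⟨mg a b, ?_, ?_⟩
  · intro v
    simp only [mg]
    split_ifs
    · exact lt_of_lt_of_le (hbK v) (le_max_left _ _)
    · exact lt_of_lt_of_le (haK v) (le_max_right _ _)
  · intro v hv
    by_cases hvY : v ∈ Y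
    · have h1 := hb v hvY
      have h3 : mg a b v = b v := by simp only [mg, if_pos hvY]
      rw [h3]
      exact h1
    · have h1 := ha v (Finset.mem_sdiff.2 ⟨hv, hvY⟩)
      have h3 : mg a b v = a v := by simp only [mg, if_neg hvY]
      rw [h3]
      intro h2
      apply h1
      rw [Finset.mem_biUnion]
      refine ⟨fun u => if u ∈ N v then b u else 0, ?_, ?_⟩
      · simp only [F]
        rw [Fintype.mem_piFinset]
        intro u
        split_ifs
        · exact Finset.mem_range.2 (hbK u)
        · exact Finset.mem_singleton_self 0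
      · have h4 : g v (mg a (fun u => if u ∈ N v then b u else 0)) = g v (mg a b) := by
          refine hg v hv _ _ ?_
          intro u _ hvu
          simp only [mg]
          by_cases huY : u ∈ Y
          · rw [if_pos huY, if_pos huY, if_pos (Finset.mem_filter.2 ⟨huY, hvu⟩)]
          · rw [if_neg huY, if_neg huY]
        rw [h4]
        exact h2

lemma levels (n : ℕ) : ∀ M s : ℕ, ∃ q : ℕ, ∀ {V : Type} [Fintype V] [DecidableEq V]
    (G : SimpleGraph V) (X : Finset V) (lev : V → ℕ), (∀ v ∈ X, lev v < M) →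
    (∀ v ∈ X, {w | w ∈ X ∧ G.Adj v w ∧ lev w < lev v}.ncard ≤ n) →
    (∀ i, TreeOn n G (X.filter (fun v => lev v = i))) → LosesOn G X s q := by
  intro M
  induction M with
  | zero =>
    intro s
    refine ⟨1, ?_⟩
    intro V _ _ G X lev h1 _ _ g _ _
    exact ⟨fun _ => 0, fun _ => Nat.zero_lt_one, fun v hv => absurd (h1 v hv) (Nat.not_lt_zero _)⟩
  | succ M ih =>
    intro s
    obtain ⟨K₁, hK₁, hT⟩ := treeOn_loses n s
    obtain ⟨K₂, hK₂⟩ := ih (s * K₁ ^ n)
    refine ⟨max K₁ K₂, ?_⟩
    intro V _ _ G X lev h1 h2 h3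
    have hsd : ∀ v, v ∈ X \ X.filter (fun v => lev v = 0) ↔ v ∈ X ∧ lev v ≠ 0 := by
      intro v
      rw [Finset.mem_sdiff, Finset.mem_filter]
      tauto
    refine LosesOn.step (Y := X.filter (fun v => lev v = 0)) (Finset.filter_subset _ _)
      (B := n) ?_ hK₁ (hT G _ (h3 0)) ?_
    · intro x hx
      obtain ⟨hxX, hx0⟩ := (hsd x).1 hx
      refine le_trans (Set.ncard_le_ncard ?_ (Set.toFinite _)) (h2 x hxX)
      rintro w ⟨hw, hxw⟩
      have := Finset.mem_filter.1 hw
      exact ⟨this.1, hxw, by rw [this.2]; omega⟩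
    · refine hK₂ G _ (fun v => lev v - 1) ?_ ?_ ?_
      · intro v hv
        obtain ⟨hvX, hv0⟩ := (hsd v).1 hv
        have := h1 v hvX
        show lev v - 1 < M
        omega
      · intro v hv
        obtain ⟨hvX, hv0⟩ := (hsd v).1 hv
        refine le_trans (Set.ncard_le_ncard ?_ (Set.toFinite _)) (h2 v hvX)
        rintro w ⟨hw, hvw, hlt⟩
        obtain ⟨hwX, hw0⟩ := (hsd w).1 hw
        have hlt' : lev w - 1 < lev v - 1 := hlt
        exact ⟨hwX, hvw, by omega⟩
      · intro i
        have : (X \ X.filter (fun v => lev v = 0)).filter (fun v => lev v - 1 = i) =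
            X.filter (fun v => lev v = i + 1) := by
          ext v
          rw [Finset.mem_filter, hsd, Finset.mem_filter]
          constructor
          · rintro ⟨⟨h4, h5⟩, h6⟩
            exact ⟨h4, by omega⟩
          · rintro ⟨h4, h5⟩
            exact ⟨⟨h4, by omega⟩, by omega⟩
        rw [this]
        exact h3 (i + 1)

end Levels

/-- The hat guessing number is bounded on layered graphs. -/
theorem hat_layered (n : ℕ) : ∃ q₀ : ℕ, ∀ (V : Type) [Fintype V] (G : SimpleGraph V),
    Layered n G → ∀ q : ℕ, (∃ s, IsWinning G q s) → q < q₀ := by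
  classical
  obtain ⟨q₀, hq₀⟩ := levels n n 1
  refine ⟨q₀ + 1, ?_⟩
  rintro V _ G ⟨lev, h1, h2, h3⟩ q ⟨st, hst⟩
  by_contra hq
  have hq' : q₀ ≤ q := by omega
  have hq0 : 0 < q := by omega
  have hL : LosesOn G Finset.univ 1 q₀ := by
    apply hq₀ G Finset.univ lev (fun v _ => h1 v)
    · intro v _
      refine le_trans (Set.ncard_le_ncard ?_ (Set.toFinite _)) (h2 v)
      rintro w ⟨_, hw⟩
      exact hw
    · intro i
      obtain ⟨β, π, ρ, hβ, hπ, hρ, ht, hadj, hb⟩ := h3 i
      refine ⟨fun v => if h : lev v = i then β ⟨v, h⟩ else 1, π, ρ, ?_, hπ, hρ, ?_, ?_, ?_⟩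
      · intro v hv
        have hvi : lev v = i := (Finset.mem_filter.1 hv).2
        simp only [hvi, dif_pos]
        exact hβ _
      · intro j
        refine le_trans ?_ (ht j)
        rw [← Set.ncard_image_of_injective {v : {v | lev v = i} | β v = j} Subtype.val_injective,
          ← Set.ncard_coe_finset]
        refine Set.ncard_le_ncard ?_ (Set.toFinite _)
        intro v hv
        have h4 := Finset.mem_filter.1 (Finset.mem_coe.1 hv)
        have hvi : lev v = i := (Finset.mem_filter.1 h4.1).2
        refine ⟨⟨v, hvi⟩, ?_, rfl⟩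
        have h5 := h4.2
        simp only [hvi, dif_pos] at h5
        exact h5
      · intro v hv w hw hvw
        have hvi : lev v = i := (Finset.mem_filter.1 hv).2
        have hwi : lev w = i := (Finset.mem_filter.1 hw).2
        have := hadj ⟨v, hvi⟩ ⟨w, hwi⟩ hvw
        simp only [hvi, hwi, dif_pos]
        exact this
      · intro j T hT
        refine le_trans ?_ (hb j)
        rw [← Set.ncard_coe_finset]
        refine Set.ncard_le_ncard ?_ ?_
        · intro k hk
          obtain ⟨h4, h5, v, hv, w, hw, hvw, hv1, hw1⟩ := hT k (Finset.mem_coe.1 hk)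
          have hvi : lev v = i := (Finset.mem_filter.1 hv).2
          have hwi : lev w = i := (Finset.mem_filter.1 hw).2
          simp only [hvi, hwi, dif_pos] at hv1 hw1
          exact ⟨h4, h5, ⟨v, hvi⟩, ⟨w, hwi⟩, hvw, hv1, hw1⟩
        · refine Set.Finite.subset (Set.finite_range β) ?_
          rintro k ⟨_, _, v, w, _, _, hw⟩
          exact ⟨w, hw⟩
  obtain ⟨c, hc, hc'⟩ := hL
    (fun v c => {((st v (fun u => ⟨c u % q, Nat.mod_lt _ hq0⟩) : Fin q) : ℕ)})
    (by
      intro v _ c c' hcc
      have : st v (fun u => ⟨c u % q, Nat.mod_lt _ hq0⟩) =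
          st v (fun u => ⟨c' u % q, Nat.mod_lt _ hq0⟩) := by
        apply hst.1
        intro w hw
        have := hcc w (Finset.mem_univ w) hw
        simp only [this]
      simp only [this])
    (by
      intro v _ c
      exact le_of_eq (Finset.card_singleton _))
  have hcq : ∀ u, c u < q := fun u => lt_of_lt_of_le (hc u) hq'
  obtain ⟨v, hv⟩ := hst.2 (fun u => ⟨c u % q, Nat.mod_lt _ hq0⟩)
  apply hc' v (Finset.mem_univ v)
  rw [Finset.mem_singleton, hv]
  exact (Nat.mod_eq_of_lt (hcq v)).symm

end TL

end Pool.Agent.Lib.MP_994fee_co
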