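import Pool.Agent.Lib.MP_994fee_co.Spec

/-!
# Graphs with a perfect elimination ordering of width two hang on a pair of vertices
-/

namespace Pool.Agent.Lib.MP_994fee_co

/-- Two equal or adjacent vertices lie in one of the three parts. -/
theorem hangs_part {V : Type} [DecidableEq V] {T : SimpleGraph V} {a b z p q : V}
    {D₁ D₂ D₃ : Finset V}
    (hn1 : ∀ v ∈ D₁, ¬ T.Adj v b) (hn2 : ∀ v ∈ D₂, ¬ T.Adj v a) (hn3 : ∀ v ∈ D₃, ¬ T.Adj v z)
    (hx12 : ∀ v ∈ D₁, ∀ w ∈ D₂, ¬ T.Adj v w) (hx13 : ∀ v ∈ D₁, ∀ w ∈ D₃, ¬ T.Adj v w)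
    (hx23 : ∀ v ∈ D₂, ∀ w ∈ D₃, ¬ T.Adj v w) (hpq : p = q ∨ T.Adj p q)
    (hp : (p = z ∨ (p ∈ D₁ ∨ p ∈ D₂) ∨ p ∈ D₃) ∨ p = a ∨ p = b)
    (hq : (q = z ∨ (q ∈ D₁ ∨ q ∈ D₂) ∨ q ∈ D₃) ∨ q = a ∨ q = b) :
    ((p ∈ D₁ ∨ p = a ∨ p = z) ∧ (q ∈ D₁ ∨ q = a ∨ q = z)) ∨
      ((p ∈ D₂ ∨ p = b ∨ p = z) ∧ (q ∈ D₂ ∨ q = b ∨ q = z)) ∨
      ((p ∈ D₃ ∨ p = a ∨ p = b) ∧ (q ∈ D₃ ∨ q = a ∨ q = b)) := by
  rcases hpq with rfl | hadj
  · rcases hp with (hp | (hp | hp) | hp) | hp | hp <;> simp [hp]
  · have hadj' := hadj.symm
    rcases hp with (hp | (hp | hp) | hp) | hp | hp <;>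
      rcases hq with (hq | (hq | hq) | hq) | hq | hq <;>
      first
      | exact absurd hadj (hx12 _ hp _ hq)
      | exact absurd hadj' (hx12 _ hq _ hp)
      | exact absurd hadj (hx13 _ hp _ hq)
      | exact absurd hadj' (hx13 _ hq _ hp)
      | exact absurd hadj (hx23 _ hp _ hq)
      | exact absurd hadj' (hx23 _ hq _ hp)
      | (rw [hp] at hadj'; exact absurd hadj' (hn1 _ hq))
      | (rw [hp] at hadj'; exact absurd hadj' (hn2 _ hq))
      | (rw [hp] at hadj'; exact absurd hadj' (hn3 _ hq))
      | (rw [hq] at hadj; exact absurd hadj (hn1 _ hp))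
      | (rw [hq] at hadj; exact absurd hadj (hn2 _ hp))
      | (rw [hq] at hadj; exact absurd hadj (hn3 _ hp))
      | (refine Or.inl ⟨?_, ?_⟩ <;>
          first
          | exact Or.inl ‹_›
          | exact Or.inr (Or.inl ‹_›)
          | exact Or.inr (Or.inr ‹_›))
      | (refine Or.inr (Or.inl ⟨?_, ?_⟩) <;>
          first
          | exact Or.inl ‹_›
          | exact Or.inr (Or.inl ‹_›)
          | exact Or.inr (Or.inr ‹_›))
      | (refine Or.inr (Or.inr ⟨?_, ?_⟩) <;>
          first
          | exact Or.inl ‹_›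
          | exact Or.inr (Or.inl ‹_›)
          | exact Or.inr (Or.inr ‹_›))

/-- A new vertex whose neighbours are contained in a clique `{p, q}` can be added. -/
theorem Hangs.insertVertex {V : Type} [DecidableEq V] {T : SimpleGraph V} (v p q : V)
    (hpq : p = q ∨ T.Adj p q) {a b : V} {D : Finset V} (h : Hangs T a b D) :
    a ≠ b → a ∉ D → b ∉ D → v ≠ a → v ≠ b → v ∉ D →
    (∀ w, (w ∈ D ∨ w = a ∨ w = b) → T.Adj v w → w = p ∨ w = q) →
    (p ∈ D ∨ p = a ∨ p = b) → (q ∈ D ∨ q = a ∨ q = b) → Hangs T a b (insert v D) := by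
  induction h with
  | nil a b =>
    intro hab _ _ hva hvb _ _ _ _
    have h1 := Hangs.cons (T := T) a b v ∅ ∅ ∅ hva hvb (by simp) (by simp) (by simp) (by simp)
      (by simp) (by simp) (by simp) (by simp) (by simp) (by simp) (by simp) (by simp) (by simp)
      (by simp) (by simp) (by simp) (by simp) (by simp) (Hangs.nil a v) (Hangs.nil b v)
      (Hangs.nil a b)
    simpa using h1
  | cons a b z D₁ D₂ D₃ hza hzb hz1 hz2 hz3 ha1 ha2 ha3 hb1 hb2 hb3 h12 h13 h23 hn1 hn2 hn3
      hx12 hx13 hx23 H1 H2 H3 ih1 ih2 ih3 =>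
    intro hab haD hbD hva hvb hvD hN hp hq
    simp only [Finset.mem_insert, Finset.mem_union, not_or] at hvD
    obtain ⟨hvz, ⟨hv1, hv2⟩, hv3⟩ := hvD
    have d12 : ∀ x, x ∈ D₁ → x ∉ D₂ := fun x h1 h2 => (Finset.disjoint_left.mp h12) h1 h2
    have d13 : ∀ x, x ∈ D₁ → x ∉ D₃ := fun x h1 h2 => (Finset.disjoint_left.mp h13) h1 h2
    have d23 : ∀ x, x ∈ D₂ → x ∉ D₃ := fun x h1 h2 => (Finset.disjoint_left.mp h23) h1 h2
    simp only [Finset.mem_insert, Finset.mem_union] at hN hp hq
    have key := hangs_part hn1 hn2 hn3 hx12 hx13 hx23 hpq hp hq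
    have hA1 : ∀ w ∈ D₁, T.Adj v w → w = p ∨ w = q := fun w h hw =>
      hN w (Or.inl (Or.inr (Or.inl (Or.inl h)))) hw
    have hA2 : ∀ w ∈ D₂, T.Adj v w → w = p ∨ w = q := fun w h hw =>
      hN w (Or.inl (Or.inr (Or.inl (Or.inr h)))) hw
    have hA3 : ∀ w ∈ D₃, T.Adj v w → w = p ∨ w = q := fun w h hw =>
      hN w (Or.inl (Or.inr (Or.inr h))) hw
    have hAz : T.Adj v z → z = p ∨ z = q := fun hw => hN z (Or.inl (Or.inl rfl)) hw
    have hAa : T.Adj v a → a = p ∨ a = q := fun hw => hN a (Or.inr (Or.inl rfl)) hw
    have hAb : T.Adj v b → b = p ∨ b = q := fun hw => hN b (Or.inr (Or.inr rfl)) hw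
    rcases key with ⟨hp', hq'⟩ | ⟨hp', hq'⟩ | ⟨hp', hq'⟩
    · -- the first part
      have hN' : ∀ w, (w = p ∨ w = q) → (w ∈ D₁ ∨ w = a ∨ w = z) := by
        rintro w (rfl | rfl)
        · exact hp'
        · exact hq'
      have e : insert v (insert z (D₁ ∪ D₂ ∪ D₃)) = insert z (insert v D₁ ∪ D₂ ∪ D₃) := by
        ext x
        simp only [Finset.mem_insert, Finset.mem_union]
        clear * -
        tauto
      rw [e]
      refine Hangs.cons a b z (insert v D₁) D₂ D₃ hza hzb ?_ hz2 hz3 ?_ ha2 ha3 ?_ hb2 hb3 ?_ ?_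
        h23 ?_ hn2 hn3 ?_ ?_ hx23 (ih1 ?_ ha1 hz1 hva hvz hv1 ?_ hp' hq') H2 H3
      · simp only [Finset.mem_insert, not_or]
        exact ⟨fun h => hvz h.symm, hz1⟩
      · simp only [Finset.mem_insert, not_or]
        exact ⟨fun h => hva h.symm, ha1⟩
      · simp only [Finset.mem_insert, not_or]
        exact ⟨fun h => hvb h.symm, hb1⟩
      · rw [Finset.disjoint_insert_left]
        exact ⟨hv2, h12⟩
      · rw [Finset.disjoint_insert_left]
        exact ⟨hv3, h13⟩
      · intro x hx
        rcases Finset.mem_insert.mp hx with rfl | hx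
        · intro hadj
          rcases hN' b (hAb hadj) with h | h | h
          · exact hb1 h
          · exact hab h.symm
          · exact hzb h.symm
        · exact hn1 x hx
      · intro x hx w hw
        rcases Finset.mem_insert.mp hx with rfl | hx
        · intro hadj
          rcases hN' w (hA2 w hw hadj) with h | h | h
          · exact d12 w h hw
          · subst h
            exact ha2 hw
          · subst h
            exact hz2 hw
        · exact hx12 x hx w hw
      · intro x hx w hw
        rcases Finset.mem_insert.mp hx with rfl | hx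
        · intro hadj
          rcases hN' w (hA3 w hw hadj) with h | h | h
          · exact d13 w h hw
          · subst h
            exact ha3 hw
          · subst h
            exact hz3 hw
        · exact hx13 x hx w hw
      · exact fun h => hza h.symm
      · intro w hw hadj
        rcases hw with h | h | h
        · exact hA1 w h hadj
        · subst h
          exact hAa hadj
        · subst h
          exact hAz hadj
    · -- the second part
      have hN' : ∀ w, (w = p ∨ w = q) → (w ∈ D₂ ∨ w = b ∨ w = z) := by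
        rintro w (rfl | rfl)
        · exact hp'
        · exact hq'
      have e : insert v (insert z (D₁ ∪ D₂ ∪ D₃)) = insert z (D₁ ∪ insert v D₂ ∪ D₃) := by
        ext x
        simp only [Finset.mem_insert, Finset.mem_union]
        clear * -
        tauto
      rw [e]
      refine Hangs.cons a b z D₁ (insert v D₂) D₃ hza hzb hz1 ?_ hz3 ha1 ?_ ha3 hb1 ?_ hb3 ?_ h13
        ?_ hn1 ?_ hn3 ?_ hx13 ?_ H1 (ih2 ?_ hb2 hz2 hvb hvz hv2 ?_ hp' hq') H3
      · simp only [Finset.mem_insert, not_or]
        exact ⟨fun h => hvz h.symm, hz2⟩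
      · simp only [Finset.mem_insert, not_or]
        exact ⟨fun h => hva h.symm, ha2⟩
      · simp only [Finset.mem_insert, not_or]
        exact ⟨fun h => hvb h.symm, hb2⟩
      · rw [Finset.disjoint_insert_right]
        exact ⟨hv1, h12⟩
      · rw [Finset.disjoint_insert_left]
        exact ⟨hv3, h23⟩
      · intro x hx
        rcases Finset.mem_insert.mp hx with rfl | hx
        · intro hadj
          rcases hN' a (hAa hadj) with h | h | h
          · exact ha2 h
          · exact hab h
          · exact hza h.symm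
        · exact hn2 x hx
      · intro w hw x hx
        rcases Finset.mem_insert.mp hx with rfl | hx
        · intro hadj
          rcases hN' w (hA1 w hw hadj.symm) with h | h | h
          · exact d12 w hw h
          · subst h
            exact hb1 hw
          · subst h
            exact hz1 hw
        · exact hx12 w hw x hx
      · intro x hx w hw
        rcases Finset.mem_insert.mp hx with rfl | hx
        · intro hadj
          rcases hN' w (hA3 w hw hadj) with h | h | h
          · exact d23 w h hw
          · subst h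
            exact hb3 hw
          · subst h
            exact hz3 hw
        · exact hx23 x hx w hw
      · exact fun h => hzb h.symm
      · intro w hw hadj
        rcases hw with h | h | h
        · exact hA2 w h hadj
        · subst h
          exact hAb hadj
        · subst h
          exact hAz hadj
    · -- the third part
      have hN' : ∀ w, (w = p ∨ w = q) → (w ∈ D₃ ∨ w = a ∨ w = b) := by
        rintro w (rfl | rfl)
        · exact hp'
        · exact hq'
      have e : insert v (insert z (D₁ ∪ D₂ ∪ D₃)) = insert z (D₁ ∪ D₂ ∪ insert v D₃) := by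
        ext x
        simp only [Finset.mem_insert, Finset.mem_union]
        clear * -
        tauto
      rw [e]
      refine Hangs.cons a b z D₁ D₂ (insert v D₃) hza hzb hz1 hz2 ?_ ha1 ha2 ?_ hb1 hb2 ?_ h12 ?_
        ?_ hn1 hn2 ?_ hx12 ?_ ?_ H1 H2 (ih3 hab ha3 hb3 hva hvb hv3 ?_ hp' hq')
      · simp only [Finset.mem_insert, not_or]
        exact ⟨fun h => hvz h.symm, hz3⟩
      · simp only [Finset.mem_insert, not_or]
        exact ⟨fun h => hva h.symm, ha3⟩
      · simp only [Finset.mem_insert, not_or]
        exact ⟨fun h => hvb h.symm, hb3⟩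
      · rw [Finset.disjoint_insert_right]
        exact ⟨hv1, h13⟩
      · rw [Finset.disjoint_insert_right]
        exact ⟨hv2, h23⟩
      · intro x hx
        rcases Finset.mem_insert.mp hx with rfl | hx
        · intro hadj
          rcases hN' z (hAz hadj) with h | h | h
          · exact hz3 h
          · exact hza h
          · exact hzb h
        · exact hn3 x hx
      · intro w hw x hx
        rcases Finset.mem_insert.mp hx with rfl | hx
        · intro hadj
          rcases hN' w (hA1 w hw hadj.symm) with h | h | h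
          · exact d13 w hw h
          · subst h
            exact ha1 hw
          · subst h
            exact hb1 hw
        · exact hx13 w hw x hx
      · intro w hw x hx
        rcases Finset.mem_insert.mp hx with rfl | hx
        · intro hadj
          rcases hN' w (hA2 w hw hadj.symm) with h | h | h
          · exact d23 w hw h
          · subst h
            exact ha2 hw
          · subst h
            exact hb2 hw
        · exact hx23 w hw x hx
      · intro w hw hadj
        rcases hw with h | h | h
        · exact hA3 w h hadj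
        · subst h
          exact hAa hadj
        · subst h
          exact hAb hadj

theorem stHangs : StHangs := by
  intro V _ _ T rk hinj hel hcard
  obtain ⟨v0⟩ : Nonempty V := Fintype.card_pos_iff.mp (by omega)
  obtain ⟨a, -, ha⟩ := Finset.exists_min_image (Finset.univ : Finset V) rk ⟨v0, Finset.mem_univ _⟩
  have hne : (Finset.univ.erase a : Finset V).Nonempty := by
    rw [← Finset.card_pos, Finset.card_erase_of_mem (Finset.mem_univ _), Finset.card_univ]
    omega
  obtain ⟨b, hb0, hb⟩ := Finset.exists_min_image (Finset.univ.erase a : Finset V) rk hne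
  have hba : b ≠ a := (Finset.mem_erase.mp hb0).1
  refine ⟨a, b, hba.symm, ?_⟩
  have main : ∀ s : Finset V, s ⊆ (Finset.univ.erase a).erase b → Hangs T a b s := by
    intro s
    induction s using Finset.induction_on_max_value rk with
    | empty =>
      intro _
      exact Hangs.nil a b
    | insert v s hvs hmax ih =>
      intro hsub
      have hv : v ≠ b ∧ v ≠ a := by
        have := hsub (Finset.mem_insert_self v s)
        simp only [Finset.mem_erase, Finset.mem_univ, and_true] at this
        exact this
      have hs : s ⊆ (Finset.univ.erase a).erase b :=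
        fun x hx => hsub (Finset.mem_insert_of_mem hx)
      have haS : a ∉ s := by
        intro h
        have := hs h
        simp at this
      have hbS : b ∉ s := by
        intro h
        have := hs h
        simp at this
      have hlt : ∀ w, (w ∈ s ∨ w = a ∨ w = b) → rk w < rk v := by
        rintro w (hw | rfl | rfl)
        · exact lt_of_le_of_ne (hmax w hw) (fun h => hvs (by rw [← hinj h]; exact hw))
        · exact lt_of_le_of_ne (ha v (Finset.mem_univ _)) (fun h => hv.2 (hinj h).symm)
        · exact lt_of_le_of_ne (hb v (Finset.mem_erase.mpr ⟨hv.2, Finset.mem_univ _⟩))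
            (fun h => hv.1 (hinj h).symm)
      obtain ⟨hc, hcl⟩ := hel v
      have hfin : {w | T.Adj v w ∧ rk w < rk v}.Finite := Set.toFinite _
      have hex : ∃ p q : V, (p = q ∨ T.Adj p q) ∧ (p ∈ s ∨ p = a ∨ p = b) ∧
          (q ∈ s ∨ q = a ∨ q = b) ∧
          ∀ w, (w ∈ s ∨ w = a ∨ w = b) → T.Adj v w → w = p ∨ w = q := by
        by_cases h1 : ∃ p, (p ∈ s ∨ p = a ∨ p = b) ∧ T.Adj v p
        · obtain ⟨p, hp, hvp⟩ := h1
          by_cases h2 : ∃ q, (q ∈ s ∨ q = a ∨ q = b) ∧ T.Adj v q ∧ q ≠ p
          · obtain ⟨q, hq, hvq, hqp⟩ := h2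
            refine ⟨p, q, Or.inr (hcl p q hvp (hlt p hp) hvq (hlt q hq) hqp.symm), hp, hq, ?_⟩
            intro w hw hvw
            by_contra hcon
            push Not at hcon
            have h3 : ({p, q, w} : Finset V).card = 3 := by
              rw [Finset.card_eq_three]
              exact ⟨p, q, w, hqp.symm, hcon.1.symm, hcon.2.symm, rfl⟩
            have h4 : (({p, q, w} : Finset V) : Set V) ⊆ {w | T.Adj v w ∧ rk w < rk v} := by
              intro x hx
              simp only [Finset.coe_insert, Finset.coe_singleton, Set.mem_insert_iff,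
                Set.mem_singleton_iff] at hx
              rcases hx with rfl | rfl | rfl
              · exact ⟨hvp, hlt _ hp⟩
              · exact ⟨hvq, hlt _ hq⟩
              · exact ⟨hvw, hlt _ hw⟩
            have h5 := Set.ncard_le_ncard h4 hfin
            rw [Set.ncard_coe_finset, h3] at h5
            omega
          · push Not at h2
            refine ⟨p, p, Or.inl rfl, hp, hp, fun w hw hvw => Or.inl (h2 w hw hvw)⟩
        · push Not at h1
          exact ⟨a, a, Or.inl rfl, Or.inr (Or.inl rfl), Or.inr (Or.inl rfl),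
            fun w hw hvw => absurd hvw (h1 w hw)⟩
      obtain ⟨p, q, hpq, hp, hq, hN⟩ := hex
      exact Hangs.insertVertex v p q hpq (ih hs) hba.symm haS hbS hv.2 hv.1 hvs hN hp hq
  exact main _ subset_rfl

end Pool.Agent.Lib.MP_994fee_co
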