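import Pool.Agent.Lib.MP_994fee_co.Spec

/-!
# Hat guessing on graphs of treewidth at most two: canonical labels of a grid

Points of the grid are ordered lexicographically and labelled by a homogeneous sequence.
-/

namespace Pool.Agent.Lib.MP_994fee_co

namespace Key

open Finset

/-- The number of smaller elements. -/
noncomputable def rk {α : Type} [LinearOrder α] [Fintype α] (x : α) : ℕ :=
  (univ.filter (· < x)).card

theorem rk_strictMono {α : Type} [LinearOrder α] [Fintype α] : StrictMono (rk : α → ℕ) := by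
  intro x y hxy
  apply card_lt_card
  rw [ssubset_iff_of_subset]
  · exact ⟨x, by simpa using hxy, by simp⟩
  · intro z hz
    simp only [mem_filter, mem_univ, true_and] at hz ⊢
    exact hz.trans hxy

/-- Homogeneity for configurations inside an arbitrary finite linear order. -/
theorem homog {T : Type} (cl : T → Finset ℕ → Finset ℕ → ℕ → ℕ → Prop) (f : ℕ → ℕ) (N : ℕ)
    (hf : ∀ n ≤ N, ∀ u u' : Fin n → ℕ, StrictMono u → StrictMono u' →
      (fun (t : T) (P Q : Finset (Fin n)) (i₁ i₂ : Fin n) =>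
        cl t (P.image (f ∘ u)) (Q.image (f ∘ u)) ((f ∘ u) i₁) ((f ∘ u) i₂)) =
      (fun t P Q i₁ i₂ => cl t (P.image (f ∘ u')) (Q.image (f ∘ u')) ((f ∘ u') i₁) ((f ∘ u') i₂)))
    {α : Type} [LinearOrder α] (K : Finset α) (hK : K.card ≤ N) (u u' : α → ℕ)
    (hu : ∀ x ∈ K, ∀ y ∈ K, x < y → u x < u y) (hu' : ∀ x ∈ K, ∀ y ∈ K, x < y → u' x < u' y)
    (B L : Finset α) (hB : B ⊆ K) (hL : L ⊆ K) {x y : α} (hx : x ∈ K) (hy : y ∈ K) (t : T) :
    cl t (B.image fun z => f (u z)) (L.image fun z => f (u z)) (f (u x)) (f (u y)) ↔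
    cl t (B.image fun z => f (u' z)) (L.image fun z => f (u' z)) (f (u' x)) (f (u' y)) := by
  classical
  set e := K.orderEmbOfFin rfl with he
  have hr : ∀ z ∈ K, ∃ i, e i = z := by
    intro z hz
    have h1 : z ∈ Set.range ⇑(K.orderEmbOfFin rfl) := by
      rw [range_orderEmbOfFin]; exact hz
    exact h1
  have hS : ∀ S ⊆ K, ∀ w : α → ℕ,
      (univ.filter (fun i => e i ∈ S)).image (f ∘ (w ∘ e)) = S.image fun z => f (w z) := by
    intro S hSK w
    ext v
    simp only [mem_image, mem_filter, mem_univ, true_and, Function.comp]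
    constructor
    · rintro ⟨i, hi, rfl⟩
      exact ⟨e i, hi, rfl⟩
    · rintro ⟨z, hz, rfl⟩
      obtain ⟨i, rfl⟩ := hr z (hSK hz)
      exact ⟨i, hz, rfl⟩
  have hm : ∀ w : α → ℕ, (∀ x ∈ K, ∀ y ∈ K, x < y → w x < w y) → StrictMono (w ∘ e) := by
    intro w hw i j hij
    exact hw _ (orderEmbOfFin_mem K rfl i) _ (orderEmbOfFin_mem K rfl j) (e.strictMono hij)
  obtain ⟨i, hi⟩ := hr x hx
  obtain ⟨j, hj⟩ := hr y hy
  have h := hf K.card hK (u ∘ e) (u' ∘ e) (hm u hu) (hm u' hu')
  have h1 := congrFun (congrFun (congrFun (congrFun (congrFun h t)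
    (univ.filter (fun i => e i ∈ B))) (univ.filter (fun i => e i ∈ L))) i) j
  simp only [hS B hB, hS L hL] at h1
  simp only [Function.comp, hi, hj] at h1
  rw [h1]

/-- The numbers below five as coordinates. -/
def c5 {R : ℕ} (s : Fin 5) : Fin (4 * R + 8) := ⟨s, by omega⟩

theorem c5_lt {R : ℕ} (s : Fin 5) : ((c5 s : Fin (4 * R + 8)) : ℕ) < 5 := s.2

/-- Extension of a function on `Fin 5` to all coordinates. -/
def ext5 {R : ℕ} (E : Fin 5 → Fin (4 * R + 8)) (x : Fin (4 * R + 8)) : Fin (4 * R + 8) :=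
  if h : (x : ℕ) < 5 then E ⟨x, h⟩ else x

theorem ext5_c5 {R : ℕ} (E : Fin 5 → Fin (4 * R + 8)) (s : Fin 5) : ext5 E (c5 s) = E s := by
  unfold ext5
  rw [dif_pos (c5_lt s)]
  rfl

theorem ext5_lt {R : ℕ} {E : Fin 5 → Fin (4 * R + 8)} (hE : StrictMono E)
    {x y : Fin (4 * R + 8)} (hy : (y : ℕ) < 5) (hxy : x < y) : ext5 E x < ext5 E y := by
  have hx : (x : ℕ) < 5 := lt_trans hxy hy
  unfold ext5
  rw [dif_pos hx, dif_pos hy]
  exact hE hxy

/-- The points of the canonical box. -/
def bp {R : ℕ} (a : Fin 4) (F : Fin 5 → Fin (4 * R + 8)) (w : Fin 4 → Fin 5) :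
    Lex (Fin 4 → Fin (4 * R + 8)) :=
  toLex (Function.update (fun l => c5 (w l)) a (F (w a)))

/-- The points of the canonical line. -/
def lnp {R : ℕ} (a : Fin 4) (r : Fin 4 → Fin 5) (v : Fin R) :
    Lex (Fin 4 → Fin (4 * R + 8)) :=
  toLex (Function.update (fun l => c5 (r l)) a (row v))

theorem lnp_congr {R : ℕ} (a : Fin 4) (r r' : Fin 4 → Fin 5) (h : ∀ l, l ≠ a → r l = r' l) :
    (lnp a r : Fin R → _) = lnp a r' := by
  funext v
  unfold lnp
  congr 1
  funext l
  by_cases hl : l = a
  · subst hl; simp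
  · simp [hl, h l hl]

/-- The embedding of the canonical configuration. -/
noncomputable def G {N R : ℕ} (a : Fin 4) (β : Fin 4 → Fin N) (E : Fin 4 → Fin 5 → Fin (4 * R + 8))
    (c : Fin N → Fin (4 * R + 8)) (w : Lex (Fin 4 → Fin (4 * R + 8))) :
    Lex (Fin N → Fin (4 * R + 8)) :=
  toLex (upd c β fun l => if l = a then ofLex w l else ext5 (E l) (ofLex w l))

theorem upd_apply {N M : ℕ} (c : Fin N → Fin M) {β : Fin 4 → Fin N} (hβ : Function.Injective β)
    (g : Fin 4 → Fin M) (l : Fin 4) : upd c β g (β l) = g l := by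
  unfold upd
  have h : ∃ l', β l' = β l := ⟨l, rfl⟩
  rw [dif_pos h]
  congr 1
  exact hβ h.choose_spec

theorem upd_of_not {N M : ℕ} (c : Fin N → Fin M) {β : Fin 4 → Fin N}
    (g : Fin 4 → Fin M) {n : Fin N} (hn : ¬ ∃ l, β l = n) : upd c β g n = c n := by
  unfold upd
  rw [dif_neg hn]

theorem G_bp {N R : ℕ} (a : Fin 4) (β : Fin 4 → Fin N) (E : Fin 4 → Fin 5 → Fin (4 * R + 8))
    (c : Fin N → Fin (4 * R + 8)) (w : Fin 4 → Fin 5) :
    G a β E c (bp a (E a) w) = toLex (upd c β fun l => E l (w l)) := by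
  unfold G bp
  congr 2
  funext l
  by_cases hl : l = a
  · subst hl; simp
  · simp [hl, ext5_c5]

theorem G_lnp {N R : ℕ} (a : Fin 4) (β : Fin 4 → Fin N) (hβ : Function.Injective β)
    (E : Fin 4 → Fin 5 → Fin (4 * R + 8))
    (c : Fin N → Fin (4 * R + 8)) (r : Fin 4 → Fin 5) (hc : ∀ l, l ≠ a → c (β l) = E l (r l))
    (v : Fin R) :
    G a β E c (lnp a r v) = toLex (Function.update c (β a) (row v)) := by
  unfold G lnp
  congr 1
  funext n
  by_cases hn : ∃ l, β l = n
  · obtain ⟨l, rfl⟩ := hn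
    rw [upd_apply c hβ]
    by_cases hl : l = a
    · subst hl; simp
    · have : β l ≠ β a := fun h => hl (hβ h)
      simp [hl, ext5_c5, this, hc l hl]
  · rw [upd_of_not c _ hn]
    have : n ≠ β a := fun h => hn ⟨a, h.symm⟩
    simp [this]

theorem G_lt {N R : ℕ} (a : Fin 4) (β : Fin 4 → Fin N) (hβ : StrictMono β)
    (E : Fin 4 → Fin 5 → Fin (4 * R + 8)) (hE : ∀ l, StrictMono (E l))
    (c : Fin N → Fin (4 * R + 8)) (w w' : Lex (Fin 4 → Fin (4 * R + 8)))
    (hw' : ∀ l, l ≠ a → (ofLex w' l : ℕ) < 5) (h : w < w') : G a β E c w < G a β E c w' := by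
  obtain ⟨i, hi, hlt⟩ : ∃ i, (∀ j, j < i → ofLex w j = ofLex w' j) ∧ ofLex w i < ofLex w' i := h
  refine ⟨β i, ?_, ?_⟩
  · intro n hn
    change upd c β (fun l => if l = a then ofLex w l else ext5 (E l) (ofLex w l)) n =
      upd c β (fun l => if l = a then ofLex w' l else ext5 (E l) (ofLex w' l)) n
    by_cases hex : ∃ l, β l = n
    · obtain ⟨l, rfl⟩ := hex
      rw [upd_apply c hβ.injective, upd_apply c hβ.injective, hi l (hβ.lt_iff_lt.1 hn)]
    · rw [upd_of_not c _ hex, upd_of_not c _ hex]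
  · change upd c β (fun l => if l = a then ofLex w l else ext5 (E l) (ofLex w l)) (β i) <
      upd c β (fun l => if l = a then ofLex w' l else ext5 (E l) (ofLex w' l)) (β i)
    rw [upd_apply c hβ.injective, upd_apply c hβ.injective]
    by_cases hia : i = a
    · simp only [hia, if_true] at hlt ⊢
      exact hlt
    · simp only [hia, if_false]
      exact ext5_lt (hE i) (hw' i hia) hlt

end Key

open Key Finset in
theorem stKey (h : StRamsey) : StKey := by
  classical
  intro T hT R N cl
  obtain ⟨f, hf, hom⟩ := h (fun n => T → Finset (Fin n) → Finset (Fin n) → Fin n → Fin n → Prop)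
    (fun n => by
      have h1 : Finite (Finset (Fin n) → Fin n → Fin n → Prop) := inferInstance
      have h2 : Finite (Finset (Fin n) → Finset (Fin n) → Fin n → Fin n → Prop) :=
        @Pi.finite _ _ _ fun _ => h1
      exact @Pi.finite _ _ hT fun _ => h2)
    (fun n v => fun t P Q i₁ i₂ => cl t (P.image v) (Q.image v) (v i₁) (v i₂)) ((4 * R + 8) ^ 4)
  refine ⟨fun c => f (rk (toLex c)), ?_, ?_⟩
  · intro c c' hcc
    exact toLex.injective (rk_strictMono.injective (hf.injective hcc))
  refine ⟨fun t a r p p' j j' =>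
    cl t ((univ.image (bp a (chain p p' j j'))).image fun z => f (rk z))
      ((univ.image (lnp a r : Fin R → _)).image fun z => f (rk z))
      (f (rk (lnp a r j))) (f (rk (lnp a r j'))), ?_, ?_⟩
  · intro t a r r' hrr
    funext p p' j j'
    simp only [lnp_congr a r r' hrr]
  · intro t a β E c r p p' j j' hβ hE hc hp hj hEa
    have hcard : (univ.image (bp a (chain p p' j j')) ∪ univ.image (lnp a r : Fin R → _)).card ≤
        (4 * R + 8) ^ 4 := by
      refine (card_le_univ _).trans ?_
      rw [Fintype.card_lex]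
      simp
    have hK : ∀ z ∈ (univ.image (bp a (chain p p' j j')) ∪ univ.image (lnp a r : Fin R → _)),
        ∀ l, l ≠ a → (ofLex z l : ℕ) < 5 := by
      intro z hz l hl
      rw [mem_union, mem_image, mem_image] at hz
      rcases hz with ⟨w, -, rfl⟩ | ⟨v, -, rfl⟩
      · simp [bp, hl, c5]
      · simp [lnp, hl, c5]
    have key := homog cl f ((4 * R + 8) ^ 4) hom
      (univ.image (bp a (chain p p' j j')) ∪ univ.image (lnp a r : Fin R → _)) hcard
      (fun z => rk (G a β E c z)) rk
      (fun x hx y hy hxy => rk_strictMono (G_lt a β hβ E hE c x y (hK y hy) hxy))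
      (fun x _ y _ hxy => rk_strictMono hxy)
      (univ.image (bp a (chain p p' j j'))) (univ.image (lnp a r : Fin R → _))
      subset_union_left subset_union_right
      (mem_union_right _ (mem_image_of_mem _ (mem_univ j)))
      (mem_union_right _ (mem_image_of_mem _ (mem_univ j'))) t
    change cl t (box (fun c => f (rk (toLex c))) c β E) (line (fun c => f (rk (toLex c))) c (β a))
      (f (rk (toLex (Function.update c (β a) (row j)))))
      (f (rk (toLex (Function.update c (β a) (row j'))))) ↔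
      cl t ((univ.image (bp a (chain p p' j j'))).image fun z => f (rk z))
      ((univ.image (lnp a r : Fin R → _)).image fun z => f (rk z))
      (f (rk (lnp a r j))) (f (rk (lnp a r j')))
    rw [← key]
    rw [image_image, image_image]
    have e1 : (univ.image ((fun z => f (rk (G a β E c z))) ∘ bp a (chain p p' j j'))) =
        box (fun c => f (rk (toLex c))) c β E := by
      unfold box
      apply image_congr
      intro w _
      simp only [Function.comp]
      rw [← hEa, G_bp]
    have e2 : (univ.image ((fun z => f (rk (G a β E c z))) ∘ (lnp a r : Fin R → _))) =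
        line (fun c => f (rk (toLex c))) c (β a) := by
      unfold line
      apply image_congr
      intro v _
      simp only [Function.comp]
      rw [G_lnp a β hβ.injective E c r hc]
    rw [e1, e2, G_lnp a β hβ.injective E c r hc, G_lnp a β hβ.injective E c r hc]

end Pool.Agent.Lib.MP_994fee_co
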