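import Mathlib

/-!
# Levelled pair graphs: the single vertex game, with `s` guesses

Adjacent vertices have different levels, every vertex has at most two neighbours of smaller level,
and these two have the same level. Then `s * (s + 1) ^ 2 + 1` colours lose against `s` guesses.
-/

set_option autoImplicit false
set_option linter.unusedSectionVars false

namespace Pool.Agent.Lib.MP_994fee_co.Lev61

open Finset Function

section Game

variable {V : Type} [DecidableEq V] (G : SimpleGraph V) (S : Finset V) (lev : V → ℕ) (s q : ℕ)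
  (g : V → (V → ℕ) → Finset ℕ)

open Classical in
/-- The neighbours of smaller level. -/
noncomputable def low (v : V) : Finset V := S.filter (fun w => G.Adj v w ∧ lev w < lev v)

/-- All lower neighbours are below level `i`. -/
def Ab (i : ℕ) (v : V) : Prop := ∀ w ∈ low G S lev v, lev w < i

/-- The colouring `c` extends to the levels at least `i`. -/
def WW (i : ℕ) (c : V → ℕ) : Prop :=
  ∃ c' : V → ℕ, (∀ v, c' v < q) ∧ (∀ v ∈ S, Ab G S lev i v → c' v = c v) ∧
    ∀ v ∈ S, i ≤ lev v → c' v ∉ g v c'

open Classical in
/-- The online game: every next vertex has at most `s` forbidden colours. -/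
def Big (i : ℕ) : List V → Finset V → (V → ℕ) → Prop
  | [], D, c => ∀ c' : V → ℕ, (∀ v, c' v < q) → (∀ v ∈ D, c' v = c v) → WW G S lev q g i c'
  | y :: l, D, c => ∀ c' : V → ℕ, (∀ v, c' v < q) → (∀ v ∈ D, c' v = c v) →
      ∃ F : Finset ℕ, F.card ≤ s ∧ ∀ a < q, a ∉ F →
        Big i l (D ∪ low G S lev y ∪ {y}) (update c' y a)

open Classical in
/-- The vertex `v` survives the remaining list. -/
def Safe (v : V) : List V → (V → ℕ) → Prop
  | [], c => c v ∉ g v c
  | y :: l, c => if G.Adj v y then
      ∀ F : Finset ℕ, F.card ≤ s * (s + 1) → ∃ a < q, a ∉ F ∧ Safe v l (update c y a)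
      else Safe v l c

open Classical in
/-- The children of `u` whose other parents are in `P`. -/
noncomputable def ch (i : ℕ) (P : Finset V) (u : V) : List V :=
  (S.filter (fun z => i + 1 ≤ lev z ∧ Ab G S lev (i + 1) z ∧ u ∈ low G S lev z ∧
    ∀ w ∈ low G S lev z, w = u ∨ w ∈ P)).toList

open Classical in
/-- The list of the next game. -/
noncomputable def expand (i : ℕ) : Finset V → List V → List V
  | _, [] => []
  | P, y :: l => (if lev y = i then ch G S lev i P y else [y]) ++ expand i (insert y P) l

end Game

section Basic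

variable {V : Type} [DecidableEq V] {G : SimpleGraph V} {S : Finset V} {lev : V → ℕ} {s q : ℕ}
  {g : V → (V → ℕ) → Finset ℕ}


lemma mem_low {v w : V} : w ∈ low G S lev v ↔ w ∈ S ∧ G.Adj v w ∧ lev w < lev v := by
  simp [low]


lemma mem_ch {i : ℕ} {P : Finset V} {u z : V} : z ∈ ch G S lev i P u ↔
    z ∈ S ∧ i + 1 ≤ lev z ∧ Ab G S lev (i + 1) z ∧ u ∈ low G S lev z ∧
      ∀ w ∈ low G S lev z, w = u ∨ w ∈ P := by
  simp [ch]


lemma Ab.mono {i : ℕ} {v : V} (h : Ab G S lev i v) : Ab G S lev (i + 1) v :=
  fun w hw => lt_trans (h w hw) (Nat.lt_succ_self i)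


lemma ab_of_le {i : ℕ} {v : V} (h : lev v ≤ i) : Ab G S lev i v :=
  fun _ hw => lt_of_lt_of_le (mem_low.1 hw).2.2 h

lemma exists_color {F : Finset ℕ} (h : F.card < q) : ∃ a < q, a ∉ F := by
  by_contra hne
  push Not at hne
  have : Finset.range q ⊆ F := fun a ha => hne a (Finset.mem_range.1 ha)
  have := Finset.card_le_card this
  rw [Finset.card_range] at this
  omega

lemma safe_congr (hg : ∀ v ∈ S, ∀ c c' : V → ℕ,
      (∀ u ∈ S, G.Adj v u → c u = c' u) → g v c = g v c') {v : V} (hv : v ∈ S) :
    ∀ (l : List V) (c c' : V → ℕ), c v = c' v →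
      (∀ u ∈ S, G.Adj v u → u ∉ l → c u = c' u) →
      Safe G s q g v l c → Safe G s q g v l c' := by
  intro l
  induction l with
  | nil =>
    intro c c' h1 h2 h
    simp only [Safe] at h ⊢
    rw [← h1, ← hg v hv c c' (fun u hu huv => h2 u hu huv (List.not_mem_nil))]
    exact h
  | cons y l ih =>
    intro c c' h1 h2 h
    simp only [Safe] at h ⊢
    by_cases hy : G.Adj v y
    · rw [if_pos hy] at h ⊢
      intro F hF
      obtain ⟨a, ha, haF, hs⟩ := h F hF
      refine ⟨a, ha, haF, ih _ _ ?_ ?_ hs⟩
      · rw [update_of_ne hy.ne, update_of_ne hy.ne]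
        exact h1
      · intro u hu huv hul
        by_cases huy : u = y
        · subst huy
          rw [update_self, update_self]
        · rw [update_of_ne huy, update_of_ne huy]
          refine h2 u hu huv ?_
          rw [List.mem_cons]
          push Not
          exact ⟨huy, hul⟩
    · rw [if_neg hy] at h ⊢
      refine ih _ _ h1 ?_ h
      intro u hu huv hul
      refine h2 u hu huv ?_
      rw [List.mem_cons]
      push Not
      refine ⟨?_, hul⟩
      rintro rfl
      exact hy huv

/-- Among `s + 1` colours one is safe. -/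
lemma dich (hg : ∀ v ∈ S, ∀ c c' : V → ℕ,
      (∀ u ∈ S, G.Adj v u → c u = c' u) → g v c = g v c')
    (hgs : ∀ v ∈ S, ∀ c, (g v c).card ≤ s) (hq : s * (s + 1) ^ 2 < q) {v : V} (hv : v ∈ S)
    {L : Finset ℕ} (hL : L.card = s + 1) :
    ∀ (l : List V) (c : V → ℕ), v ∉ l → ∃ a ∈ L, Safe G s q g v l (update c v a) := by
  intro l
  induction l with
  | nil =>
    intro c _
    by_contra hne
    push Not at hne
    have hsub : L ⊆ g v c := by
      intro a ha
      have h1 := hne a ha
      simp only [Safe, not_not] at h1
      rw [update_self] at h1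
      rw [hg v hv c (update c v a)]
      · exact h1
      · intro u _ huv
        rw [update_of_ne huv.ne']
    have := Finset.card_le_card hsub
    have := hgs v hv c
    omega
  | cons y l ih =>
    intro c hvl
    rw [List.mem_cons] at hvl
    push Not at hvl
    by_cases hy : G.Adj v y
    · by_contra hne
      push Not at hne
      have h1 : ∀ a ∈ L, ∃ F : Finset ℕ, F.card ≤ s * (s + 1) ∧ ∀ b < q, b ∉ F →
          ¬ Safe G s q g v l (update (update c v a) y b) := by
        intro a ha
        have h2 := hne a ha
        simp only [Safe] at h2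
        rw [if_pos hy] at h2
        push Not at h2
        exact h2
      choose! F hF hFb using h1
      have hcard : (L.biUnion F).card < q := by
        calc (L.biUnion F).card ≤ ∑ a ∈ L, (F a).card := Finset.card_biUnion_le
          _ ≤ ∑ _a ∈ L, s * (s + 1) := Finset.sum_le_sum (fun a ha => hF a ha)
          _ = (s + 1) * (s * (s + 1)) := by rw [Finset.sum_const, hL, smul_eq_mul]
          _ = s * (s + 1) ^ 2 := by ring
          _ < q := hq
      obtain ⟨b, hb, hbF⟩ := exists_color hcard
      obtain ⟨a, ha, hs⟩ := ih (update c y b) hvl.2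
      refine hFb a ha b hb (fun hmem => hbF (Finset.mem_biUnion.2 ⟨a, ha, hmem⟩)) ?_
      rw [update_comm hy.ne]
      exact hs
    · obtain ⟨a, ha, hs⟩ := ih c hvl.2
      refine ⟨a, ha, ?_⟩
      simp only [Safe]
      rw [if_neg hy]
      exact hs

/-! ### The expanded list -/

lemma mem_expand {i : ℕ} {v : V} : ∀ (l : List V) (P : Finset V),
    v ∈ expand G S lev i P l → (v ∈ l ∧ lev v ≠ i) ∨
      (i + 1 ≤ lev v ∧ v ∈ S ∧ Ab G S lev (i + 1) v ∧
        (∃ u ∈ l, lev u = i ∧ u ∈ low G S lev v) ∧ ∀ w ∈ low G S lev v, w ∈ P ∨ w ∈ l) := by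
  intro l
  induction l with
  | nil =>
    intro P h
    simp [expand] at h
  | cons y l ih =>
    intro P h
    rw [expand, List.mem_append] at h
    rcases h with h | h
    · by_cases hy : lev y = i
      · rw [if_pos hy, mem_ch] at h
        obtain ⟨h1, h2, h3, h4, h5⟩ := h
        refine Or.inr ⟨h2, h1, h3, ⟨y, List.mem_cons_self, hy, h4⟩, ?_⟩
        intro w hw
        rcases h5 w hw with h6 | h6
        · exact Or.inr (h6 ▸ List.mem_cons_self)
        · exact Or.inl h6
      · rw [if_neg hy, List.mem_singleton] at h
        subst h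
        exact Or.inl ⟨List.mem_cons_self, hy⟩
    · rcases ih _ h with ⟨h1, h2⟩ | ⟨h1, h2, h3, ⟨u, h4, h5, h6⟩, h7⟩
      · exact Or.inl ⟨List.mem_cons_of_mem _ h1, h2⟩
      · refine Or.inr ⟨h1, h2, h3, ⟨u, List.mem_cons_of_mem _ h4, h5, h6⟩, ?_⟩
        intro w hw
        rcases h7 w hw with h8 | h8
        · rcases Finset.mem_insert.1 h8 with h9 | h9
          · exact Or.inr (h9 ▸ List.mem_cons_self)
          · exact Or.inl h9
        · exact Or.inr (List.mem_cons_of_mem _ h8)

lemma mem_expand_of {i : ℕ} {v : V} (h1 : v ∈ S) (h2 : i + 1 ≤ lev v)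
    (h3 : Ab G S lev (i + 1) v) (h4 : ∀ w ∈ low G S lev v, lev w = i) :
    ∀ (l : List V) (P : Finset V), (∀ w ∈ low G S lev v, w ∈ P ∨ w ∈ l) →
      (∃ w ∈ low G S lev v, w ∈ l) → v ∈ expand G S lev i P l := by
  intro l
  induction l with
  | nil =>
    rintro P _ ⟨w, _, hw⟩
    exact absurd hw List.not_mem_nil
  | cons y l ih =>
    rintro P hP ⟨w, hw, hwl⟩
    rw [expand, List.mem_append]
    by_cases hy : y ∈ low G S lev v ∧ ∀ w ∈ low G S lev v, w = y ∨ w ∈ P
    · left
      rw [if_pos (h4 y hy.1), mem_ch]
      exact ⟨h1, h2, h3, hy.1, hy.2⟩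
    · right
      refine ih _ ?_ ?_
      · intro w hw
        rcases hP w hw with h | h
        · exact Or.inl (Finset.mem_insert_of_mem h)
        · rcases List.mem_cons.1 h with h | h
          · exact Or.inl (Finset.mem_insert.2 (Or.inl h))
          · exact Or.inr h
      · by_cases hyv : y ∈ low G S lev v
        · have h5 : ¬ ∀ w ∈ low G S lev v, w = y ∨ w ∈ P := fun h => hy ⟨hyv, h⟩
          push Not at h5
          obtain ⟨w', hw', hne, hnP⟩ := h5
          refine ⟨w', hw', ?_⟩
          rcases hP w' hw' with h | h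
          · exact absurd h hnP
          · rcases List.mem_cons.1 h with h | h
            · exact absurd h hne
            · exact h
        · refine ⟨w, hw, ?_⟩
          rcases List.mem_cons.1 hwl with h | h
          · exact absurd (h ▸ hw) hyv
          · exact h

lemma mem_expand_ext {i : ℕ} {v : V} (h1 : lev v ≠ i) :
    ∀ (l : List V) (P : Finset V), v ∈ l → v ∈ expand G S lev i P l := by
  intro l
  induction l with
  | nil =>
    intro P h
    exact absurd h List.not_mem_nil
  | cons y l ih =>
    intro P h
    rw [expand, List.mem_append]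
    rcases List.mem_cons.1 h with h | h
    · subst h
      left
      rw [if_neg h1]
      exact List.mem_singleton.2 rfl
    · exact Or.inr (ih _ h)

lemma nodup_expand {i : ℕ} : ∀ (l : List V) (P : Finset V), l.Nodup → (∀ v ∈ l, v ∉ P) →
    (∀ v ∈ l, Ab G S lev i v) → (expand G S lev i P l).Nodup := by
  intro l
  induction l with
  | nil =>
    intro P _ _ _
    simp [expand]
  | cons y l ih =>
    intro P hl hP hA
    rw [List.nodup_cons] at hl
    rw [expand, List.nodup_append]
    have hrec := ih (insert y P) hl.2 (by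
      intro v hv hvP
      rcases Finset.mem_insert.1 hvP with h | h
      · exact hl.1 (h ▸ hv)
      · exact hP v (List.mem_cons_of_mem _ hv) h) (fun v hv => hA v (List.mem_cons_of_mem _ hv))
    refine ⟨?_, hrec, ?_⟩
    · by_cases hy : lev y = i
      · rw [if_pos hy]
        exact Finset.nodup_toList _
      · rw [if_neg hy]
        exact List.nodup_singleton _
    · intro a ha b hb hab
      subst hab
      by_cases hy : lev y = i
      · rw [if_pos hy, mem_ch] at ha
        obtain ⟨a1, a2, a3, a4, a5⟩ := ha
        rcases mem_expand _ _ hb with ⟨b1, b2⟩ | ⟨b1, b2, b3, ⟨u, b4, b5, b6⟩, b7⟩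
        · have := hA a (List.mem_cons_of_mem _ b1) y a4
          omega
        · rcases a5 u b6 with h | h
          · exact hl.1 (h ▸ b4)
          · exact hP u (List.mem_cons_of_mem _ b4) h
      · rw [if_neg hy, List.mem_singleton] at ha
        subst ha
        rcases mem_expand _ _ hb with ⟨b1, b2⟩ | ⟨b1, b2, b3, ⟨u, b4, b5, b6⟩, b7⟩
        · exact hl.1 b1
        · have := hA a List.mem_cons_self u b6
          omega

/-! ### The game -/

lemma big_congr {i : ℕ} {l : List V} {D : Finset V} {c c' : V → ℕ}
    (h : Big G S lev s q g i l D c) (hc : ∀ v ∈ D, c' v = c v) : Big G S lev s q g i l D c' := by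
  cases l with
  | nil =>
    intro c'' h1 h2
    exact h c'' h1 (fun v hv => by rw [h2 v hv, hc v hv])
  | cons y l =>
    intro c'' h1 h2
    exact h c'' h1 (fun v hv => by rw [h2 v hv, hc v hv])

lemma big_exists {i : ℕ} (hsq : s < q) : ∀ (l : List V) (D : Finset V) (c : V → ℕ),
    (∀ v, c v < q) → Big G S lev s q g i l D c → ∃ c' : V → ℕ, WW G S lev q g i c' := by
  intro l
  induction l with
  | nil =>
    intro D c hc h
    exact ⟨c, h c hc (fun _ _ => rfl)⟩
  | cons y l ih =>
    intro D c hc h
    obtain ⟨F, hF, hFa⟩ := h c hc (fun _ _ => rfl)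
    obtain ⟨a, ha, haF⟩ := exists_color (lt_of_le_of_lt hF hsq)
    refine ih _ (update c y a) ?_ (hFa a ha haF)
    intro v
    by_cases hv : v = y
    · rw [hv, update_self]
      exact ha
    · rw [update_of_ne hv]
      exact hc v

lemma update_lt {c : V → ℕ} (hc : ∀ v, c v < q) {y : V} {a : ℕ} (ha : a < q) :
    ∀ v, update c y a v < q := by
  intro v
  by_cases hv : v = y
  · rw [hv, update_self]
    exact ha
  · rw [update_of_ne hv]
    exact hc v

/-- The block of a vertex `u`: all colours of `L` for `u` are kept alive. -/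
lemma block {i : ℕ} {u : V} {P : Finset V} {L : Finset ℕ} (hL : L.card = s + 1)
    (hg : ∀ v ∈ S, ∀ c c' : V → ℕ,
      (∀ u ∈ S, G.Adj v u → c u = c' u) → g v c = g v c')
    (hLq : ∀ a ∈ L, a < q) (hq : s * (s + 1) < q) (hPS : ∀ v ∈ P, v ∈ S)
    (rest : List V) :
    ∀ (bs : List V) (D : Finset V) (c : V → ℕ), (∀ v, c v < q) →
      (∀ z ∈ bs, z ≠ u ∧ z ∉ P ∧ ∀ w ∈ P, ∀ w' ∈ P, G.Adj w z → G.Adj w' z →
        lev w = i → lev w' = i → w = w') →
      (∀ a ∈ L, Big G S lev s q g i.succ (bs ++ rest) D (update c u a)) →
      (∀ w ∈ P, lev w = i → Safe G s q g w (bs ++ rest) c) →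
      ∃ (c₂ : V → ℕ) (D₂ : Finset V), (∀ v, c₂ v < q) ∧ (∀ v, v ∉ bs → c₂ v = c v) ∧
        (∀ v ∈ D₂, v ∈ D ∨ v ∈ bs ∨ ∃ z ∈ bs, v ∈ low G S lev z) ∧
        (∀ a ∈ L, Big G S lev s q g i.succ rest D₂ (update c₂ u a)) ∧
        (∀ w ∈ P, lev w = i → Safe G s q g w rest c₂) := by
  intro bs
  induction bs with
  | nil =>
    intro D c hc _ hbig hsafe
    exact ⟨c, D, hc, fun _ _ => rfl, fun v hv => Or.inl hv, hbig, hsafe⟩
  | cons z bs ih =>
    intro D c hc hbs hbig hsafe
    obtain ⟨hzu, hzP, huniq⟩ := hbs z List.mem_cons_self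
    have h1 : ∀ a ∈ L, ∃ F : Finset ℕ, F.card ≤ s ∧ ∀ b < q, b ∉ F →
        Big G S lev s q g i.succ (bs ++ rest) (D ∪ low G S lev z ∪ {z})
          (update (update c u a) z b) := by
      intro a ha
      exact hbig a ha (update c u a) (update_lt hc (hLq a ha)) (fun _ _ => rfl)
    choose! F hF hFb using h1
    have hcard : (L.biUnion F).card ≤ s * (s + 1) := by
      calc (L.biUnion F).card ≤ ∑ a ∈ L, (F a).card := Finset.card_biUnion_le
        _ ≤ ∑ _a ∈ L, s := Finset.sum_le_sum (fun a ha => hF a ha)
        _ = (s + 1) * s := by rw [Finset.sum_const, hL, smul_eq_mul]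
        _ = s * (s + 1) := by ring
    -- the colour of `z`
    have h2 : ∃ b < q, b ∉ L.biUnion F ∧
        ∀ w ∈ P, lev w = i → Safe G s q g w (bs ++ rest) (update c z b) := by
      by_cases hex : ∃ w ∈ P, lev w = i ∧ G.Adj w z
      · obtain ⟨w, hwP, hwi, hwz⟩ := hex
        have h3 := hsafe w hwP hwi
        rw [List.cons_append, Safe, if_pos hwz] at h3
        obtain ⟨b, hb, hbF, hs⟩ := h3 _ hcard
        refine ⟨b, hb, hbF, ?_⟩
        intro w' hw'P hw'i
        by_cases hww : w' = w
        · rw [hww]
          exact hs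
        · have hnadj : ¬ G.Adj w' z := fun h => hww (huniq w' hw'P w hwP h hwz hw'i hwi)
          have h4 := hsafe w' hw'P hw'i
          rw [List.cons_append, Safe, if_neg hnadj] at h4
          refine safe_congr hg (hPS w' hw'P) _ _ _ ?_ ?_ h4
          · rw [update_of_ne]
            rintro rfl
            exact hzP hw'P
          · intro x _ hx _
            rw [update_of_ne]
            rintro rfl
            exact hnadj hx
      · push Not at hex
        obtain ⟨b, hb, hbF⟩ := exists_color (lt_of_le_of_lt hcard hq)
        refine ⟨b, hb, hbF, ?_⟩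
        intro w' hw'P hw'i
        have hnadj := hex w' hw'P hw'i
        have h4 := hsafe w' hw'P hw'i
        rw [List.cons_append, Safe, if_neg hnadj] at h4
        refine safe_congr hg (hPS w' hw'P) _ _ _ ?_ ?_ h4
        · rw [update_of_ne]
          rintro rfl
          exact hzP hw'P
        · intro x _ hx _
          rw [update_of_ne]
          rintro rfl
          exact hnadj hx
    obtain ⟨b, hb, hbF, hsb⟩ := h2
    obtain ⟨c₂, D₂, k1, k2, k3, k4, k5⟩ := ih (D ∪ low G S lev z ∪ {z}) (update c z b)
      (update_lt hc hb) (fun z' hz' => hbs z' (List.mem_cons_of_mem _ hz'))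
      (by
        intro a ha
        rw [← update_comm hzu.symm]
        refine hFb a ha b hb (fun hmem => hbF (Finset.mem_biUnion.2 ⟨a, ha, hmem⟩)))
      hsb
    refine ⟨c₂, D₂, k1, ?_, ?_, k4, k5⟩
    · intro v hv
      rw [List.mem_cons] at hv
      push Not at hv
      rw [k2 v hv.2, update_of_ne hv.1]
    · intro v hv
      rcases k3 v hv with h | h | ⟨z', hz', h⟩
      · rcases Finset.mem_union.1 h with h | h
        · rcases Finset.mem_union.1 h with h | h
          · exact Or.inl h
          · exact Or.inr (Or.inr ⟨z, List.mem_cons_self, h⟩)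
        · rw [Finset.mem_singleton] at h
          exact Or.inr (Or.inl (h ▸ List.mem_cons_self))
      · exact Or.inr (Or.inl (List.mem_cons_of_mem _ h))
      · exact Or.inr (Or.inr ⟨z', List.mem_cons_of_mem _ hz', h⟩)

/-- The simulation: one game inside the other. -/
lemma sim {i : ℕ} (hg : ∀ v ∈ S, ∀ c c' : V → ℕ,
      (∀ u ∈ S, G.Adj v u → c u = c' u) → g v c = g v c')
    (hgs : ∀ v ∈ S, ∀ c, (g v c).card ≤ s) (hq : s * (s + 1) ^ 2 < q)
    (hlev : ∀ v ∈ S, ∀ w ∈ S, G.Adj v w → lev v ≠ lev w)
    (hsame : ∀ v ∈ S, ∀ w ∈ low G S lev v, ∀ w' ∈ low G S lev v, lev w = lev w')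
    (hcard : ∀ v ∈ S, (low G S lev v).card ≤ 2) :
    ∀ (l : List V) (P D Dp : Finset V) (c ct : V → ℕ), l.Nodup →
      (∀ v ∈ l, v ∈ S ∧ i ≤ lev v ∧ Ab G S lev i v) → (∀ v ∈ l, v ∉ P) →
      (∀ v, c v < q) → (∀ v, ct v < q) → (∀ v ∈ P, v ∈ S ∧ Ab G S lev i v) →
      (∀ v ∈ S, i ≤ lev v → Ab G S lev i v → v ∈ P ∨ v ∈ l) →
      (∀ v ∈ P, v ∈ D ∧ low G S lev v ⊆ D) →
      (∀ v ∈ D, v ∈ S ∧ (v ∈ P ∨ lev v < i)) →
      (∀ v ∈ S, Ab G S lev i v → ct v = c v) →
      (∀ v ∈ Dp, v ∈ D ∨ (v ∈ S ∧ ¬ Ab G S lev i v)) →
      Big G S lev s q g (i + 1) (expand G S lev i P l) Dp ct →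
      (∀ u ∈ P, lev u = i → Safe G s q g u (expand G S lev i P l) ct) →
      Big G S lev s q g i l D c := by
  classical
  have hq1 : s * (s + 1) < q := by
    refine lt_of_le_of_lt ?_ hq
    nlinarith [Nat.zero_le s, Nat.zero_le (s * (s + 1))]
  intro l
  induction l with
  | nil =>
    intro P D Dp c ct _ _ _ hc hct hP hall hPD hDS hagree hDp hbig hsafe
    intro c' hc' hcD
    set c₁ : V → ℕ := fun v => if v ∈ S ∧ ¬ Ab G S lev i v then ct v else c' v with hc₁
    have e1 : ∀ v, v ∈ S → ¬ Ab G S lev i v → c₁ v = ct v := by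
      intro v h1 h2
      simp only [hc₁]
      rw [if_pos ⟨h1, h2⟩]
    have e2 : ∀ v, Ab G S lev i v → c₁ v = c' v := by
      intro v h1
      simp only [hc₁]
      rw [if_neg (fun h => h.2 h1)]
    have good : ∀ v, c₁ v < q := by
      intro v
      simp only [hc₁]
      split_ifs
      · exact hct v
      · exact hc' v
    have agD : ∀ v ∈ D, Ab G S lev i v → c₁ v = ct v := by
      intro v hv hA
      rw [e2 v hA, hcD v hv, hagree v (hDS v hv).1 hA]
    have agDp : ∀ v ∈ Dp, c₁ v = ct v := by
      intro v hv
      by_cases hA : Ab G S lev i v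
      · rcases hDp v hv with h | h
        · exact agD v h hA
        · exact absurd hA h.2
      · rcases hDp v hv with h | h
        · exact e1 v (hDS v h).1 hA
        · exact e1 v h.1 hA
    obtain ⟨c'', k1, k2, k3⟩ := hbig c₁ good agDp
    refine ⟨c'', k1, ?_, ?_⟩
    · intro v hv hA
      rw [k2 v hv hA.mono, e2 v hA]
    · intro v hv hiv
      rcases Nat.lt_or_ge i (lev v) with h | h
      · exact k3 v hv h
      · have hvi : lev v = i := le_antisymm h hiv
        have hA : Ab G S lev i v := ab_of_le h
        rcases hall v hv hiv hA with hvP | hvl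
        · have hs := hsafe v hvP hvi
          rw [expand, Safe] at hs
          have h1 : c'' v = ct v := by
            rw [k2 v hv hA.mono, agD v (hPD v hvP).1 hA]
          have h2 : g v c'' = g v ct := by
            refine hg v hv _ _ ?_
            intro w hw hvw
            rcases lt_trichotomy (lev w) (lev v) with hlt | heq | hgt
            · have hwl : w ∈ low G S lev v := mem_low.2 ⟨hw, hvw, hlt⟩
              have hAw : Ab G S lev i w := ab_of_le (by omega)
              rw [k2 w hw hAw.mono, agD w ((hPD v hvP).2 hwl) hAw]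
            · exact absurd heq.symm (hlev v hv w hw hvw)
            · have hvl : v ∈ low G S lev w := mem_low.2 ⟨hv, hvw.symm, hgt⟩
              have hnA : ¬ Ab G S lev i w := by
                intro h3
                have := h3 v hvl
                omega
              have hAw : Ab G S lev (i + 1) w := by
                intro x hx
                have := hsame w hw x hx v hvl
                omega
              rw [k2 w hw hAw, e1 w hw hnA]
          rw [h1, h2]
          exact hs
        · exact absurd hvl List.not_mem_nil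
  | cons y l ih =>
    intro P D Dp c ct hnd hl hlP hc hct hP hall hPD hDS hagree hDp hbig hsafe
    intro c' hc' hcD
    set c₁ : V → ℕ := fun v => if v ∈ S ∧ ¬ Ab G S lev i v then ct v else c' v with hc₁
    have e1 : ∀ v, v ∈ S → ¬ Ab G S lev i v → c₁ v = ct v := by
      intro v h1 h2
      simp only [hc₁]
      rw [if_pos ⟨h1, h2⟩]
    have e2 : ∀ v, Ab G S lev i v → c₁ v = c' v := by
      intro v h1
      simp only [hc₁]
      rw [if_neg (fun h => h.2 h1)]
    have good : ∀ v, c₁ v < q := by
      intro v
      simp only [hc₁]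
      split_ifs
      · exact hct v
      · exact hc' v
    have agD : ∀ v ∈ D, Ab G S lev i v → c₁ v = ct v := by
      intro v hv hA
      rw [e2 v hA, hcD v hv, hagree v (hDS v hv).1 hA]
    have agDp : ∀ v ∈ Dp, c₁ v = ct v := by
      intro v hv
      by_cases hA : Ab G S lev i v
      · rcases hDp v hv with h | h
        · exact agD v h hA
        · exact absurd hA h.2
      · rcases hDp v hv with h | h
        · exact e1 v (hDS v h).1 hA
        · exact e1 v h.1 hA
    have hsafe₁ : ∀ u ∈ P, lev u = i → Safe G s q g u (expand G S lev i P (y :: l)) c₁ := by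
      intro v hvP hvi
      have hv := (hP v hvP).1
      have hA := (hP v hvP).2
      refine safe_congr hg hv _ _ _ (agD v (hPD v hvP).1 hA).symm ?_ (hsafe v hvP hvi)
      intro w hw hvw _
      rcases lt_trichotomy (lev w) (lev v) with hlt | heq | hgt
      · have hwl : w ∈ low G S lev v := mem_low.2 ⟨hw, hvw, hlt⟩
        have hAw : Ab G S lev i w := ab_of_le (by omega)
        exact (agD w ((hPD v hvP).2 hwl) hAw).symm
      · exact absurd heq.symm (hlev v hv w hw hvw)
      · have hvl : v ∈ low G S lev w := mem_low.2 ⟨hv, hvw.symm, hgt⟩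
        refine (e1 w hw ?_).symm
        intro h3
        have := h3 v hvl
        omega
    rw [List.nodup_cons] at hnd
    obtain ⟨hyS, hiy, hyA⟩ := hl y List.mem_cons_self
    have hyP := hlP y List.mem_cons_self
    have hl' : ∀ v ∈ l, v ∈ S ∧ i ≤ lev v ∧ Ab G S lev i v :=
      fun v hv => hl v (List.mem_cons_of_mem _ hv)
    have hlP' : ∀ v ∈ l, v ∉ insert y P := by
      intro v hv hmem
      rcases Finset.mem_insert.1 hmem with h | h
      · exact hnd.1 (h ▸ hv)
      · exact hlP v (List.mem_cons_of_mem _ hv) h
    have hP' : ∀ v ∈ insert y P, v ∈ S ∧ Ab G S lev i v := by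
      intro v hv
      rcases Finset.mem_insert.1 hv with h | h
      · exact h ▸ ⟨hyS, hyA⟩
      · exact hP v h
    have hall' : ∀ v ∈ S, i ≤ lev v → Ab G S lev i v → v ∈ insert y P ∨ v ∈ l := by
      intro v h1 h2 h3
      rcases hall v h1 h2 h3 with h | h
      · exact Or.inl (Finset.mem_insert_of_mem h)
      · rcases List.mem_cons.1 h with h | h
        · exact Or.inl (Finset.mem_insert.2 (Or.inl h))
        · exact Or.inr h
    have hPD' : ∀ v ∈ insert y P, v ∈ D ∪ low G S lev y ∪ {y} ∧
        low G S lev v ⊆ D ∪ low G S lev y ∪ {y} := by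
      intro v hv
      rcases Finset.mem_insert.1 hv with h | h
      · subst h
        refine ⟨Finset.mem_union_right _ (Finset.mem_singleton_self _), ?_⟩
        intro w hw
        exact Finset.mem_union_left _ (Finset.mem_union_right _ hw)
      · refine ⟨Finset.mem_union_left _ (Finset.mem_union_left _ (hPD v h).1), ?_⟩
        intro w hw
        exact Finset.mem_union_left _ (Finset.mem_union_left _ ((hPD v h).2 hw))
    have hDS' : ∀ v ∈ D ∪ low G S lev y ∪ {y}, v ∈ S ∧ (v ∈ insert y P ∨ lev v < i) := by
      intro v hv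
      rcases Finset.mem_union.1 hv with h | h
      · rcases Finset.mem_union.1 h with h | h
        · obtain ⟨h1, h2⟩ := hDS v h
          refine ⟨h1, ?_⟩
          rcases h2 with h2 | h2
          · exact Or.inl (Finset.mem_insert_of_mem h2)
          · exact Or.inr h2
        · exact ⟨(mem_low.1 h).1, Or.inr (hyA v h)⟩
      · rw [Finset.mem_singleton] at h
        subst h
        exact ⟨hyS, Or.inl (Finset.mem_insert_self _ _)⟩
    by_cases hy : lev y = i
    · -- the block of a vertex of level `i`
      set rest := expand G S lev i (insert y P) l with hrest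
      have hexp : expand G S lev i P (y :: l) = ch G S lev i P y ++ rest := by
        rw [expand, if_pos hy]
      rw [hexp] at hbig hsafe₁
      have hyD : y ∉ D := by
        intro h
        rcases (hDS y h).2 with h | h
        · exact hyP h
        · omega
      have hyDp : y ∉ Dp := by
        intro h
        rcases hDp y h with h | h
        · exact hyD h
        · exact h.2 hyA
      have hyrest : y ∉ rest := by
        intro h
        rcases mem_expand _ _ h with ⟨_, h2⟩ | ⟨h2, _⟩
        · exact h2 hy
        · omega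
      have hbs0 : ∀ z ∈ ch G S lev i P y, z ∈ S ∧ ¬ Ab G S lev i z := by
        intro z hz
        obtain ⟨z1, z2, z3, z4, z5⟩ := mem_ch.1 hz
        refine ⟨z1, ?_⟩
        intro h
        have := h y z4
        omega
      have hclaim : ∀ L : Finset ℕ, L.card = s + 1 → (∀ a ∈ L, a < q) → ∃ a ∈ L,
          Big G S lev s q g i l (D ∪ low G S lev y ∪ {y}) (update c' y a) := by
        intro L hL hLq
        obtain ⟨c₂, D₂, b1, b2, b3, b4, b5⟩ := block (G := G) (S := S) (lev := lev) (g := g)
          (i := i) (u := y) (P := P) hL hg hLq hq1 (fun v hv => (hP v hv).1) rest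
          (ch G S lev i P y) Dp c₁ good
          (by
            intro z hz
            obtain ⟨z1, z2, z3, z4, z5⟩ := mem_ch.1 hz
            refine ⟨?_, ?_, ?_⟩
            · rintro rfl
              omega
            · intro hzP
              exact (hbs0 z hz).2 (hP z hzP).2
            · intro w hw w' hw' hwz hw'z hwi hw'i
              by_contra hne
              have h1 : w ∈ low G S lev z := mem_low.2 ⟨(hP w hw).1, hwz.symm, by omega⟩
              have h2 : w' ∈ low G S lev z := mem_low.2 ⟨(hP w' hw').1, hw'z.symm, by omega⟩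
              have h3 : ({y, w, w'} : Finset V) ⊆ low G S lev z := by
                intro x hx
                simp only [Finset.mem_insert, Finset.mem_singleton] at hx
                rcases hx with h | h | h
                · rw [h]; exact z4
                · rw [h]; exact h1
                · rw [h]; exact h2
              have h4 : ({y, w, w'} : Finset V).card = 3 := by
                rw [Finset.card_eq_three]
                refine ⟨y, w, w', ?_, ?_, hne, rfl⟩
                · rintro rfl
                  exact hyP hw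
                · rintro rfl
                  exact hyP hw'
              have h5 := Finset.card_le_card h3
              have h6 := hcard z z1
              omega)
          (by
            intro a ha
            refine big_congr hbig ?_
            intro v hv
            rw [update_of_ne]
            · exact agDp v hv
            · rintro rfl
              exact hyDp hv)
          hsafe₁
        obtain ⟨a, haL, hsa⟩ := dich hg hgs hq hyS hL rest c₂ hyrest
        refine ⟨a, haL, ?_⟩
        have haq := hLq a haL
        refine ih (insert y P) (D ∪ low G S lev y ∪ {y}) D₂ (update c' y a) (update c₂ y a)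
          hnd.2 hl' hlP' (update_lt hc' haq) (update_lt b1 haq) hP' hall' hPD' hDS' ?_ ?_
          (b4 a haL) ?_
        · intro v hv hA
          by_cases hvy : v = y
          · rw [hvy, update_self, update_self]
          · rw [update_of_ne hvy, update_of_ne hvy, b2 v (fun h => (hbs0 v h).2 hA), e2 v hA]
        · intro v hv
          rcases b3 v hv with h | h | ⟨z, hz, h⟩
          · rcases hDp v h with h | h
            · exact Or.inl (Finset.mem_union_left _ (Finset.mem_union_left _ h))
            · exact Or.inr h
          · exact Or.inr (hbs0 v h)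
          · left
            obtain ⟨z1, z2, z3, z4, z5⟩ := mem_ch.1 hz
            rcases z5 v h with h | h
            · exact Finset.mem_union_right _ (Finset.mem_singleton.2 h)
            · exact Finset.mem_union_left _ (Finset.mem_union_left _ (hPD v h).1)
        · intro w hw hwi
          rcases Finset.mem_insert.1 hw with h | h
          · rw [h]
            exact hsa
          · refine safe_congr hg (hP w h).1 _ _ _ ?_ ?_ (b5 w h hwi)
            · rw [update_of_ne]
              rintro rfl
              exact hyP h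
            · intro x hx hwx _
              rw [update_of_ne]
              rintro rfl
              exact hlev w (hP w h).1 x hx hwx (by omega)
      refine ⟨(Finset.range q).filter (fun a => ¬ Big G S lev s q g i l
        (D ∪ low G S lev y ∪ {y}) (update c' y a)), ?_, ?_⟩
      · by_contra hgt
        push Not at hgt
        obtain ⟨L, hLsub, hL⟩ := Finset.exists_subset_card_eq (Nat.succ_le_of_lt hgt)
        obtain ⟨a, ha, hbga⟩ := hclaim L hL (fun a ha =>
          Finset.mem_range.1 (Finset.mem_filter.1 (hLsub ha)).1)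
        exact (Finset.mem_filter.1 (hLsub ha)).2 hbga
      · intro a ha haF
        by_contra hnb
        exact haF (Finset.mem_filter.2 ⟨Finset.mem_range.2 ha, hnb⟩)
    · -- an external vertex
      set rest := expand G S lev i (insert y P) l with hrest
      have hexp : expand G S lev i P (y :: l) = y :: rest := by
        rw [expand, if_neg hy]
        rfl
      rw [hexp] at hbig hsafe₁
      obtain ⟨F, hF, hFa⟩ := hbig c₁ good agDp
      refine ⟨F, hF, ?_⟩
      intro a haq haF
      refine ih (insert y P) (D ∪ low G S lev y ∪ {y}) (Dp ∪ low G S lev y ∪ {y})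
        (update c' y a) (update c₁ y a) hnd.2 hl' hlP' (update_lt hc' haq) (update_lt good haq)
        hP' hall' hPD' hDS' ?_ ?_ (hFa a haq haF) ?_
      · intro v hv hA
        by_cases hvy : v = y
        · rw [hvy, update_self, update_self]
        · rw [update_of_ne hvy, update_of_ne hvy, e2 v hA]
      · intro v hv
        rcases Finset.mem_union.1 hv with h | h
        · rcases Finset.mem_union.1 h with h | h
          · rcases hDp v h with h | h
            · exact Or.inl (Finset.mem_union_left _ (Finset.mem_union_left _ h))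
            · exact Or.inr h
          · exact Or.inl (Finset.mem_union_left _ (Finset.mem_union_right _ h))
        · exact Or.inl (Finset.mem_union_right _ h)
      · intro w hw hwi
        rcases Finset.mem_insert.1 hw with h | h
        · exact absurd (h ▸ hwi) hy
        · have hnadj : ¬ G.Adj w y := by
            intro h1
            have h2 : w ∈ low G S lev y := mem_low.2 ⟨(hP w h).1, h1.symm, by omega⟩
            have := hyA w h2
            omega
          have h3 := hsafe₁ w h hwi
          rw [Safe, if_neg hnadj] at h3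
          refine safe_congr hg (hP w h).1 _ _ _ ?_ ?_ h3
          · rw [update_of_ne]
            rintro rfl
            exact hyP h
          · intro x _ hwx _
            rw [update_of_ne]
            rintro rfl
            exact hnadj hwx

/-- The players of `S` lose. -/
theorem lev_loses (hg : ∀ v ∈ S, ∀ c c' : V → ℕ,
      (∀ u ∈ S, G.Adj v u → c u = c' u) → g v c = g v c')
    (hgs : ∀ v ∈ S, ∀ c, (g v c).card ≤ s) (hq : s * (s + 1) ^ 2 < q)
    (hlev : ∀ v ∈ S, ∀ w ∈ S, G.Adj v w → lev v ≠ lev w)
    (hsame : ∀ v ∈ S, ∀ w ∈ low G S lev v, ∀ w' ∈ low G S lev v, lev w = lev w')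
    (hcard : ∀ v ∈ S, (low G S lev v).card ≤ 2) :
    ∃ c : V → ℕ, (∀ v, c v < q) ∧ ∀ v ∈ S, c v ∉ g v c := by
  classical
  have hsq : s < q := by
    refine lt_of_le_of_lt ?_ hq
    nlinarith [Nat.zero_le s, Nat.zero_le (s * (s + 1))]
  have hK : ∀ m i : ℕ, (∀ v ∈ S, lev v < i + m) → ∀ l : List V, l.Nodup →
      (∀ v, v ∈ l ↔ v ∈ S ∧ i ≤ lev v ∧ Ab G S lev i v) → ∀ c : V → ℕ, (∀ v, c v < q) →
      Big G S lev s q g i l ∅ c := by
    intro m
    induction m with
    | zero =>
      intro i hi l _ hl c _
      have hnil : l = [] := by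
        rw [List.eq_nil_iff_forall_not_mem]
        intro v hv
        have h1 := (hl v).1 hv
        have h2 := hi v h1.1
        omega
      rw [hnil]
      intro c' hc' _
      refine ⟨c', hc', fun _ _ _ => rfl, ?_⟩
      intro v hv hiv
      have := hi v hv
      omega
    | succ m ihm =>
      intro i hi l hnd hl c hc
      have hl1 : ∀ v ∈ l, v ∈ S ∧ i ≤ lev v ∧ Ab G S lev i v := fun v hv => (hl v).1 hv
      refine sim hg hgs hq hlev hsame hcard l ∅ ∅ ∅ c c hnd hl1
        (fun v _ => Finset.notMem_empty v) hc hc
        (fun v hv => absurd hv (Finset.notMem_empty v))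
        (fun v h1 h2 h3 => Or.inr ((hl v).2 ⟨h1, h2, h3⟩))
        (fun v hv => absurd hv (Finset.notMem_empty v))
        (fun v hv => absurd hv (Finset.notMem_empty v)) (fun _ _ _ => rfl)
        (fun v hv => absurd hv (Finset.notMem_empty v)) ?_
        (fun v hv => absurd hv (Finset.notMem_empty v))
      refine ihm (i + 1) (fun v hv => by have := hi v hv; omega) _
        (nodup_expand l ∅ hnd (fun v _ => Finset.notMem_empty v) (fun v hv => (hl1 v hv).2.2))
        ?_ c hc
      intro v
      constructor
      · intro hv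
        rcases mem_expand _ _ hv with ⟨h1, h2⟩ | ⟨h1, h2, h3, _⟩
        · obtain ⟨h3, h4, h5⟩ := hl1 v h1
          exact ⟨h3, by omega, h5.mono⟩
        · exact ⟨h2, h1, h3⟩
      · rintro ⟨h1, h2, h3⟩
        by_cases hA : Ab G S lev i v
        · exact mem_expand_ext (by omega) l ∅ ((hl v).2 ⟨h1, by omega, hA⟩)
        · have h4 : ∃ w ∈ low G S lev v, ¬ lev w < i := by
            by_contra hne
            push Not at hne
            exact hA hne
          obtain ⟨w, hw, hwi⟩ := h4
          have hwi' : lev w = i := by
            have := h3 w hw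
            omega
          have h5 : ∀ x ∈ low G S lev v, lev x = i := by
            intro x hx
            rw [hsame v h1 x hx w hw]
            exact hwi'
          have h6 : ∀ x ∈ low G S lev v, x ∈ l := by
            intro x hx
            have h7 := h5 x hx
            exact (hl x).2 ⟨(mem_low.1 hx).1, by omega, ab_of_le (by omega)⟩
          exact mem_expand_of h1 h2 h3 h5 l ∅ (fun x hx => Or.inr (h6 x hx))
            ⟨w, hw, h6 w hw⟩
  obtain ⟨N, hN⟩ : ∃ N : ℕ, ∀ v ∈ S, lev v < N := by
    refine ⟨S.sup lev + 1, ?_⟩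
    intro v hv
    exact Nat.lt_succ_of_le (Finset.le_sup hv)
  have h0 := hK N 0 (fun v hv => by have := hN v hv; omega)
    (S.filter (fun v => Ab G S lev 0 v)).toList (Finset.nodup_toList _)
    (by
      intro v
      rw [Finset.mem_toList, Finset.mem_filter]
      constructor
      · rintro ⟨h1, h2⟩
        exact ⟨h1, Nat.zero_le _, h2⟩
      · rintro ⟨h1, _, h2⟩
        exact ⟨h1, h2⟩) (fun _ => 0) (fun _ => lt_of_le_of_lt (Nat.zero_le _) hsq)
  obtain ⟨c', c'', k1, _, k3⟩ := big_exists hsq _ _ _
    (fun _ => lt_of_le_of_lt (Nat.zero_le _) hsq) h0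
  exact ⟨c'', k1, fun v hv => k3 v hv (Nat.zero_le _)⟩

end Basic

end Pool.Agent.Lib.MP_994fee_co.Lev61
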