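import Pool.Agent.Lib.MP_994fee_co.TreeLike
import Pool.Agent.Lib.MP_994fee_co.Lev61

/-!
# Levelled pair graphs: the players of a set lose
-/

set_option autoImplicit false

namespace Pool.Agent.Lib.MP_994fee_co

/-- `G` is levelled on `S`: adjacent vertices of `S` have different levels, every vertex of `S` has
at most two neighbours of smaller level in `S`, and these have the same level. -/
def LevOn {V : Type} (G : SimpleGraph V) (S : Finset V) : Prop :=
  ∃ lev : V → ℕ, (∀ v ∈ S, ∀ w ∈ S, G.Adj v w → lev v ≠ lev w) ∧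
    (∀ v ∈ S, ∀ w ∈ S, ∀ w' ∈ S, G.Adj v w → G.Adj v w' → lev w < lev v → lev w' < lev v →
      lev w = lev w') ∧
    ∀ v ∈ S, ∀ T : Finset V, (∀ w ∈ T, w ∈ S ∧ G.Adj v w ∧ lev w < lev v) → T.card ≤ 2

theorem levOn_loses {V : Type} {G : SimpleGraph V} {S : Finset V} (h : LevOn G S) {s q : ℕ}
    (hq : s * (s + 1) ^ 2 < q) : TL.LosesOn G S s q := by
  classical
  obtain ⟨lev, h1, h2, h3⟩ := h
  intro g hg hgs
  refine Lev61.lev_loses (lev := lev) hg hgs hq h1 ?_ ?_
  · intro v hv w hw w' hw'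
    obtain ⟨a1, a2, a3⟩ := Lev61.mem_low.1 hw
    obtain ⟨b1, b2, b3⟩ := Lev61.mem_low.1 hw'
    exact h2 v hv w a1 w' b1 a2 b2 a3 b3
  · intro v hv
    exact h3 v hv _ (fun w hw => Lev61.mem_low.1 hw)

end Pool.Agent.Lib.MP_994fee_co
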