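import Pool.Agent.Lib.MP_994fee_co.Spec

/-!
# Infinite Ramsey theorem for increasing tuples, by an ultrafilter
-/

namespace Pool.Agent.Lib.MP_994fee_co

open Filter

namespace Ram

theorem exists_lim {κ : Type} [Finite κ] (F : List ℕ → κ) (l : List ℕ) :
    ∃ c, ∀ᶠ x in (hyperfilter ℕ : Filter ℕ), F (l ++ [x]) = c := by
  obtain ⟨c, hc⟩ := ((hyperfilter ℕ).map fun x => F (l ++ [x])).eq_pure_of_finite
  refine ⟨c, ?_⟩
  have : ({c} : Set κ) ∈ (hyperfilter ℕ).map fun x => F (l ++ [x]) := by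
    rw [hc]
    exact rfl
  exact this

/-- The limit colour. -/
noncomputable def lim {κ : Type} [Finite κ] (F : List ℕ → κ) (l : List ℕ) : κ :=
  (exists_lim F l).choose

theorem lim_spec {κ : Type} [Finite κ] (F : List ℕ → κ) (l : List ℕ) :
    ∀ᶠ x in (hyperfilter ℕ : Filter ℕ), F (l ++ [x]) = lim F l :=
  (exists_lim F l).choose_spec

/-- Iterated limits. -/
noncomputable def A {κ : Type} [Finite κ] (F : List ℕ → κ) : ℕ → List ℕ → κ
  | 0 => F
  | j + 1 => lim (A F j)

theorem finite_lists (N M : ℕ) : {l : List ℕ | l.length ≤ N ∧ ∀ y ∈ l, y ≤ M}.Finite := by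
  refine ((List.finite_length_le (Fin (M + 1)) N).image (List.map Fin.val)).subset ?_
  rintro l ⟨h1, h2⟩
  refine ⟨l.attach.map fun y => ⟨y.1, Nat.lt_succ_of_le (h2 y.1 y.2)⟩, ?_, ?_⟩
  · simpa using h1
  · simp

theorem exists_next (κ : ℕ → Type) [∀ n, Finite (κ n)] (F : ∀ n, List ℕ → κ n) (N M : ℕ) :
    ∃ x, M < x ∧ ∀ l : List ℕ, l.length ≤ N → (∀ y ∈ l, y ≤ M) → ∀ n ≤ N, ∀ j ≤ N,
      A (F n) j (l ++ [x]) = A (F n) (j + 1) l := by
  have h1 : ∀ᶠ x in (hyperfilter ℕ : Filter ℕ), M < x := by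
    have : (hyperfilter ℕ : Filter ℕ) ≤ atTop := by
      rw [← Nat.cofinite_eq_atTop]
      exact hyperfilter_le_cofinite
    exact this (eventually_gt_atTop M)
  have h2 : ∀ᶠ x in (hyperfilter ℕ : Filter ℕ), ∀ l ∈ {l : List ℕ | l.length ≤ N ∧ ∀ y ∈ l, y ≤ M},
      ∀ n ∈ Set.Iic N, ∀ j ∈ Set.Iic N, A (F n) j (l ++ [x]) = A (F n) (j + 1) l := by
    rw [eventually_all_finite (finite_lists N M)]
    intro l _
    rw [eventually_all_finite (Set.finite_Iic N)]
    intro n _
    rw [eventually_all_finite (Set.finite_Iic N)]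
    intro j _
    exact lim_spec (A (F n) j) l
  obtain ⟨x, hx1, hx2⟩ := (h1.and h2).exists
  exact ⟨x, hx1, fun l hl hl2 n hn j hj => hx2 l ⟨hl, hl2⟩ n hn j hj⟩

end Ram

open Ram in
theorem stRamsey : StRamsey := by
  intro κ hκ χ N
  let F : ∀ n, List ℕ → κ n := fun n l => χ n fun i => l.getD i 0
  choose g hg1 hg2 using exists_next κ F N
  let f : ℕ → ℕ := fun m => Nat.rec (g 0) (fun _ y => g y) m
  have hf0 : f 0 = g 0 := rfl
  have hfs : ∀ m, f (m + 1) = g (f m) := fun _ => rfl
  have hmono : StrictMono f := strictMono_nat_of_lt_succ fun m => by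
    rw [hfs]
    exact hg1 _
  refine ⟨f, hmono, ?_⟩
  have key : ∀ n ≤ N, ∀ u : Fin n → ℕ, StrictMono u → ∀ k ≤ n,
      A (F n) (n - k) ((List.ofFn (f ∘ u)).take k) = A (F n) n [] := by
    intro n hn u hu k
    induction k with
    | zero => intro _; simp
    | succ k ih =>
      intro hk
      rw [← ih (by omega)]
      have hkl : k < (List.ofFn (f ∘ u)).length := by
        rw [List.length_ofFn]
        omega
      have h1 : (List.ofFn (f ∘ u)).take (k + 1) =
          (List.ofFn (f ∘ u)).take k ++ [f (u ⟨k, by omega⟩)] := by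
        rw [List.take_succ_eq_append_getElem hkl]
        simp
      rw [h1]
      have h2 : n - k = (n - (k + 1)) + 1 := by omega
      rw [h2]
      have hmem : ∀ y ∈ (List.ofFn (f ∘ u)).take k, ∃ i : Fin n, i.1 < k ∧ y = f (u i) := by
        intro y hy
        rw [List.mem_take_iff_getElem] at hy
        obtain ⟨i, hi, rfl⟩ := hy
        refine ⟨⟨i, by omega⟩, by simp only; omega, ?_⟩
        simp
      rcases Nat.eq_zero_or_pos (u ⟨k, by omega⟩) with h0 | h0
      · rw [h0, hf0]
        refine hg2 0 _ ?_ ?_ n hn _ (by omega)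
        · simp only [List.length_take, List.length_ofFn]
          omega
        · intro y hy
          obtain ⟨i, hi, _⟩ := hmem y hy
          have h3 : u i < u ⟨k, by omega⟩ := hu hi
          omega
      · obtain ⟨m, hm⟩ : ∃ m, u ⟨k, by omega⟩ = m + 1 := ⟨u ⟨k, by omega⟩ - 1, by omega⟩
        rw [hm, hfs]
        refine hg2 (f m) _ ?_ ?_ n hn _ (by omega)
        · simp only [List.length_take, List.length_ofFn]
          omega
        · intro y hy
          obtain ⟨i, hi, rfl⟩ := hmem y hy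
          have h3 : u i < u ⟨k, by omega⟩ := hu hi
          exact hmono.monotone (by omega)
  have key2 : ∀ n ≤ N, ∀ u : Fin n → ℕ, StrictMono u → χ n (f ∘ u) = A (F n) n [] := by
    intro n hn u hu
    rw [← key n hn u hu n le_rfl, Nat.sub_self]
    show χ n (f ∘ u) = χ n fun i => ((List.ofFn (f ∘ u)).take n).getD i 0
    congr 1
    funext i
    rw [List.take_of_length_le (by simp)]
    simp
  intro n hn u u' hu hu'
  rw [key2 n hn u hu, key2 n hn u' hu']

end Pool.Agent.Lib.MP_994fee_co
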