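import Pool.Agent.Lib.MP_994fee_co.Spec

/-!
# Hat guessing on graphs of treewidth at most two: the last step
-/

namespace Pool.Agent.Lib.MP_994fee_co

theorem stRoot : StRoot := by
  intro q m hq hm V _ _ T s hs a b hab hreal
  obtain ⟨c0, hc0⟩ : ∃ c : Fin q, c.val = 0 := ⟨⟨0, by omega⟩, rfl⟩
  obtain ⟨c1, hc1⟩ : ∃ c : Fin q, c.val = 1 := ⟨⟨1, by omega⟩, rfl⟩
  obtain ⟨c2, hc2⟩ : ∃ c : Fin q, c.val = 2 := ⟨⟨2, by omega⟩, rfl⟩
  have h01 : c0 ≠ c1 := by intro h; rw [h] at hc0; omega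
  have h02 : c0 ≠ c2 := by intro h; rw [h] at hc0; omega
  have h12 : c1 ≠ c2 := by intro h; rw [h] at hc1; omega
  obtain ⟨S, hS⟩ : ∃ S : Finset (Fin q), S = {c0, c1, c2} := ⟨_, rfl⟩
  obtain ⟨o, ho⟩ : ∃ o : Fin 2 → Fin q, o = ![c0, c1] := ⟨_, rfl⟩
  have ho01 : o 0 ≠ o 1 := by rw [ho]; simpa using h01
  have hcard : S.card ≤ m := by
    rw [hS]
    exact (Finset.card_le_three).trans hm
  obtain ⟨ρ, h1, h2, h3⟩ := hreal o S hcard
  have hmem : ∀ v : V, v ≠ a → v ≠ b → v ∈ (Finset.univ.erase a).erase b := by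
    intro v hva hvb
    exact Finset.mem_erase.2 ⟨hvb, Finset.mem_erase.2 ⟨hva, Finset.mem_univ v⟩⟩
  -- the guess of `a` is the same in all worlds of a class
  have La : ∀ A : Cls (Fin q), A.In S → ∀ i κ i' κ', s a (ρ A i κ) = s a (ρ A i' κ') := by
    intro A hA i κ i' κ'
    apply hs
    intro w hw
    by_cases hwb : w = b
    · rw [hwb, (h1 A hA i κ).2.1, (h1 A hA i' κ').2.1]
    · exact h2 A hA i κ i' κ' w (hmem w hw.ne' hwb) hw
  -- the guess of `b` depends only on the option and the pair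
  have Lb : ∀ A A' : Cls (Fin q), A.In S → A'.In S → ∀ i κ κ',
      ({A.x, A.y i κ} : Finset (Fin q)) = {A'.x, A'.y i κ'} →
      s b (ρ A i κ) = s b (ρ A' i κ') := by
    intro A A' hA hA' i κ κ' hpair
    apply hs
    intro w hw
    by_cases hwa : w = a
    · rw [hwa, (h1 A hA i κ).1, (h1 A' hA' i κ').1]
    · exact h3 A A' hA hA' i κ κ' hpair w (hmem w hwa hw.ne') hw
  -- at most one bad colour for each option
  have uniq : ∀ (i : Fin 2) (x x' z : Fin q), x ∈ S → x' ∈ S → z ∈ S → x ≠ x' → x ≠ z → x' ≠ z →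
      (∀ A : Cls (Fin q), A.In S → A.x = x → ∀ κ, s b (ρ A i κ) = x) →
      (∀ A : Cls (Fin q), A.In S → A.x = x' → ∀ κ, s b (ρ A i κ) = x') → False := by
    intro i x x' z hx hx' hz hxx' hxz hx'z hb hb'
    obtain ⟨A, hAdef⟩ : ∃ A : Cls (Fin q), A = ⟨x, fun _ => ![x', z]⟩ := ⟨_, rfl⟩
    obtain ⟨A', hAdef'⟩ : ∃ A : Cls (Fin q), A = ⟨x', fun _ => ![x, z]⟩ := ⟨_, rfl⟩
    have hA : A.In S := by
      rw [hAdef]
      refine ⟨hx, ?_, ?_, ?_⟩
      · intro i κ
        fin_cases κ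
        · exact hx'
        · exact hz
      · intro i κ
        fin_cases κ
        · exact hxx'.symm
        · exact hxz.symm
      · intro i
        exact hx'z
    have hA' : A'.In S := by
      rw [hAdef']
      refine ⟨hx', ?_, ?_, ?_⟩
      · intro i κ
        fin_cases κ
        · exact hx
        · exact hz
      · intro i κ
        fin_cases κ
        · exact hxx'
        · exact hx'z.symm
      · intro i
        exact hxz
    have e1 := hb A hA (by rw [hAdef]) 0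
    have e2 := hb' A' hA' (by rw [hAdef']) 0
    have hpair : ({A.x, A.y i 0} : Finset (Fin q)) = {A'.x, A'.y i 0} := by
      rw [hAdef, hAdef']
      exact Finset.pair_comm x x'
    have e3 := Lb A A' hA hA' i 0 0 hpair
    rw [e1, e2] at e3
    exact hxx' e3
  have m0 : c0 ∈ S := by rw [hS]; simp
  have m1 : c1 ∈ S := by rw [hS]; simp
  have m2 : c2 ∈ S := by rw [hS]; simp
  -- a colour which is good for both options
  obtain ⟨x, hxS, hgood⟩ : ∃ x ∈ S, ∀ i : Fin 2,
      ¬ (∀ A : Cls (Fin q), A.In S → A.x = x → ∀ κ, s b (ρ A i κ) = x) := by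
    by_contra hcon
    push Not at hcon
    obtain ⟨i0, hi0⟩ := hcon c0 m0
    obtain ⟨i1, hi1⟩ := hcon c1 m1
    obtain ⟨i2, hi2⟩ := hcon c2 m2
    have hcase : i0 = i1 ∨ i0 = i2 ∨ i1 = i2 := by omega
    rcases hcase with h | h | h
    · subst h
      exact uniq i0 c0 c1 c2 m0 m1 m2 h01 h02 h12 hi0 hi1
    · subst h
      exact uniq i0 c0 c2 c1 m0 m2 m1 h02 h01 h12.symm hi0 hi2
    · subst h
      exact uniq i1 c1 c2 c0 m1 m2 m0 h12 h01.symm h02.symm hi1 hi2
  push Not at hgood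
  choose Ai hAiIn hAix κi hκi using hgood
  obtain ⟨A, hAdef⟩ : ∃ A : Cls (Fin q), A = ⟨x, fun i κ =>
      if κ = 0 then (Ai i).y i (κi i) else (Ai i).y i (1 - κi i)⟩ := ⟨_, rfl⟩
  have hA : A.In S := by
    rw [hAdef]
    refine ⟨hxS, ?_, ?_, ?_⟩
    · intro i κ
      dsimp only
      split_ifs
      · exact (hAiIn i).2.1 i _
      · exact (hAiIn i).2.1 i _
    · intro i κ
      dsimp only
      split_ifs
      · rw [← hAix i]
        exact (hAiIn i).2.2.1 i _
      · rw [← hAix i]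
        exact (hAiIn i).2.2.1 i _
    · intro i
      have h01' := (hAiIn i).2.2.2 i
      have hcase : κi i = 0 ∨ κi i = 1 := by omega
      rcases hcase with h | h
      · simp [h, h01']
      · simp [h, h01'.symm]
  obtain ⟨i, hi⟩ : ∃ i, s a (ρ A 0 0) ≠ o i := by
    by_contra hcon
    push Not at hcon
    exact ho01 ((hcon 0).symm.trans (hcon 1))
  refine ⟨ρ A i 0, fun v => ?_⟩
  by_cases hva : v = a
  · subst hva
    rw [La A hA i 0 0 0, (h1 A hA i 0).1]
    exact hi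
  by_cases hvb : v = b
  · subst hvb
    rw [(h1 A hA i 0).2.1]
    have hpair : ({A.x, A.y i 0} : Finset (Fin q)) = {(Ai i).x, (Ai i).y i (κi i)} := by
      rw [hAdef, hAix i]
      simp
    rw [Lb A (Ai i) hA (hAiIn i) i 0 (κi i) hpair]
    have := hκi i
    rw [hAdef]
    exact this
  · exact (h1 A hA i 0).2.2 v (hmem v hva hvb)

end Pool.Agent.Lib.MP_994fee_co
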