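import Pool.Agent.Lib.MP_994fee_co.Defs

/-!
# Hat guessing on graphs of treewidth at most two: definitions for the proof, module statements
-/

namespace Pool.Agent.Lib.MP_994fee_co

/-! ### Ramsey -/

/-- Infinite Ramsey theorem for increasing tuples of all lengths `≤ N` simultaneously. -/
def StRamsey : Prop :=
  ∀ (κ : ℕ → Type) (_ : ∀ n, Finite (κ n)) (χ : ∀ n, (Fin n → ℕ) → κ n) (N : ℕ),
    ∃ f : ℕ → ℕ, StrictMono f ∧ ∀ n ≤ N, ∀ u u' : Fin n → ℕ, StrictMono u → StrictMono u' →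
      χ n (f ∘ u) = χ n (f ∘ u')

/-! ### The grid of labels -/

/-- Change the coordinates `β 0, ..., β 3` of `c` to the values `g 0, ..., g 3`. -/
noncomputable def upd {N M : ℕ} (c : Fin N → Fin M) (β : Fin 4 → Fin N) (g : Fin 4 → Fin M) : Fin N → Fin M :=
  fun n => if h : ∃ l, β l = n then g h.choose else c n

/-- The value of the `j`-th row, as a coordinate in `Fin (4 * R + 8)`. -/
def row {R : ℕ} (j : Fin R) : Fin (4 * R + 8) := ⟨4 + 4 * j, by omega⟩

/-- The chain of five coordinate values whose `p`-th and `p'`-th elements are the rows `j` and `j'`: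
the elements before the `p`-th are below all rows, those between the two are just above row `j`,
and those after the `p'`-th are above all rows. -/
def chain {R : ℕ} (p p' : Fin 5) (j j' : Fin R) (s : Fin 5) : Fin (4 * R + 8) :=
  if s < p then ⟨s, by omega⟩
  else if s < p' then ⟨4 + 4 * j + min (s - p : ℕ) 3, by omega⟩
  else if s = p' then row j'
  else ⟨4 + 4 * R + min (s - p' - 1 : ℕ) 3, by omega⟩

/-- The box spanned by the chains `E 0, ..., E 3` in the directions `β 0, ..., β 3` through `c`,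
as a set of labels. -/
noncomputable def box {N M : ℕ} (lab : (Fin N → Fin M) → ℕ) (c : Fin N → Fin M) (β : Fin 4 → Fin N)
    (E : Fin 4 → Fin 5 → Fin M) : Finset ℕ :=
  Finset.univ.image fun w : Fin 4 → Fin 5 => lab (upd c β fun l => E l (w l))

/-- The line of all rows in the direction `b` through `c`, as a set of labels. -/
def line {N R : ℕ} (lab : (Fin N → Fin (4 * R + 8)) → ℕ) (c : Fin N → Fin (4 * R + 8))
    (b : Fin N) : Finset ℕ :=
  Finset.univ.image fun v : Fin R => lab (Function.update c b (row v))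

/-- Labels can be chosen so that a given predicate of contexts, two finite sets of labels and two
labels depends, for boxes and lines through a point, only on the positions. -/
def StKey : Prop :=
  ∀ (T : Type) (_ : Finite T) (R N : ℕ) (cl : T → Finset ℕ → Finset ℕ → ℕ → ℕ → Prop),
    ∃ lab : (Fin N → Fin (4 * R + 8)) → ℕ, Function.Injective lab ∧
    ∃ ψ : T → Fin 4 → (Fin 4 → Fin 5) → Fin 5 → Fin 5 → Fin R → Fin R → Prop,
      (∀ t a r r', (∀ l, l ≠ a → r l = r' l) → ψ t a r = ψ t a r') ∧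
      ∀ (t : T) (a : Fin 4) (β : Fin 4 → Fin N) (E : Fin 4 → Fin 5 → Fin (4 * R + 8))
        (c : Fin N → Fin (4 * R + 8)) (r : Fin 4 → Fin 5) (p p' : Fin 5) (j j' : Fin R),
        StrictMono β → (∀ l, StrictMono (E l)) → (∀ l, l ≠ a → c (β l) = E l (r l)) →
        p < p' → j < j' → E a = chain p p' j j' →
        (cl t (box lab c β E) (line lab c (β a)) (lab (Function.update c (β a) (row j)))
          (lab (Function.update c (β a) (row j'))) ↔ ψ t a r p p' j j')

/-! ### Two counting lemmas -/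

/-- In every colouring of the pairs of a long enough finite linear order there is a monochromatic
monotone path with two edges. -/
def StPath : Prop :=
  ∀ (κ : Type) (_ : Finite κ), ∃ R0 : ℕ, ∀ R ≥ R0, ∀ col : Fin R → Fin R → κ,
    ∃ u v w : Fin R, u < v ∧ v < w ∧ col u v = col v w

/-- Four tournaments on the lines of the grid `5 ^ 4` in the four directions: some point is
beaten by another point of its line in each of the four directions. -/
def StCount : Prop :=
  ∀ φ : Fin 4 → (Fin 4 → Fin 5) → Fin 5 → Fin 5 → Prop,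
    (∀ a r r', (∀ l, l ≠ a → r l = r' l) → φ a r = φ a r') →
    ∃ r u : Fin 4 → Fin 5, ∀ a, (r a < u a ∧ ¬ φ a r (r a) (u a)) ∨ (u a < r a ∧ φ a r (u a) (r a))

/-! ### The extension lemma -/

/-- A class: the colour `x`, and for each of two options two possible partners. -/
@[ext] structure Cls (C : Type) where
  x : C
  y : Fin 2 → Fin 2 → C

/-- The class is proper: the partners are different from the colour and from each other. -/
def Cls.Ok {C : Type} (A : Cls C) : Prop :=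
  (∀ i κ, A.y i κ ≠ A.x) ∧ ∀ i, A.y i 0 ≠ A.y i 1

/-- The extension property. The relation `g i x y X Y L e` says that the new vertex guesses `e` in
the context `(i, x, y)` when it sees the palettes `X` and `Y` and the list `L`. There are a colour
`c`, palettes `S1 A` and `S2 i B`, two partners `d i B 0` and `d i B 1` and choices `sg` of partners
for which the new vertex never guesses `c`. -/
def Ext (C : Type) (_ : DecidableEq C) (m : ℕ) (I : Type) (_ : DecidableEq I)
    (g : Fin 2 → I → I → Finset C → Finset C → Finset C → C → Prop) : Prop :=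
  ∃ (c : C) (S1 : Cls I → Finset C) (S2 : Fin 2 → Finset I → Finset C)
    (d : Fin 2 → Finset I → Fin 2 → C) (sg : Cls I → Fin 2 → Fin 2 → Fin 2),
    (∀ A : Cls I, A.Ok → c ∈ S1 A ∧ (S1 A).card ≤ m) ∧
    (∀ i B, c ∈ S2 i B ∧ (S2 i B).card ≤ m ∧ d i B 0 ≠ d i B 1 ∧
      ∀ κ, d i B κ ∈ S2 i B ∧ d i B κ ≠ c) ∧
    ∀ A : Cls I, A.Ok →
      (∀ i, d i {A.x, A.y i 0} (sg A i 0) ≠ d i {A.x, A.y i 1} (sg A i 1)) ∧
      ∀ i κ, d i {A.x, A.y i κ} (sg A i κ) ∈ S1 A ∧
        ¬ g i A.x (A.y i κ) (S1 A) (S2 i {A.x, A.y i κ})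
          {c, d i {A.x, A.y i κ} (sg A i κ)} c

/-- The extension lemma for the infinite palette `ℕ`. -/
def StCoreInf : Prop :=
  ∃ m : ℕ, ∀ (I : Type) (_ : Finite I) (dI : DecidableEq I)
    (g : Fin 2 → I → I → Finset ℕ → Finset ℕ → Finset ℕ → ℕ → Prop),
    (∀ i x y X Y L e e', g i x y X Y L e → g i x y X Y L e' → e = e') →
    Ext ℕ inferInstance m I dI g

/-- The extension lemma for a finite palette. -/
def StCore : Prop :=
  ∃ m q : ℕ, 3 ≤ m ∧ 3 ≤ q ∧ ∀ (I : Type) (_ : Finite I) (dI : DecidableEq I), Nat.card I ≤ m →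
    ∀ g : Fin 2 → I → I → Finset (Fin q) → Finset (Fin q) → Finset (Fin q) → Fin q → Prop,
    (∀ i x y X Y L e e', g i x y X Y L e → g i x y X Y L e' → e = e') →
    Ext (Fin q) inferInstance m I dI g

/-! ### Graphs -/

/-- `Hangs T a b D`: the set `D` hangs on the pair `a, b` in the graph `T`. -/
inductive Hangs {V : Type} [DecidableEq V] (T : SimpleGraph V) : V → V → Finset V → Prop
  | nil (a b : V) : Hangs T a b ∅
  | cons (a b z : V) (D₁ D₂ D₃ : Finset V) :
      z ≠ a → z ≠ b → z ∉ D₁ → z ∉ D₂ → z ∉ D₃ → a ∉ D₁ → a ∉ D₂ → a ∉ D₃ →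
      b ∉ D₁ → b ∉ D₂ → b ∉ D₃ → Disjoint D₁ D₂ → Disjoint D₁ D₃ → Disjoint D₂ D₃ →
      (∀ v ∈ D₁, ¬ T.Adj v b) → (∀ v ∈ D₂, ¬ T.Adj v a) → (∀ v ∈ D₃, ¬ T.Adj v z) →
      (∀ v ∈ D₁, ∀ w ∈ D₂, ¬ T.Adj v w) → (∀ v ∈ D₁, ∀ w ∈ D₃, ¬ T.Adj v w) →
      (∀ v ∈ D₂, ∀ w ∈ D₃, ¬ T.Adj v w) →
      Hangs T a z D₁ → Hangs T b z D₂ → Hangs T a b D₃ →
      Hangs T a b (insert z (D₁ ∪ D₂ ∪ D₃))

/-- A graph with a perfect elimination ordering of width two hangs on a pair of vertices. -/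
def StHangs : Prop :=
  ∀ (V : Type) (_ : Fintype V) (_ : DecidableEq V) (T : SimpleGraph V) (rk : V → ℕ),
    Function.Injective rk → (∀ v, {w | T.Adj v w ∧ rk w < rk v}.ncard ≤ 2 ∧
      ∀ w w', T.Adj v w → rk w < rk v → T.Adj v w' → rk w' < rk v → w ≠ w' → T.Adj w w') →
    1 < Fintype.card V → ∃ a b : V, a ≠ b ∧ Hangs T a b ((Finset.univ.erase a).erase b)

/-- The entries of the class lie in the palette `S`. -/
def Cls.In {C : Type} (A : Cls C) (S : Finset C) : Prop :=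
  A.x ∈ S ∧ (∀ i κ, A.y i κ ∈ S) ∧ A.Ok

/-- The adversary can realise all boards on the pair `a, b` (`a` with the options `o 0`, `o 1`, and
`b` with the palette `S`) by colourings for which all vertices in `D` guess wrong. -/
def Real {V : Type} {q : ℕ} (T : SimpleGraph V) (s : V → (V → Fin q) → Fin q) (m : ℕ) (a b : V)
    (D : Finset V) : Prop :=
  ∀ (o : Fin 2 → Fin q) (S : Finset (Fin q)), S.card ≤ m →
    ∃ ρ : Cls (Fin q) → Fin 2 → Fin 2 → V → Fin q,
      (∀ A : Cls (Fin q), A.In S → ∀ i κ, ρ A i κ a = o i ∧ ρ A i κ b = A.x ∧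
        ∀ v ∈ D, s v (ρ A i κ) ≠ ρ A i κ v) ∧
      (∀ A : Cls (Fin q), A.In S → ∀ i κ i' κ', ∀ v ∈ D, T.Adj a v →
        ρ A i κ v = ρ A i' κ' v) ∧
      ∀ A A' : Cls (Fin q), A.In S → A'.In S → ∀ i κ κ',
        ({A.x, A.y i κ} : Finset (Fin q)) = {A'.x, A'.y i κ'} → ∀ v ∈ D, T.Adj b v →
          ρ A i κ v = ρ A' i κ' v

/-- The induction over the structure of the graph. -/
def StStep : Prop :=
  ∀ (q m : ℕ), (∀ (I : Type) (_ : Finite I) (dI : DecidableEq I), Nat.card I ≤ m →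
    ∀ g : Fin 2 → I → I → Finset (Fin q) → Finset (Fin q) → Finset (Fin q) → Fin q → Prop,
    (∀ i x y X Y L e e', g i x y X Y L e → g i x y X Y L e' → e = e') →
    Ext (Fin q) inferInstance m I dI g) →
  ∀ (V : Type) (_ : DecidableEq V) (T : SimpleGraph V) (s : V → (V → Fin q) → Fin q),
    (∀ (v : V) (c c' : V → Fin q), (∀ w, T.Adj v w → c w = c' w) → s v c = s v c') →
    ∀ (a b z : V) (D₁ D₂ D₃ : Finset V),
      z ≠ a → z ≠ b → z ∉ D₁ → z ∉ D₂ → z ∉ D₃ → a ∉ D₁ → a ∉ D₂ → a ∉ D₃ →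
      b ∉ D₁ → b ∉ D₂ → b ∉ D₃ → Disjoint D₁ D₂ → Disjoint D₁ D₃ → Disjoint D₂ D₃ → a ≠ b →
      (∀ v ∈ D₁, ∀ w, T.Adj v w → w ∈ D₁ ∨ w = a ∨ w = z) →
      (∀ v ∈ D₂, ∀ w, T.Adj v w → w ∈ D₂ ∨ w = b ∨ w = z) →
      (∀ v ∈ D₃, ∀ w, T.Adj v w → w ∈ D₃ ∨ w = a ∨ w = b) →
      (∀ w, T.Adj z w → w ∈ D₁ ∨ w ∈ D₂ ∨ w = a ∨ w = b) →
      Real T s m a z D₁ → Real T s m b z D₂ → Real T s m a b D₃ →
      Real T s m a b (insert z (D₁ ∪ D₂ ∪ D₃))

/-- The last step: a realisation of everything outside `a` and `b` defeats the strategy. -/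
def StRoot : Prop :=
  ∀ (q m : ℕ), 3 ≤ q → 3 ≤ m → ∀ (V : Type) (_ : Fintype V) (_ : DecidableEq V)
    (T : SimpleGraph V) (s : V → (V → Fin q) → Fin q),
    (∀ (v : V) (c c' : V → Fin q), (∀ w, T.Adj v w → c w = c' w) → s v c = s v c') →
    ∀ a b : V, a ≠ b → Real T s m a b ((Finset.univ.erase a).erase b) →
    ∃ c : V → Fin q, ∀ v, s v c ≠ c v

/-- The final theorem. -/
def StFinal : Prop :=
  ∃ q₀ : ℕ, ∀ (V : Type) (_ : Fintype V) (G : SimpleGraph V), TreewidthLE 2 G →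
    ∀ q : ℕ, (∃ s, IsWinning G q s) → q ≤ q₀

end Pool.Agent.Lib.MP_994fee_co
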