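import Pool.Agent.Lib.MP_994fee_co.Spec

/-!
# Hat guessing on graphs of treewidth at most two: the induction step
-/

namespace Pool.Agent.Lib.MP_994fee_co

namespace Step

variable {V : Type} [DecidableEq V] {q : ℕ}

/-- A colouring put together from the colours of `a`, `b`, `z` and three colourings. -/
def mix (a b z : V) (D₁ D₂ : Finset V) (ca cb cz : Fin q) (f₁ f₂ f₃ : V → Fin q) : V → Fin q :=
  fun v => if v = a then ca else if v = b then cb else if v = z then cz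
    else if v ∈ D₁ then f₁ v else if v ∈ D₂ then f₂ v else f₃ v

variable {a b z : V} {D₁ D₂ D₃ : Finset V} {ca cb cz : Fin q} {f₁ f₂ f₃ : V → Fin q}

theorem mix_a : mix a b z D₁ D₂ ca cb cz f₁ f₂ f₃ a = ca := by simp [mix]

theorem mix_b (hab : a ≠ b) : mix a b z D₁ D₂ ca cb cz f₁ f₂ f₃ b = cb := by
  simp [mix, hab.symm]

theorem mix_z (hza : z ≠ a) (hzb : z ≠ b) : mix a b z D₁ D₂ ca cb cz f₁ f₂ f₃ z = cz := by
  simp [mix, hza, hzb]

theorem mix_1 (ha : a ∉ D₁) (hb : b ∉ D₁) (hz : z ∉ D₁) {v : V} (hv : v ∈ D₁) :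
    mix a b z D₁ D₂ ca cb cz f₁ f₂ f₃ v = f₁ v := by
  have h1 : v ≠ a := fun h => ha (h ▸ hv)
  have h2 : v ≠ b := fun h => hb (h ▸ hv)
  have h3 : v ≠ z := fun h => hz (h ▸ hv)
  simp [mix, h1, h2, h3, hv]

theorem mix_2 (ha : a ∉ D₂) (hb : b ∉ D₂) (hz : z ∉ D₂) (h12 : Disjoint D₁ D₂) {v : V}
    (hv : v ∈ D₂) : mix a b z D₁ D₂ ca cb cz f₁ f₂ f₃ v = f₂ v := by
  have h1 : v ≠ a := fun h => ha (h ▸ hv)
  have h2 : v ≠ b := fun h => hb (h ▸ hv)
  have h3 : v ≠ z := fun h => hz (h ▸ hv)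
  have h4 : v ∉ D₁ := fun h => Finset.disjoint_left.mp h12 h hv
  simp [mix, h1, h2, h3, hv, h4]

theorem mix_3 (ha : a ∉ D₃) (hb : b ∉ D₃) (hz : z ∉ D₃) (h13 : Disjoint D₁ D₃)
    (h23 : Disjoint D₂ D₃) {v : V} (hv : v ∈ D₃) :
    mix a b z D₁ D₂ ca cb cz f₁ f₂ f₃ v = f₃ v := by
  have h1 : v ≠ a := fun h => ha (h ▸ hv)
  have h2 : v ≠ b := fun h => hb (h ▸ hv)
  have h3 : v ≠ z := fun h => hz (h ▸ hv)
  have h4 : v ∉ D₁ := fun h => Finset.disjoint_left.mp h13 h hv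
  have h5 : v ∉ D₂ := fun h => Finset.disjoint_left.mp h23 h hv
  simp [mix, h1, h2, h3, h4, h5]

/-- The two options `min x y`, `max x y`. -/
def ob (x y : Fin q) : Fin 2 → Fin q := fun k => if k = 0 then min x y else max x y

/-- The index of `x` among the two options. -/
def idx (x y : Fin q) : Fin 2 := if x ≤ y then 0 else 1

theorem ob_idx (x y : Fin q) : ob x y (idx x y) = x := by
  unfold ob idx
  by_cases h : x ≤ y
  · simp [h]
  · simp [h, le_of_lt (not_le.mp h)]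

theorem ob_comm (x y : Fin q) : ob x y = ob y x := by
  funext k
  unfold ob
  rw [min_comm, max_comm]

/-- Lift a class to the palette. -/
def lift {C : Type} {S : Finset C} (A : Cls C) (h : A.In S) : Cls {x // x ∈ S} where
  x := ⟨A.x, h.1⟩
  y := fun i κ => ⟨A.y i κ, h.2.1 i κ⟩

theorem lift_ok {C : Type} {S : Finset C} (A : Cls C) (h : A.In S) : (lift A h).Ok := by
  refine ⟨fun i κ he => h.2.2.1 i κ ?_, fun i he => h.2.2.2 i ?_⟩
  · exact congrArg Subtype.val he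
  · exact congrArg Subtype.val he

theorem pair_cases {C : Type} [DecidableEq C] {x y x' y' : C}
    (h : ({x, y} : Finset C) = {x', y'}) (hy : y ≠ x) (_ : y' ≠ x') :
    (x = x' ∧ y = y') ∨ (x = y' ∧ y = x') := by
  have h1 : x ∈ ({x', y'} : Finset C) := h ▸ (by simp)
  have h2 : y ∈ ({x', y'} : Finset C) := h ▸ (by simp)
  simp only [Finset.mem_insert, Finset.mem_singleton] at h1 h2
  rcases h1 with h1 | h1 <;> rcases h2 with h2 | h2
  · exact absurd (h2.trans h1.symm) hy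
  · exact Or.inl ⟨h1, h2⟩
  · exact Or.inr ⟨h1, h2⟩
  · exact absurd (h2.trans h1.symm) hy

end Step

open Step in
theorem stStep : StStep := by
  intro q m hExt V dV T s hloc a b z D₁ D₂ D₃ hza hzb hz1 hz2 hz3 ha1 ha2 ha3 hb1 hb2 hb3
    h12 h13 h23 hab hc1 hc2 hc3 hcz R1 R2 R3 o S hS
  have dIn : ∀ A : Cls (Fin q), Decidable (A.In S) := fun A => Classical.dec _
  choose ρ1 hρ1 using fun X (hX : X.card ≤ m) => R1 o X hX
  choose ρ2 hρ2 using fun (o' : Fin 2 → Fin q) Y (hY : Y.card ≤ m) => R2 o' Y hY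
  obtain ⟨ρ3, h3a, h3b, h3c⟩ := R3 o S hS
  -- the guess of `z`
  let g : Fin 2 → {x // x ∈ S} → {x // x ∈ S} → Finset (Fin q) → Finset (Fin q) →
      Finset (Fin q) → Fin q → Prop := fun i x y X Y L e =>
    ∃ (hX : X.card ≤ m) (hY : Y.card ≤ m) (A₁ A₂ : Cls (Fin q)) (κ₁ κ₂ : Fin 2),
      A₁.In X ∧ A₂.In Y ∧ {A₁.x, A₁.y i κ₁} = L ∧
      {A₂.x, A₂.y (idx x.1 y.1) κ₂} = L ∧
      s z (mix a b z D₁ D₂ (o i) x.1 x.1 (ρ1 X hX A₁ i κ₁)
        (ρ2 (ob x.1 y.1) Y hY A₂ (idx x.1 y.1) κ₂) (ρ1 X hX A₁ i κ₁)) = e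
  have hg : ∀ i x y X Y L e e', g i x y X Y L e → g i x y X Y L e' → e = e' := by
    rintro i x y X Y L e e' ⟨hX, hY, A₁, A₂, κ₁, κ₂, hA₁, hA₂, hL₁, hL₂, he⟩
      ⟨_, _, A₁', A₂', κ₁', κ₂', hA₁', hA₂', hL₁', hL₂', he'⟩
    rw [← he, ← he']
    apply hloc
    intro w hw
    rcases hcz w hw with h | h | h | h
    · rw [mix_1 ha1 hb1 hz1 h, mix_1 ha1 hb1 hz1 h]
      exact (hρ1 X hX).2.2 A₁ A₁' hA₁ hA₁' i κ₁ κ₁' (hL₁.trans hL₁'.symm) w h hw
    · rw [mix_2 ha2 hb2 hz2 h12 h, mix_2 ha2 hb2 hz2 h12 h]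
      exact (hρ2 (ob x.1 y.1) Y hY).2.2 A₂ A₂' hA₂ hA₂' _ κ₂ κ₂' (hL₂.trans hL₂'.symm) w h hw
    · rw [h, mix_a, mix_a]
    · rw [h, mix_b hab, mix_b hab]
  have hcard : Nat.card {x // x ∈ S} ≤ m := by
    simpa using hS
  obtain ⟨c, S1, S2, d, sg, hS1, hS2, hmain⟩ :=
    hExt {x // x ∈ S} inferInstance inferInstance hcard g hg
  -- the classes for the boards of `z`
  let cl1 : Cls {x // x ∈ S} → Cls (Fin q) := fun A =>
    ⟨c, fun i k => d i {A.x, A.y i k} (sg A i k)⟩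
  let cl2 : Fin 2 → Finset {x // x ∈ S} → Cls (Fin q) := fun i B => ⟨c, fun _ k => d i B k⟩
  have hcl1 : ∀ A : Cls {x // x ∈ S}, A.Ok → (cl1 A).In (S1 A) := by
    intro A hA
    refine ⟨(hS1 A hA).1, fun i κ => ((hmain A hA).2 i κ).1, fun i κ => ?_, fun i => ?_⟩
    · exact ((hS2 i _).2.2.2 _).2
    · exact (hmain A hA).1 i
  have hcl2 : ∀ i B, (cl2 i B).In (S2 i B) := by
    intro i B
    refine ⟨(hS2 i B).1, fun _ κ => ((hS2 i B).2.2.2 κ).1, fun _ κ => ((hS2 i B).2.2.2 κ).2,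
      fun _ => (hS2 i B).2.2.1⟩
  -- the colouring
  let ρ : Cls (Fin q) → Fin 2 → Fin 2 → V → Fin q := fun A i κ =>
    if hA : A.In S then
      mix a b z D₁ D₂ (o i) A.x c
        (ρ1 (S1 (lift A hA)) (hS1 _ (lift_ok A hA)).2 (cl1 (lift A hA)) i κ)
        (ρ2 (ob A.x (A.y i κ)) (S2 i {(lift A hA).x, (lift A hA).y i κ}) (hS2 i _).2.1
          (cl2 i {(lift A hA).x, (lift A hA).y i κ}) (idx A.x (A.y i κ))
          (sg (lift A hA) i κ))
        (ρ3 A i κ)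
    else ρ3 A i κ
  have hρ : ∀ (A : Cls (Fin q)) (hA : A.In S) i κ, ρ A i κ = mix a b z D₁ D₂ (o i) A.x c
        (ρ1 (S1 (lift A hA)) (hS1 _ (lift_ok A hA)).2 (cl1 (lift A hA)) i κ)
        (ρ2 (ob A.x (A.y i κ)) (S2 i {(lift A hA).x, (lift A hA).y i κ}) (hS2 i _).2.1
          (cl2 i {(lift A hA).x, (lift A hA).y i κ}) (idx A.x (A.y i κ))
          (sg (lift A hA) i κ))
        (ρ3 A i κ) := by
    intro A hA i κ
    exact dif_pos hA
  refine ⟨ρ, ?_, ?_, ?_⟩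
  · intro A hA i κ
    rw [hρ A hA i κ]
    refine ⟨mix_a, mix_b hab, ?_⟩
    intro v hv
    simp only [Finset.mem_insert, Finset.mem_union] at hv
    rcases hv with hv | (hv | hv) | hv
    · -- `v = z`
      subst hv
      rw [mix_z hza hzb]
      intro hcon
      apply ((hmain (lift A hA) (lift_ok A hA)).2 i κ).2
      refine ⟨(hS1 _ (lift_ok A hA)).2, (hS2 i _).2.1, cl1 (lift A hA),
        cl2 i {(lift A hA).x, (lift A hA).y i κ}, κ, sg (lift A hA) i κ,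
        hcl1 _ (lift_ok A hA), hcl2 _ _, rfl, rfl, ?_⟩
      refine Eq.trans (hloc _ _ _ ?_) hcon
      intro w hw
      rcases hcz w hw with h | h | h | h
      · rw [mix_1 ha1 hb1 hz1 h, mix_1 ha1 hb1 hz1 h]
      · rw [mix_2 ha2 hb2 hz2 h12 h, mix_2 ha2 hb2 hz2 h12 h]
        rfl
      · rw [h, mix_a, mix_a]
      · rw [h, mix_b hab, mix_b hab]
        rfl
    · -- `v ∈ D₁`
      rw [mix_1 ha1 hb1 hz1 hv]
      have key := (hρ1 (S1 (lift A hA)) (hS1 _ (lift_ok A hA)).2).1 (cl1 (lift A hA))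
        (hcl1 _ (lift_ok A hA)) i κ
      refine fun hcon => key.2.2 v hv (Eq.trans (hloc _ _ _ ?_) hcon)
      intro w hw
      rcases hc1 v hv w hw with h | h | h
      · rw [mix_1 ha1 hb1 hz1 h]
      · rw [h, mix_a, key.1]
      · rw [h, mix_z hza hzb, key.2.1]
    · -- `v ∈ D₂`
      rw [mix_2 ha2 hb2 hz2 h12 hv]
      have key := (hρ2 (ob A.x (A.y i κ)) (S2 i {(lift A hA).x, (lift A hA).y i κ})
        (hS2 i _).2.1).1 (cl2 i {(lift A hA).x, (lift A hA).y i κ}) (hcl2 _ _)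
        (idx A.x (A.y i κ)) (sg (lift A hA) i κ)
      refine fun hcon => key.2.2 v hv (Eq.trans (hloc _ _ _ ?_) hcon)
      intro w hw
      rcases hc2 v hv w hw with h | h | h
      · rw [mix_2 ha2 hb2 hz2 h12 h]
      · rw [h, mix_b hab, key.1, ob_idx]
      · rw [h, mix_z hza hzb, key.2.1]
    · -- `v ∈ D₃`
      rw [mix_3 ha3 hb3 hz3 h13 h23 hv]
      have key := h3a A hA i κ
      refine fun hcon => key.2.2 v hv (Eq.trans (hloc _ _ _ ?_) hcon)
      intro w hw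
      rcases hc3 v hv w hw with h | h | h
      · rw [mix_3 ha3 hb3 hz3 h13 h23 h]
      · rw [h, mix_a, key.1]
      · rw [h, mix_b hab, key.2.1]
  · intro A hA i κ i' κ' v hv hadj
    rw [hρ A hA i κ, hρ A hA i' κ']
    simp only [Finset.mem_insert, Finset.mem_union] at hv
    rcases hv with hv | (hv | hv) | hv
    · subst hv
      rw [mix_z hza hzb, mix_z hza hzb]
    · rw [mix_1 ha1 hb1 hz1 hv, mix_1 ha1 hb1 hz1 hv]
      exact (hρ1 (S1 (lift A hA)) (hS1 _ (lift_ok A hA)).2).2.1 (cl1 (lift A hA))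
        (hcl1 _ (lift_ok A hA)) i κ i' κ' v hv hadj
    · exfalso
      rcases hc2 v hv a hadj.symm with h | h | h
      · exact ha2 h
      · exact hab h
      · exact hza h.symm
    · rw [mix_3 ha3 hb3 hz3 h13 h23 hv, mix_3 ha3 hb3 hz3 h13 h23 hv]
      exact h3b A hA i κ i' κ' v hv hadj
  · intro A A' hA hA' i κ κ' hpair v hv hadj
    rw [hρ A hA i κ, hρ A' hA' i κ']
    simp only [Finset.mem_insert, Finset.mem_union] at hv
    rcases hv with hv | (hv | hv) | hv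
    · subst hv
      rw [mix_z hza hzb, mix_z hza hzb]
    · exfalso
      rcases hc1 v hv b hadj.symm with h | h | h
      · exact hb1 h
      · exact hab h.symm
      · exact hzb h.symm
    · rw [mix_2 ha2 hb2 hz2 h12 hv, mix_2 ha2 hb2 hz2 h12 hv]
      have hB : ({(lift A hA).x, (lift A hA).y i κ} : Finset {x // x ∈ S}) =
          {(lift A' hA').x, (lift A' hA').y i κ'} ∧
          ob A.x (A.y i κ) = ob A'.x (A'.y i κ') := by
        rcases pair_cases hpair (hA.2.2.1 i κ) (hA'.2.2.1 i κ') with ⟨e1, e2⟩ | ⟨e1, e2⟩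
        · have f1 : (lift A hA).x = (lift A' hA').x := Subtype.ext e1
          have f2 : (lift A hA).y i κ = (lift A' hA').y i κ' := Subtype.ext e2
          rw [f1, f2, e1, e2]
          exact ⟨rfl, rfl⟩
        · have f1 : (lift A hA).x = (lift A' hA').y i κ' := Subtype.ext e1
          have f2 : (lift A hA).y i κ = (lift A' hA').x := Subtype.ext e2
          rw [f1, f2, e1, e2]
          exact ⟨Finset.pair_comm _ _, ob_comm _ _⟩
      have key : ∀ (B B' : Finset {x // x ∈ S}) (o₁ o₂ : Fin 2 → Fin q) (hBB : B = B')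
          (hoo : o₁ = o₂) (i₁ i₂ k₁ k₂ : Fin 2),
          ρ2 o₁ (S2 i B) (hS2 i B).2.1 (cl2 i B) i₁ k₁ v =
            ρ2 o₂ (S2 i B') (hS2 i B').2.1 (cl2 i B') i₂ k₂ v := by
        intro B B' o₁ o₂ hBB hoo i₁ i₂ k₁ k₂
        subst hBB hoo
        exact (hρ2 o₁ (S2 i B) (hS2 i B).2.1).2.1 (cl2 i B) (hcl2 _ _) i₁ k₁ i₂ k₂ v hv hadj
      exact key _ _ _ _ hB.1 hB.2 _ _ _ _
    · rw [mix_3 ha3 hb3 hz3 h13 h23 hv, mix_3 ha3 hb3 hz3 h13 h23 hv]
      exact h3c A A' hA hA' i κ κ' hpair v hv hadj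

end Pool.Agent.Lib.MP_994fee_co
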