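import Pool.Agent.Lib.MP_994fee_co.Defs

/-!
# Hat guessing on graphs of bounded treedepth: exact value
-/

namespace Pool.Agent.Lib.MP_994fee_co.Td

open Pool.Agent.Lib.MP_994fee_co

/-- The treedepth of `G` is at most `k`: there is a partial order `r` on the vertices such that the
elements below any vertex (itself included) form a chain with at most `k` elements, and adjacent
vertices are comparable. -/
def TreedepthLE {V : Type} (k : ℕ) (G : SimpleGraph V) : Prop :=
  ∃ r : V → V → Prop, (∀ u, r u u) ∧ (∀ u v w, r u v → r v w → r u w) ∧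
    (∀ u v, r u v → r v u → u = v) ∧
    (∀ v, {u | r u v}.Finite ∧ {u | r u v}.ncard ≤ k ∧
      ∀ u w, r u v → r w v → r u w ∨ r w u) ∧
    ∀ u v, G.Adj u v → r u v ∨ r v u

/-- The sequence `1, 2, 6, 42, 1806, ...` (Sylvester's sequence minus one). -/
def a : ℕ → ℕ
  | 0 => 1
  | n + 1 => a n * (a n + 1)

lemma a_pos (n : ℕ) : 1 ≤ a n := by
  induction n with
  | zero => exact le_refl _
  | succ n ih => rw [a]; exact le_trans ih (Nat.le_mul_of_pos_right _ (by omega))

/-- product formula -/
lemma a_prod (n : ℕ) : ∏ j ∈ Finset.range n, (a j + 1) = a n := by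
  induction n with
  | zero => simp [a]
  | succ n ih => rw [Finset.prod_range_succ, ih, a]

lemma a_mono {m n : ℕ} (h : m ≤ n) : a m ≤ a n := by
  induction h with
  | refl => exact le_refl _
  | step _ ih => rw [a]; exact le_trans ih (Nat.le_mul_of_pos_right _ (by omega))

/-! ### Upper bound -/

section Upper

variable {V : Type} [Fintype V] (r : V → V → Prop)

/-- number of elements strictly below -/
noncomputable def lev (v : V) : ℕ := {u | r u v ∧ u ≠ v}.ncard

variable {r}

lemma lev_lt (htr : ∀ u v w, r u v → r v w → r u w) (has : ∀ u v, r u v → r v u → u = v)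
    {u v : V} (h : r u v) (hne : u ≠ v) (_ : ∀ u, r u u) : lev r u < lev r v := by
  unfold lev
  apply Set.ncard_lt_ncard _ (Set.toFinite _)
  refine ⟨fun w hw => ⟨htr _ _ _ hw.1 h, ?_⟩, fun hsub => ?_⟩
  · rintro rfl
    exact hw.2 (has _ _ hw.1 h)
  · have := hsub ⟨h, hne⟩
    exact this.2 rfl

lemma prod_lev (hrf : ∀ u, r u u) (htr : ∀ u v w, r u v → r v w → r u w)
    (has : ∀ u v, r u v → r v u → u = v)
    (hch : ∀ v u w, r u v → r w v → r u w ∨ r w u) (v : V) (F : Finset V)
    (hF : ∀ u, u ∈ F ↔ r u v ∧ u ≠ v) : ∏ u ∈ F, (a (lev r u) + 1) = a (lev r v) := by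
  classical
  have hinj : Set.InjOn (lev r) (F : Set V) := by
    intro u hu w hw he
    by_contra hne
    rw [Finset.mem_coe, hF] at hu hw
    rcases hch v u w hu.1 hw.1 with h | h
    · exact absurd he (lev_lt htr has h hne hrf).ne
    · exact absurd he (lev_lt htr has h (Ne.symm hne) hrf).ne'
  have himg : F.image (lev r) = Finset.range (lev r v) := by
    apply Finset.eq_of_subset_of_card_le
    · intro n hn
      obtain ⟨u, hu, rfl⟩ := Finset.mem_image.mp hn
      rw [hF] at hu
      exact Finset.mem_range.mpr (lev_lt htr has hu.1 hu.2 hrf)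
    · rw [Finset.card_image_of_injOn hinj, Finset.card_range]
      have : {u | r u v ∧ u ≠ v} = (F : Set V) := by
        ext u
        rw [Finset.mem_coe, hF]
        rfl
      unfold lev
      rw [this, Set.ncard_coe_finset]
  rw [← a_prod (lev r v), ← himg, Finset.prod_image hinj]

/-- the vertex `v` guesses wrong whatever the colours of its ancestors in their palettes -/
def Good (r : V → V → Prop) {q : ℕ} (s : V → (V → Fin q) → Fin q) (c : V → Fin q) (v : V) : Prop :=
  (c v : ℕ) ≤ a (lev r v) ∧
    ∀ c' : V → Fin q, (∀ u, r v u → c' u = c u) →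
      (∀ u, r u v → u ≠ v → (c' u : ℕ) ≤ a (lev r u)) → s v c' ≠ c v

lemma upper_step (hrf : ∀ u, r u u) (htr : ∀ u v w, r u v → r v w → r u w)
    (has : ∀ u v, r u v → r v u → u = v)
    (hch : ∀ v u w, r u v → r w v → r u w ∨ r w u)
    {q : ℕ} (s : V → (V → Fin q) → Fin q)
    (hs : ∀ (v : V) (c c' : V → Fin q), (∀ w, (r v w ∨ r w v) → w ≠ v → c w = c' w) →
      s v c = s v c') (c : V → Fin q) (v : V) (hq : a (lev r v) < q) :
    ∃ y : Fin q, (y : ℕ) ≤ a (lev r v) ∧
      ∀ c' : V → Fin q, (∀ u, r v u → u ≠ v → c' u = c u) →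
      (∀ u, r u v → u ≠ v → (c' u : ℕ) ≤ a (lev r u)) → s v c' ≠ y := by
  classical
  set F : Finset V := Finset.univ.filter (fun u => r u v ∧ u ≠ v) with hFdef
  have hF : ∀ u, u ∈ F ↔ r u v ∧ u ≠ v := fun u => by simp [hFdef]
  -- tuples of colours of the ancestors
  let Tup : Finset ((u : V) → u ∈ F → ℕ) := F.pi (fun u => Finset.range (a (lev r u) + 1))
  have hcard : Tup.card = a (lev r v) := by
    rw [Finset.card_pi]
    simp only [Finset.card_range]
    exact prod_lev hrf htr has hch v F hF
  have hqpos : 0 < q := by omega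
  let ext : ((u : V) → u ∈ F → ℕ) → V → Fin q := fun t u =>
    if h : u ∈ F then ⟨t u h % q, Nat.mod_lt _ hqpos⟩ else c u
  let G : Finset (Fin q) := Tup.image (fun t => s v (ext t))
  have hG : G.card ≤ a (lev r v) := le_trans Finset.card_image_le hcard.le
  have hle : a (lev r v) + 1 ≤ q := hq
  let Y : Finset (Fin q) := (Finset.univ : Finset (Fin (a (lev r v) + 1))).image (Fin.castLE hle)
  have hY : Y.card = a (lev r v) + 1 := by
    rw [Finset.card_image_of_injective _ (Fin.castLE_injective hle), Finset.card_univ,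
      Fintype.card_fin]
  have hYv : ∀ y ∈ Y, (y : ℕ) ≤ a (lev r v) := by
    intro y hy
    obtain ⟨i, _, rfl⟩ := Finset.mem_image.mp hy
    have := i.2
    simp only [Fin.val_castLE]
    omega
  obtain ⟨y, hyY, hyG⟩ : ∃ y ∈ Y, y ∉ G := by
    by_contra hcon
    push Not at hcon
    have := Finset.card_le_card (show Y ⊆ G from hcon)
    omega
  refine ⟨y, hYv y hyY, fun c' h1 h2 he => hyG ?_⟩
  refine Finset.mem_image.mpr ⟨fun u _ => (c' u : ℕ), ?_, ?_⟩
  · rw [Finset.mem_pi]
    intro u hu
    rw [Finset.mem_range]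
    have := h2 u ((hF u).mp hu).1 ((hF u).mp hu).2
    omega
  · rw [← he]
    apply hs
    intro w hw hne
    simp only [ext]
    split_ifs with h
    · apply Fin.ext
      simp only
      exact Nat.mod_eq_of_lt (c' w).2
    · rcases hw with hw | hw
      · exact (h1 w hw hne).symm
      · exact absurd ((hF w).mpr ⟨hw, hne⟩) h

end Upper

theorem upper {V : Type} [Fintype V] {G : SimpleGraph V} {d q : ℕ}
    {s : V → (V → Fin q) → Fin q} (hT : TreedepthLE (d + 1) G) (hw : IsWinning G q s) :
    q ≤ a d := by
  classical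
  by_contra hq
  push Not at hq
  obtain ⟨r, hrf, htr, has, hch0, hadj⟩ := hT
  have hch : ∀ v u w, r u v → r w v → r u w ∨ r w u := fun v => (hch0 v).2.2
  have hlev : ∀ v, lev r v ≤ d := by
    intro v
    have h1 := (hch0 v).2.1
    have h2 : {u | r u v} = insert v {u | r u v ∧ u ≠ v} := by
      ext u
      simp only [Set.mem_ofPred_eq, Set.mem_insert_iff]
      constructor
      · intro h
        by_cases he : u = v
        · exact Or.inl he
        · exact Or.inr ⟨h, he⟩
      · rintro (rfl | h)
        · exact hrf _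
        · exact h.1
    rw [h2, Set.ncard_insert_of_notMem (by simp) (Set.toFinite _)] at h1
    unfold lev
    omega
  have hs : ∀ (v : V) (c c' : V → Fin q), (∀ w, (r v w ∨ r w v) → w ≠ v → c w = c' w) →
      s v c = s v c' := by
    intro v c c' h
    apply hw.1
    intro w hvw
    exact h w (hadj v w hvw) (G.ne_of_adj hvw).symm
  have main : ∀ i : ℕ, ∃ c : V → Fin q, ∀ v, d + 1 ≤ lev r v + i → Good r s c v := by
    intro i
    induction i with
    | zero =>
      refine ⟨fun _ => ⟨0, by omega⟩, fun v hv => ?_⟩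
      have := hlev v
      omega
    | succ i ih =>
      obtain ⟨c, hc⟩ := ih
      have hstep := fun v : V => upper_step hrf htr has hch s hs c v
        (lt_of_le_of_lt (a_mono (hlev v)) hq)
      choose y hy1 hy2 using hstep
      refine ⟨fun v => if lev r v + (i + 1) = d + 1 then y v else c v, fun v hv => ?_⟩
      by_cases hvi : lev r v + (i + 1) = d + 1
      · refine ⟨?_, fun c' h1 h2 => ?_⟩
        · simp only [hvi, if_true]
          exact hy1 v
        · simp only [hvi, if_true]
          apply hy2 v c' _ h2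
          intro u hvu hne
          rw [h1 u hvu]
          have := lev_lt htr has hvu (Ne.symm hne) hrf
          have hne' : lev r u + (i + 1) ≠ d + 1 := by omega
          simp only [hne', if_false]
      · have hg := hc v (by omega)
        refine ⟨?_, fun c' h1 h2 => ?_⟩
        · simp only [hvi, if_false]
          exact hg.1
        · simp only [hvi, if_false]
          apply hg.2 c' _ h2
          intro u hvu
          rw [h1 u hvu]
          have : lev r v ≤ lev r u := by
            by_cases he : v = u
            · rw [he]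
            · exact (lev_lt htr has hvu he hrf).le
          have hne' : lev r u + (i + 1) ≠ d + 1 := by omega
          simp only [hne', if_false]
  obtain ⟨c, hc⟩ := main (d + 1)
  obtain ⟨v, hv⟩ := hw.2 c
  exact (hc v (by omega)).2 c (fun _ _ => rfl) (fun u _ _ => (hc u (by omega)).1) hv

/-! ### Lower bound -/

/-- A gadget hanging below a chain of `j` vertices: for every colouring of the gadget at most `N`
colourings of the chain are compatible with wrong guesses everywhere. -/
def Gadget (q j N k : ℕ) : Prop :=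
  ∃ (W : Type) (_ : Fintype W) (G : SimpleGraph W)
    (g : W → (Fin j → Fin q) → (W → Fin q) → Fin q),
    TreedepthLE k G ∧
    (∀ w x (c c' : W → Fin q), (∀ u, G.Adj w u → c u = c' u) → g w x c = g w x c') ∧
    ∀ c : W → Fin q, {x | ∀ w, g w x c ≠ c w}.ncard ≤ N

lemma gadget_base (d q : ℕ) (hq : 1 ≤ q) : Gadget q d (q - 1) 1 := by
  classical
  refine ⟨(Fin d → Fin q) → Fin q, inferInstance, ⊥, fun f x _ => f x, ?_, ?_, ?_⟩
  · refine ⟨fun u v => u = v, fun _ => rfl, fun u v w h1 h2 => h1.trans h2, fun _ _ h _ => h,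
      fun v => ⟨Set.toFinite _, ?_, fun u w h1 h2 => Or.inl (h1.trans h2.symm)⟩, ?_⟩
    · have : {u | u = v} = {v} := by ext; simp
      rw [this, Set.ncard_singleton]
    · intro u v h
      exact absurd h (by simp)
  · intro w x c c' _
    rfl
  · intro c
    by_contra hcon
    push Not at hcon
    set A : Set (Fin d → Fin q) := {x | ∀ w : (Fin d → Fin q) → Fin q, w x ≠ c w} with hA
    have hfin : A.Finite := Set.toFinite _
    have hcard : q ≤ hfin.toFinset.card := by
      rw [← Set.ncard_eq_toFinset_card A hfin]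
      omega
    obtain ⟨B, hBA, hB⟩ := Finset.exists_subset_card_eq hcard
    have e : B ≃ Fin q := Finset.equivFinOfCardEq hB
    let f : (Fin d → Fin q) → Fin q := fun x => if h : x ∈ B then e ⟨x, h⟩ else ⟨0, by omega⟩
    have hx : ((e.symm (c f) : B) : Fin d → Fin q) ∈ A := by
      exact (Set.Finite.mem_toFinset hfin).mp (hBA (e.symm (c f)).2)
    apply hx f
    simp [f]

/-- a function that lists all elements of a small set -/
lemma exists_list {q m : ℕ} (Y : Finset (Fin q)) (hq : 1 ≤ q) (hY : Y.card ≤ m) :
    ∃ e : Fin m → Fin q, ∀ y ∈ Y, ∃ i, e i = y := by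
  classical
  let f : Y ≃ Fin Y.card := Y.equivFin
  refine ⟨fun i => if h : (i : ℕ) < Y.card then (f.symm ⟨i, h⟩ : Fin q) else ⟨0, by omega⟩, ?_⟩
  intro y hy
  refine ⟨⟨f ⟨y, hy⟩, lt_of_lt_of_le (f ⟨y, hy⟩).2 hY⟩, ?_⟩
  simp

lemma gadget_step {q j N k m : ℕ} (hq : 1 ≤ q) (hm : 1 ≤ m) (hN : N < m * (m + 1))
    (hG : Gadget q (j + 1) N k) : Gadget q j (m - 1) (k + 1) := by
  classical
  obtain ⟨W, _, G, g, ⟨r, hrf, htr, has, hch, hadj⟩, hloc, hall⟩ := hG
  -- colours of a vertex above the gadget that are alive for all the chains `b i`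
  let Y : (Fin m → Fin j → Fin q) → (W → Fin q) → Finset (Fin q) := fun b c =>
    Finset.univ.filter (fun y => ∀ i, ∀ w, g w (Fin.snoc (b i) y : Fin (j + 1) → Fin q) c ≠ c w)
  let e : Finset (Fin q) → Fin m → Fin q := fun S =>
    if h : S.card ≤ m then (exists_list S hq h).choose else fun _ => ⟨0, by omega⟩
  have he : ∀ S : Finset (Fin q), S.card ≤ m → ∀ y ∈ S, ∃ i, e S i = y := by
    intro S hS y hy
    simp only [e, hS, dif_pos]
    exact (exists_list S hq hS).choose_spec y hy
  let idx : (Fin m → Fin j → Fin q) → (Fin j → Fin q) → Fin m := fun b x =>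
    if h : ∃ i, b i = x then h.choose else ⟨0, by omega⟩
  have hidx : ∀ (b : Fin m → Fin j → Fin q), Function.Injective b → ∀ i, idx b (b i) = i := by
    intro b hb i
    have h : ∃ i', b i' = b i := ⟨i, rfl⟩
    simp only [idx, h, dif_pos]
    exact hb h.choose_spec
  -- the new gadget
  let sub : (Fin m → Fin j → Fin q) → ((Fin m → Fin j → Fin q) × Option W → Fin q) → W → Fin q :=
    fun b c w => c (b, some w)
  let g' : (Fin m → Fin j → Fin q) × Option W → (Fin j → Fin q) →
      ((Fin m → Fin j → Fin q) × Option W → Fin q) → Fin q := fun w x c =>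
    match w with
    | (b, none) => e (Y b (sub b c)) (idx b x)
    | (b, some w) => g w (Fin.snoc x (c (b, none)) : Fin (j + 1) → Fin q) (sub b c)
  let r' : (Fin m → Fin j → Fin q) × Option W → (Fin m → Fin j → Fin q) × Option W → Prop :=
    fun u v => u.1 = v.1 ∧ (u.2 = none ∨ ∃ w w', u.2 = some w ∧ v.2 = some w' ∧ r w w')
  let G' : SimpleGraph ((Fin m → Fin j → Fin q) × Option W) :=
    { Adj := fun u v => u ≠ v ∧ u.1 = v.1 ∧ (u.2 = none ∨ v.2 = none ∨
        ∃ w w', u.2 = some w ∧ v.2 = some w' ∧ G.Adj w w')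
      symm := ⟨by
        rintro u v ⟨h1, h2, h3⟩
        refine ⟨h1.symm, h2.symm, ?_⟩
        rcases h3 with h3 | h3 | ⟨w, w', h3, h4, h5⟩
        · exact Or.inr (Or.inl h3)
        · exact Or.inl h3
        · exact Or.inr (Or.inr ⟨w', w, h4, h3, h5.symm⟩)⟩
      loopless := ⟨fun u h => h.1 rfl⟩ }
  refine ⟨(Fin m → Fin j → Fin q) × Option W, inferInstance, G', g', ?_, ?_, ?_⟩
  · refine ⟨r', ?_, ?_, ?_, ?_, ?_⟩
    · rintro ⟨b, u⟩
      refine ⟨rfl, ?_⟩
      cases u with
      | none => exact Or.inl rfl
      | some w => exact Or.inr ⟨w, w, rfl, rfl, hrf w⟩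
    · rintro ⟨b, u⟩ ⟨b', v⟩ ⟨b'', w⟩ ⟨h1, h2⟩ ⟨h3, h4⟩
      refine ⟨h1.trans h3, ?_⟩
      rcases h2 with h2 | ⟨x, y, hx, hy, hxy⟩
      · exact Or.inl h2
      · rcases h4 with h4 | ⟨y', z, hy', hz, hyz⟩
        · rw [hy] at h4
          exact absurd h4 (by simp)
        · rw [hy] at hy'
          obtain rfl := Option.some.inj hy'
          exact Or.inr ⟨x, z, hx, hz, htr _ _ _ hxy hyz⟩
    · rintro ⟨b, u⟩ ⟨b', v⟩ ⟨h1, h2⟩ ⟨h3, h4⟩
      simp only at h1
      subst h1
      simp only at h2 h4
      rcases h2 with h2 | ⟨x, y, hx, hy, hxy⟩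
      · rcases h4 with h4 | ⟨y', z, hy', hz, hyz⟩
        · rw [h2, h4]
        · rw [h2] at hz
          exact absurd hz (by simp)
      · rcases h4 with h4 | ⟨y', z, hy', hz, hyz⟩
        · rw [h4] at hy
          exact absurd hy (by simp)
        · rw [hy] at hy'
          rw [hx] at hz
          obtain rfl := Option.some.inj hy'
          obtain rfl := Option.some.inj hz
          rw [hx, hy, has _ _ hxy hyz]
    · rintro ⟨b, v⟩
      refine ⟨Set.toFinite _, ?_, ?_⟩
      · cases v with
        | none =>
          have : {u | r' u (b, none)} ⊆ {(b, none)} := by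
            rintro ⟨b', u⟩ ⟨h1, h2⟩
            simp only at h1
            subst h1
            rcases h2 with h2 | ⟨x, y, hx, hy, hxy⟩
            · simp only at h2
              rw [h2]
              exact Set.mem_singleton _
            · exact absurd hy (by simp)
          have := Set.ncard_le_ncard this (Set.toFinite _)
          rw [Set.ncard_singleton] at this
          omega
        | some w =>
          have : {u | r' u (b, some w)} ⊆
              insert (b, none) ((fun x => (b, some x)) '' {x | r x w}) := by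
            rintro ⟨b', u⟩ ⟨h1, h2⟩
            simp only at h1
            subst h1
            rcases h2 with h2 | ⟨x, y, hx, hy, hxy⟩
            · simp only at h2
              rw [h2]
              exact Set.mem_insert _ _
            · simp only at hx hy
              obtain rfl := Option.some.inj hy
              rw [hx]
              exact Set.mem_insert_of_mem _ ⟨x, hxy, rfl⟩
          refine le_trans (Set.ncard_le_ncard this (Set.toFinite _)) ?_
          refine le_trans (Set.ncard_insert_le _ _) ?_
          have h1 := Set.ncard_image_le (f := fun x : W => (b, some x)) (s := {x | r x w})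
            (Set.toFinite _)
          have h2 := (hch w).2.1
          omega
      · rintro ⟨b1, u⟩ ⟨b2, w⟩ ⟨h1, h2⟩ ⟨h3, h4⟩
        simp only at h1 h3
        subst h1
        subst h3
        rcases h2 with h2 | ⟨x, y, hx, hy, hxy⟩
        · exact Or.inl ⟨rfl, Or.inl h2⟩
        · rcases h4 with h4 | ⟨x', y', hx', hy', hxy'⟩
          · exact Or.inr ⟨rfl, Or.inl h4⟩
          · simp only at hx hy hx' hy'
            rw [hy] at hy'
            obtain rfl := Option.some.inj hy'
            rcases (hch y).2.2 x x' hxy hxy' with h | h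
            · exact Or.inl ⟨rfl, Or.inr ⟨x, x', hx, hx', h⟩⟩
            · exact Or.inr ⟨rfl, Or.inr ⟨x', x, hx', hx, h⟩⟩
    · rintro ⟨b, u⟩ ⟨b', v⟩ ⟨h1, h2, h3⟩
      simp only at h2
      subst h2
      rcases h3 with h3 | h3 | ⟨w, w', h3, h4, h5⟩
      · exact Or.inl ⟨rfl, Or.inl h3⟩
      · exact Or.inr ⟨rfl, Or.inl h3⟩
      · rcases hadj w w' h5 with h | h
        · exact Or.inl ⟨rfl, Or.inr ⟨w, w', h3, h4, h⟩⟩
        · exact Or.inr ⟨rfl, Or.inr ⟨w', w, h4, h3, h⟩⟩
  · rintro ⟨b, w⟩ x c c' h
    cases w with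
    | none =>
      have : sub b c = sub b c' := by
        funext w
        exact h (b, some w) ⟨by simp, rfl, Or.inl rfl⟩
      simp only [g', this]
    | some w =>
      have h1 : c (b, none) = c' (b, none) := h (b, none) ⟨by simp, rfl, Or.inr (Or.inl rfl)⟩
      simp only [g', h1]
      apply hloc
      intro u hu
      exact h (b, some u) ⟨by simpa using G.ne_of_adj hu, rfl, Or.inr (Or.inr ⟨w, u, rfl, rfl, hu⟩)⟩
  · intro c
    by_contra hcon
    push Not at hcon
    set A : Set (Fin j → Fin q) := {x | ∀ w, g' w x c ≠ c w} with hA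
    have hfin : A.Finite := Set.toFinite _
    have hcard : m ≤ hfin.toFinset.card := by
      rw [← Set.ncard_eq_toFinset_card A hfin]
      omega
    obtain ⟨B, hBA, hB⟩ := Finset.exists_subset_card_eq hcard
    let f : B ≃ Fin m := Finset.equivFinOfCardEq hB
    let b : Fin m → Fin j → Fin q := fun i => (f.symm i : Fin j → Fin q)
    have hb : Function.Injective b := fun i i' h => f.symm.injective (Subtype.ext h)
    have hbA : ∀ i, b i ∈ A := fun i => (Set.Finite.mem_toFinset hfin).mp (hBA (f.symm i).2)
    have hy0 : c (b, none) ∈ Y b (sub b c) := by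
      simp only [Y, Finset.mem_filter, Finset.mem_univ, true_and]
      intro i w
      exact hbA i (b, some w)
    have hYm : (Y b (sub b c)).card ≤ m := by
      have h1 := hall (sub b c)
      set A' : Set (Fin (j + 1) → Fin q) := {x | ∀ w, g w x (sub b c) ≠ sub b c w} with hA'
      have hfin' : A'.Finite := Set.toFinite _
      have h2 : ((Finset.univ : Finset (Fin m)) ×ˢ (Y b (sub b c))).card ≤
          hfin'.toFinset.card := by
        apply Finset.card_le_card_of_injOn
          (fun p => (Fin.snoc (b p.1) p.2 : Fin (j + 1) → Fin q))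
        · rintro ⟨i, y⟩ hp
          simp only [Finset.coe_product, Set.mem_prod, Finset.mem_coe, Y, Finset.mem_filter,
            Finset.mem_univ, true_and] at hp
          rw [Finset.mem_coe, Set.Finite.mem_toFinset]
          exact fun w => hp i w
        · rintro ⟨i, y⟩ _ ⟨i', y'⟩ _ h
          simp only at h
          have h3 := congrArg (fun t : Fin (j + 1) → Fin q => t (Fin.last j)) h
          have h4 := congrArg (fun t : Fin (j + 1) → Fin q => (Fin.init t : Fin j → Fin q)) h
          simp only [Fin.snoc_last] at h3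
          simp only [Fin.init_snoc] at h4
          rw [Prod.mk.injEq]
          exact ⟨hb h4, h3⟩
      rw [← Set.ncard_eq_toFinset_card A' hfin', Finset.card_product, Finset.card_univ,
        Fintype.card_fin] at h2
      by_contra hlt
      push Not at hlt
      have : m * (m + 1) ≤ m * (Y b (sub b c)).card := Nat.mul_le_mul_left m hlt
      omega
    obtain ⟨i, hi⟩ := he _ hYm _ hy0
    apply hbA i (b, none)
    simp only [g', hidx b hb]
    exact hi

lemma gadget_all (d : ℕ) : ∀ i, i ≤ d → Gadget (a d) (d - i) (a (d - i) - 1) (i + 1) := by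
  intro i
  induction i with
  | zero =>
    intro _
    simpa using gadget_base d (a d) (a_pos d)
  | succ i ih =>
    intro hi
    have h := ih (by omega)
    have e : d - i = (d - (i + 1)) + 1 := by omega
    rw [e] at h
    apply gadget_step (a_pos d) (a_pos _) _ h
    have := a_pos (d - (i + 1) + 1)
    rw [show a (d - (i + 1) + 1) = a (d - (i + 1)) * (a (d - (i + 1)) + 1) from rfl] at this ⊢
    omega

lemma degenerate {V : Type} [Fintype V] {G : SimpleGraph V} {d : ℕ}
    (hT : TreedepthLE (d + 1) G) : ∃ ι : V → ℕ, Function.Injective ι ∧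
      ∀ v : V, {w : V | G.Adj v w ∧ ι w < ι v}.ncard ≤ d := by
  classical
  obtain ⟨r, hrf, htr, has, hch, hadj⟩ := hT
  let e : V ≃ Fin (Fintype.card V) := Fintype.equivFin V
  refine ⟨fun v => lev r v * Fintype.card V + e v, ?_, ?_⟩
  · intro u v h
    simp only at h
    have h1 := (e u).2
    have h2 := (e v).2
    have h3 : ((e u : ℕ)) = (e v : ℕ) := by
      have := congrArg (fun n => n % Fintype.card V) h
      simpa [Nat.mul_add_mod', Nat.mod_eq_of_lt h1, Nat.mod_eq_of_lt h2] using this
    exact e.injective (Fin.ext h3)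
  · intro v
    have hsub : {w : V | G.Adj v w ∧ lev r w * Fintype.card V + e w <
        lev r v * Fintype.card V + e v} ⊆ {u | r u v} \ {v} := by
      rintro w ⟨h1, h2⟩
      refine ⟨?_, (G.ne_of_adj h1).symm⟩
      rcases hadj v w h1 with h | h
      · exfalso
        have h3 := lev_lt htr has h (G.ne_of_adj h1) hrf
        have h4 := (e v).2
        have h5 : (lev r v + 1) * Fintype.card V ≤ lev r w * Fintype.card V :=
          Nat.mul_le_mul_right _ h3
        rw [add_mul] at h5
        omega
      · exact h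
    refine le_trans (Set.ncard_le_ncard hsub (Set.toFinite _)) ?_
    rw [Set.ncard_sdiff_singleton_of_mem (show v ∈ {u | r u v} from hrf v)]
    have := (hch v).2.1
    omega

theorem lower (d : ℕ) : ∃ (V : Type) (_ : Fintype V) (G : SimpleGraph V)
    (s : V → (V → Fin (a d)) → Fin (a d)), TreedepthLE (d + 1) G ∧ IsWinning G (a d) s := by
  obtain ⟨W, hW, G, g, hT, hloc, hall⟩ := gadget_all d d (le_refl _)
  refine ⟨W, hW, G, fun w c => g w (fun i => absurd i.2 (by omega)) c, hT, ?_, ?_⟩
  · intro v c c' h
    exact hloc v _ c c' h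
  · intro c
    by_contra hcon
    push Not at hcon
    have h := hall c
    have h0 : a (d - d) - 1 = 0 := by simp [a]
    rw [h0, Nat.le_zero, Set.ncard_eq_zero (Set.toFinite _)] at h
    have : (fun i => absurd i.2 (by omega) : Fin (d - d) → Fin (a d)) ∈
        {x | ∀ w, g w x c ≠ c w} := hcon
    rw [h] at this
    exact this

end Pool.Agent.Lib.MP_994fee_co.Td
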