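import Pool.Agent.Lib.MP_994fee_co.Treedepth

/-!
# The largest hat guessing number of a graph of treedepth `d + 1`

It is `a d`, where `a 0 = 1` and `a (n + 1) = a n * (a n + 1)`: `1, 2, 6, 42, 1806, ...`
(Sylvester's sequence minus one).  The extremal graphs are `d`-degenerate, and
`a d ≥ 1.59 ^ (2 ^ d)` for `d ≥ 3`.
-/

namespace Pool.Agent.Lib.MP_994fee_co.TreedepthResult

open Pool.Agent.Lib.MP_994fee_co Pool.Agent.Lib.MP_994fee_co.Td

theorem a_large (d : ℕ) : ((159 : ℝ) / 100) ^ 2 ^ (d + 3) ≤ a (d + 3) := by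
  induction d with
  | zero =>
    norm_num [a]
  | succ d ih =>
    have e : ((159 : ℝ) / 100) ^ 2 ^ (d + 1 + 3) = (((159 : ℝ) / 100) ^ 2 ^ (d + 3)) ^ 2 := by
      rw [← pow_mul]
      congr 1
    have e2 : (a (d + 1 + 3) : ℝ) = a (d + 3) * (a (d + 3) + 1) := by
      have : a (d + 1 + 3) = a (d + 3) * (a (d + 3) + 1) := rfl
      rw [this]
      push_cast
      ring
    rw [e, e2]
    have h0 : (0 : ℝ) ≤ ((159 : ℝ) / 100) ^ 2 ^ (d + 3) := by positivity
    have h1 : (0 : ℝ) ≤ a (d + 3) := Nat.cast_nonneg _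
    nlinarith [ih]

theorem result (d : ℕ) :
    (∀ (V : Type) [Fintype V] (G : SimpleGraph V) (q : ℕ) (s : V → (V → Fin q) → Fin q),
      TreedepthLE (d + 1) G → IsWinning G q s → q ≤ a d) ∧
    (∃ (V : Type) (_ : Fintype V) (G : SimpleGraph V) (s : V → (V → Fin (a d)) → Fin (a d)),
      TreedepthLE (d + 1) G ∧
      (∃ ι : V → ℕ, Function.Injective ι ∧
        ∀ v : V, {w : V | G.Adj v w ∧ ι w < ι v}.ncard ≤ d) ∧
      IsWinning G (a d) s) ∧
    (3 ≤ d → ((159 : ℝ) / 100) ^ 2 ^ d ≤ a d) := by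
  refine ⟨fun V _ G q s hT hw => upper hT hw, ?_, ?_⟩
  · obtain ⟨V, hV, G, s, hT, hw⟩ := lower d
    exact ⟨V, hV, G, s, hT, degenerate hT, hw⟩
  · intro hd
    obtain ⟨e, rfl⟩ := Nat.exists_eq_add_of_le hd
    rw [add_comm 3 e]
    exact a_large e

end Pool.Agent.Lib.MP_994fee_co.TreedepthResult
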